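import Mathlib

/-!
RCD/Avg (MP_920410_lc). The numbers `rho v` and `F w`, and the choice of the chain: among the
`Nat.sqrt w` chains with the most colours there is one with few colours of the spine.
-/

set_option autoImplicit false

namespace Pool.Agent.RCD

/-- The number of colours (in units of `m`) of the side chain for width `w`. -/
def rho (w : ℕ) : ℕ := max w (2 * w - (2 * Nat.sqrt w + 2))

/-- The total number of colours forced in width `w` (in units of `m`). -/
def F : ℕ → ℕ
  | 0 => 0
  | w + 1 => rho (w + 1) + F w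

theorem exists_rho {w m : ℕ} (c : ℕ → Finset ℕ) (y : Finset ℕ)
    (hc : ∀ i, 1 ≤ i → i ≤ w → i * m ≤ (c i).card)
    (hd : ∀ i j, 1 ≤ i → i < j → j ≤ w → Disjoint (c i) (c j))
    (hw : 1 ≤ w) (hy : (w - 1) * m ≤ y.card) :
    ∃ i, 1 ≤ i ∧ i ≤ w ∧ rho w * m ≤ (c i ∪ y).card := by
  classical
  rcases le_total (2 * w - (2 * Nat.sqrt w + 2)) w with h | h
  · refine ⟨w, hw, le_rfl, ?_⟩
    rw [rho, max_eq_left h]
    exact (hc w hw le_rfl).trans (Finset.card_le_card Finset.subset_union_left)
  · rw [rho, max_eq_right h]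
    obtain ⟨s, hs⟩ : ∃ s, s = Nat.sqrt w := ⟨_, rfl⟩
    rw [← hs] at h ⊢
    have hs1 : 1 ≤ s := by
      rw [hs]
      exact Nat.sqrt_pos.2 hw
    have hsw : s ≤ w := by
      rw [hs]
      exact Nat.sqrt_le_self w
    have hw2 : w ≤ s * s + 2 * s := by
      have := Nat.sqrt_le_add w
      rw [← hs] at this
      omega
    have hsum : ∑ i ∈ Finset.Ioc (w - s) w, (c i ∩ y).card ≤ y.card := by
      rw [← Finset.card_biUnion]
      · refine Finset.card_le_card fun x hx => ?_
        obtain ⟨i, _, hi⟩ := Finset.mem_biUnion.1 hx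
        exact (Finset.mem_inter.1 hi).2
      · intro i hi j hj hij
        rw [Finset.mem_coe, Finset.mem_Ioc] at hi hj
        rcases lt_or_gt_of_ne hij with h1 | h1
        · exact (hd i j (by omega) h1 hj.2).mono Finset.inter_subset_left Finset.inter_subset_left
        · exact ((hd j i (by omega) h1 hi.2).mono Finset.inter_subset_left
            Finset.inter_subset_left).symm
    obtain ⟨i, hi, hiy⟩ : ∃ i ∈ Finset.Ioc (w - s) w, s * (c i ∩ y).card ≤ y.card := by
      by_contra hcon
      push Not at hcon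
      have h1 : ∑ i ∈ Finset.Ioc (w - s) w, y.card <
          ∑ i ∈ Finset.Ioc (w - s) w, s * (c i ∩ y).card := by
        refine Finset.sum_lt_sum_of_nonempty ?_ hcon
        rw [Finset.nonempty_Ioc]
        omega
      rw [Finset.sum_const, Nat.card_Ioc, smul_eq_mul, ← Finset.mul_sum] at h1
      have h2 : w - (w - s) = s := by omega
      rw [h2] at h1
      exact absurd h1 (not_lt.2 (Nat.mul_le_mul_left s hsum))
    rw [Finset.mem_Ioc] at hi
    refine ⟨i, by omega, hi.2, ?_⟩
    have h1 := Finset.card_union_add_card_inter (c i) y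
    have h2 := hc i (by omega) hi.2
    have h3 : (w - s + 1) * m ≤ (c i).card := le_trans (Nat.mul_le_mul_right m (by omega)) h2
    obtain ⟨p, hp⟩ : ∃ p, p = (c i ∩ y).card := ⟨_, rfl⟩
    obtain ⟨q, hq⟩ : ∃ q, q = y.card := ⟨_, rfl⟩
    obtain ⟨r, hr⟩ : ∃ r, r = (c i).card := ⟨_, rfl⟩
    rw [← hp, ← hq, ← hr] at h1
    rw [← hp, ← hq] at hiy
    rw [← hq] at hy
    rw [← hr] at h3
    have h4 : (c i ∪ y).card = r + q - p := by omega
    rw [h4]
    -- everything in the integers
    have hpq : p ≤ q := by nlinarith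
    obtain ⟨w', rfl⟩ : ∃ w', w = w' + 1 := ⟨w - 1, by omega⟩
    obtain ⟨d, hd'⟩ : ∃ d, w' + 1 = s + d := ⟨w' + 1 - s, by omega⟩
    have e1 : w' + 1 - s + 1 = d + 1 := by omega
    have e2 : w' + 1 - 1 = w' := by omega
    rw [e1] at h3
    rw [e2] at hy
    by_cases h5 : 2 * (w' + 1) ≤ 2 * s + 2
    · have h6 : 2 * (w' + 1) - (2 * s + 2) = 0 := by omega
      rw [h6, zero_mul]
      exact Nat.zero_le _
    have h7 : 2 * (w' + 1) - (2 * s + 2) = 2 * d - 2 := by omega
    rw [h7]
    have h8 : (2 * d - 2) * m + p ≤ r + q := by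
      have h9 : s * ((2 * d - 2) * m + p) ≤ s * (r + q) := by
        have k1 : s * ((2 * d - 2) * m + p) ≤ s * ((2 * d - 2) * m) + q := by nlinarith
        have k2 : s * ((2 * d - 2) * m) ≤ s * ((d + 1) * m) + (s - 1) * q := by
          have k3 : (s - 1) * (w' * m) ≤ (s - 1) * q := Nat.mul_le_mul_left _ hy
          have k4 : s * (2 * d - 2) ≤ s * (d + 1) + (s - 1) * w' := by
            obtain ⟨s', rfl⟩ : ∃ s', s = s' + 1 := ⟨s - 1, by omega⟩
            obtain ⟨d', rfl⟩ : ∃ d', d = d' + 1 := ⟨d - 1, by omega⟩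
            have e3 : 2 * (d' + 1) - 2 = 2 * d' := by omega
            have e4 : s' + 1 - 1 = s' := by omega
            have e5 : w' = s' + 1 + d' := by omega
            rw [e3, e4, e5]
            have : s' + 1 + d' + 1 ≤ (s' + 1) * (s' + 1) + 2 * (s' + 1) := by omega
            nlinarith
          calc s * ((2 * d - 2) * m) = s * (2 * d - 2) * m := by ring
            _ ≤ (s * (d + 1) + (s - 1) * w') * m := Nat.mul_le_mul_right m k4
            _ = s * ((d + 1) * m) + (s - 1) * (w' * m) := by ring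
            _ ≤ _ := Nat.add_le_add_left k3 _
        have k5 : s * ((d + 1) * m) ≤ s * r := Nat.mul_le_mul_left _ h3
        have k6 : (s - 1) * q + q = s * q := by
          obtain ⟨s', rfl⟩ : ∃ s', s = s' + 1 := ⟨s - 1, by omega⟩
          have e4 : s' + 1 - 1 = s' := by omega
          rw [e4]
          ring
        calc s * ((2 * d - 2) * m + p) ≤ s * ((2 * d - 2) * m) + q := k1
          _ ≤ s * ((d + 1) * m) + (s - 1) * q + q := by omega
          _ ≤ s * r + s * q := by omega
          _ = s * (r + q) := by ring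
      exact Nat.le_of_mul_le_mul_left h9 hs1
    omega

end Pool.Agent.RCD
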