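import Pool.Agent.RCD.Pos2

/-!
RCD/BTwoC (MP_920410_lc). Among `4 (M + 1)` elements which carry one of four colours there are `M + 1`
with a common colour (pigeonhole principle); they are numbered in increasing order.
-/

set_option autoImplicit false

namespace Pool.Agent.RCD

open Pool.Agent.RCC (Pos dn cl cols dn_append_lt cl_append_lt dn_last cl_last)

theorem cuts (M : ℕ) (s : Pos) (h : ∀ i < 4 * (M + 1), ∃ x < 4, x ∈ cl s i) :
    ∃ κ < 4, ∃ g : ℕ → ℕ, (∀ x ≤ M, g x < 4 * (M + 1)) ∧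
      (∀ x y, x < y → y ≤ M → g x < g y) ∧ ∀ x ≤ M, κ ∈ cl s (g x) := by
  classical
  have h' : ∀ i : ℕ, ∃ x, i < 4 * (M + 1) → x < 4 ∧ x ∈ cl s i := by
    intro i
    by_cases hi : i < 4 * (M + 1)
    · obtain ⟨x, hx, hx'⟩ := h i hi
      exact ⟨x, fun _ => ⟨hx, hx'⟩⟩
    · exact ⟨0, fun h0 => absurd h0 hi⟩
  choose c hc using h'
  obtain ⟨κ, hκ, hcard⟩ := Finset.exists_le_card_fiber_of_mul_le_card_of_maps_to
    (s := Finset.range (4 * (M + 1))) (t := Finset.range 4) (f := c) (n := M + 1)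
    (fun i hi => Finset.mem_range.2 (hc i (Finset.mem_range.1 hi)).1)
    ⟨0, Finset.mem_range.2 (by norm_num)⟩
    (by rw [Finset.card_range, Finset.card_range])
  set A := (Finset.range (4 * (M + 1))).filter fun i => c i = κ with hA
  set e : Fin (M + 1) ↪o ℕ := A.orderEmbOfCardLe hcard with he
  have hmem : ∀ i : Fin (M + 1), e i ∈ A := fun i => A.orderEmbOfCardLe_mem hcard i
  refine ⟨κ, Finset.mem_range.1 hκ, fun x => if hx : x < M + 1 then e ⟨x, hx⟩ else 0, ?_, ?_, ?_⟩
  · intro x hx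
    have hx' : x < M + 1 := by omega
    simp only [hx', dif_pos]
    have h1 := hmem ⟨x, hx'⟩
    rw [hA, Finset.mem_filter] at h1
    exact Finset.mem_range.1 h1.1
  · intro x y hxy hy
    have hx' : x < M + 1 := by omega
    have hy' : y < M + 1 := by omega
    simp only [hx', hy', dif_pos]
    exact e.lt_iff_lt.2 (Fin.mk_lt_mk.2 hxy)
  · intro x hx
    have hx' : x < M + 1 := by omega
    simp only [hx', dif_pos]
    have h1 := hmem ⟨x, hx'⟩
    rw [hA, Finset.mem_filter] at h1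
    have h2 := (hc (e ⟨x, hx'⟩) (Finset.mem_range.1 h1.1)).2
    rwa [h1.2] at h2

end Pool.Agent.RCD
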