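import Pool.Agent.RCD.Pos2

/-!
RCD/BTwoS (MP_920410_lc). The first player can present a coloured chain of any length.
-/

set_option autoImplicit false

namespace Pool.Agent.RCD

open Pool.Agent.RCC (Pos dn cl cols dn_append_lt cl_append_lt dn_last cl_last)

theorem spine (N : ℕ) : Frc2 2 1 4 (fun s => s.length = N ∧
    (∀ i < N, ∀ j < N, (lt s i j ↔ i < j)) ∧ ∀ i < N, ∃ x < 4, x ∈ cl s i) [] := by
  induction N with
  | zero => exact Frc2.done [] ⟨rfl, fun i hi => absurd hi (Nat.not_lt_zero i),
      fun i hi => absurd hi (Nat.not_lt_zero i)⟩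
  | succ N ih =>
    refine ih.bind fun t ht => ?_
    obtain ⟨hlen, hord, hcl⟩ := ht
    have hslot : Slot 2 1 t (Finset.range N) ∅ := by
      refine ⟨fun i hi => ?_, fun i hi => absurd hi (Finset.notMem_empty i),
        fun i _ h hh _ => ?_, fun i hi => absurd hi (Finset.notMem_empty i),
        fun i _ j hj => absurd hj (Finset.notMem_empty j), fun X hX h1 _ => ?_⟩
      · rw [hlen]
        exact Finset.mem_range.1 hi
      · rw [hlen] at hh
        exact Finset.mem_range.2 hh
      · have h2 : X = ∅ := by
          rw [Finset.eq_empty_iff_forall_notMem]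
          intro i hi
          have h3 := hX.1 i hi
          rw [hlen] at h3
          exact Finset.disjoint_left.1 h1 hi (Finset.mem_range.2 h3)
        rw [h2]
        simp
    refine Frc2.step t (Finset.range N) ∅ hslot fun X hX => Frc2.done _ ⟨?_, ?_, ?_⟩
    · simp [hlen]
    · intro i hi j hj
      rcases Nat.lt_succ_iff_lt_or_eq.1 hi with h1 | h1
      · rcases Nat.lt_succ_iff_lt_or_eq.1 hj with h2 | h2
        · rw [lt_append (by rw [hlen]; exact h1) (by rw [hlen]; exact h2)]
          exact hord i h1 j h2
        · have e : j = t.length := by rw [hlen]; exact h2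
          rw [e, lt_last (by rw [hlen]; exact h1), hlen, Finset.mem_range]
      · have e : i = t.length := by rw [hlen]; exact h1
        rcases Nat.lt_succ_iff_lt_or_eq.1 hj with h2 | h2
        · rw [e, last_lt (by rw [hlen]; exact h2), hlen]
          constructor
          · intro h
            exact absurd h (Finset.notMem_empty j)
          · intro h
            omega
        · have e' : j = t.length := by rw [hlen]; exact h2
          rw [e, e']
          exact ⟨fun h => absurd h (lt_irrefl _ _), fun h => absurd h (Nat.lt_irrefl _)⟩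
    · intro i hi
      rcases Nat.lt_succ_iff_lt_or_eq.1 hi with h1 | h1
      · obtain ⟨x, hx, hx'⟩ := hcl i h1
        refine ⟨x, hx, ?_⟩
        rw [cl_append_lt (by rw [hlen]; exact h1)]
        exact hx'
      · have e : i = t.length := by rw [hlen]; exact h1
        obtain ⟨x, hx⟩ := Finset.card_pos.1 (lt_of_lt_of_le Nat.zero_lt_one hX.2.1)
        refine ⟨x, Finset.mem_range.1 (hX.1 hx), ?_⟩
        rw [e, cl_last]
        exact hx

end Pool.Agent.RCD
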