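import Pool.Agent.RCD.Blk
import Pool.Agent.RCC.BlkC

/-!
RCD/BlkC (MP_920410_lc). Computability of the two-sided block order: adapt RCC/BlkC (one more
alternative in the relation: `∃ p, D (ans (ls x)) = some p ∧ (ls y).length ∈ p.2`).
-/

set_option autoImplicit false

namespace Pool.Agent.RCD

open Nat.Partrec (Code)
open Pool.Agent.RCC (hist bits cd ls mk ans Hlt)

/-- A finite set is primitive recursive. -/
private theorem primrec_mem_finite {α : Type} [Primcodable α] {F : Set α} (hF : F.Finite) :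
    PrimrecPred fun x : α => x ∈ F := by
  have h : PrimrecPred fun x : α => ∃ a ∈ hF.toFinset.toList, a = x :=
    (PrimrecRel.exists_mem_list (R := fun a b : α => a = b) Primrec.eq).comp
      (Primrec.const hF.toFinset.toList) Primrec.id
  refine h.of_eq fun x => ?_
  simp

private theorem finite_dom {D : Strat} {u N K : ℕ} (hD : Good D u N K) :
    {L : List ℕ | (D L).isSome}.Finite := by
  refine ((List.finite_length_lt (Fin K) N).image (List.map Fin.val)).subset fun L hL => ?_
  obtain ⟨h1, h2⟩ := hD.len L hL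
  refine ⟨L.pmap (fun x hx => ⟨x, hx⟩) h2, ?_, ?_⟩
  · simpa using h1
  · rw [List.map_pmap]
    simp

private theorem finite_mem1 {D : Strat} {u N K : ℕ} (hD : Good D u N K) :
    {q : List ℕ × ℕ | ∃ p, D q.1 = some p ∧ q.2 ∈ p.1}.Finite := by
  refine ((finite_dom hD).prod (Set.finite_lt_nat N)).subset fun q hq => ?_
  obtain ⟨p, h1, h2⟩ := hq
  have h3 : (D q.1).isSome := by rw [h1]; rfl
  exact ⟨h3, lt_trans ((hD.down _ _ h1).1 _ h2) (hD.len _ h3).1⟩

private theorem finite_mem2 {D : Strat} {u N K : ℕ} (hD : Good D u N K) :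
    {q : List ℕ × ℕ | ∃ p, D q.1 = some p ∧ q.2 ∈ p.2}.Finite := by
  refine ((finite_dom hD).prod (Set.finite_lt_nat N)).subset fun q hq => ?_
  obtain ⟨p, h1, h2⟩ := hq
  have h3 : (D q.1).isSome := by rw [h1]; rfl
  exact ⟨h3, lt_trans ((hD.down _ _ h1).2 _ h2) (hD.len _ h3).1⟩

private theorem primrec_cd : Primrec cd :=
  (Primrec.ofNat Code).comp (Primrec.fst.comp Primrec.unpair)

private theorem primrec_ls : Primrec ls :=
  (Primrec.ofNat (List ℕ)).comp (Primrec.snd.comp Primrec.unpair)

private theorem primrec_mk : Primrec₂ mk :=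
  Primrec₂.natPair.comp Primrec.fst (Primrec.encode.comp Primrec.snd)

private theorem primrec_ans : Primrec ans :=
  Primrec.list_map Primrec.id ((Primrec.snd.comp (Primrec.unpair.comp Primrec.snd)).to₂)

private theorem primrec_hlt {α : Type} [Primcodable α] {c : α → Code} {y e : α → ℕ}
    (hc : Primrec c) (hy : Primrec y) (he : Primrec e) :
    PrimrecPred fun a => Hlt (c a) (y a) (e a) := by
  have e1 : Primrec fun a => (e a).unpair.1 := Primrec.fst.comp (Primrec.unpair.comp he)
  have e2 : Primrec fun a => (e a).unpair.2 := Primrec.snd.comp (Primrec.unpair.comp he)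
  have h1 : Primrec fun a => (c a).evaln ((e a).unpair.1 + 1) (y a) :=
    Nat.Partrec.Code.primrec_evaln.comp
      (Primrec.pair (Primrec.pair (Primrec.succ.comp e1) hc) hy)
  have h2 : Primrec fun a => (c a).evaln (e a).unpair.1 (y a) :=
    Nat.Partrec.Code.primrec_evaln.comp (Primrec.pair (Primrec.pair e1 hc) hy)
  exact (Primrec.eq.comp h1 (Primrec.option_some.comp e2)).and
    (Primrec.eq.comp h2 (Primrec.const none))

private theorem primrec_blk {D : Strat} {u N K : ℕ} (hD : Good D u N K) :
    PrimrecPred fun x : ℕ => x ∈ blkSet D := by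
  have hlen : Primrec fun x : ℕ => (ls x).length := Primrec.list_length.comp primrec_ls
  have htake : Primrec fun p : ℕ × ℕ => (ls p.2).take p.1 :=
    Primrec.list_take.comp Primrec.fst (primrec_ls.comp Primrec.snd)
  have h1 : PrimrecRel fun j x : ℕ => (D (ans ((ls x).take j))).isSome :=
    (primrec_mem_finite (finite_dom hD)).comp (primrec_ans.comp htake)
  have h2 : PrimrecRel fun j x : ℕ =>
      Hlt (cd x) (mk x.unpair.1 ((ls x).take j)) ((ls x).getD j 0) :=
    primrec_hlt (primrec_cd.comp Primrec.snd)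
      (primrec_mk.comp (Primrec.fst.comp (Primrec.unpair.comp Primrec.snd)) htake)
      ((Primrec.list_getD 0).comp (primrec_ls.comp Primrec.snd) Primrec.fst)
  have h3 : PrimrecPred fun x : ℕ => ∀ j < (ls x).length + 1, (D (ans ((ls x).take j))).isSome :=
    h1.forall_lt.comp (Primrec.succ.comp hlen) Primrec.id
  have h4 : PrimrecPred fun x : ℕ => ∀ j < (ls x).length,
      Hlt (cd x) (mk x.unpair.1 ((ls x).take j)) ((ls x).getD j 0) :=
    h2.forall_lt.comp hlen Primrec.id
  refine (h3.and h4).of_eq fun x => ?_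
  show _ ↔ (∀ j ≤ (ls x).length, (D (ans ((ls x).take j))).isSome) ∧
    ∀ j < (ls x).length, Hlt (cd x) (mk x.unpair.1 ((ls x).take j)) ((ls x).getD j 0)
  simp only [Nat.lt_succ_iff]

theorem blk_dom {D : Strat} {u N K : ℕ} (hD : Good D u N K) :
    ComputablePred fun x : ℕ => x ∈ blkSet D :=
  (primrec_blk hD).computablePred

theorem blk_rel {D : Strat} {u N K : ℕ} (hD : Good D u N K) :
    ComputablePred fun p : ℕ × ℕ => p.1 ∈ blkSet D ∧ p.2 ∈ blkSet D ∧ blkRel D p.1 p.2 := by
  have hlen : Primrec fun x : ℕ => (ls x).length := Primrec.list_length.comp primrec_ls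
  have u1 : Primrec fun p : ℕ × ℕ => p.1.unpair.1 :=
    Primrec.fst.comp (Primrec.unpair.comp Primrec.fst)
  have u2 : Primrec fun p : ℕ × ℕ => p.2.unpair.1 :=
    Primrec.fst.comp (Primrec.unpair.comp Primrec.snd)
  have h1 : PrimrecPred fun q : ℕ × ℕ =>
      ∃ p, D (ans (ls q.2)) = some p ∧ (ls q.1).length ∈ p.1 :=
    (primrec_mem_finite (finite_mem1 hD)).comp
      (Primrec.pair (primrec_ans.comp (primrec_ls.comp Primrec.snd)) (hlen.comp Primrec.fst))
  have h1' : PrimrecPred fun q : ℕ × ℕ =>
      ∃ p, D (ans (ls q.1)) = some p ∧ (ls q.2).length ∈ p.2 :=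
    (primrec_mem_finite (finite_mem2 hD)).comp
      (Primrec.pair (primrec_ans.comp (primrec_ls.comp Primrec.fst)) (hlen.comp Primrec.snd))
  have h2 : PrimrecPred fun q : ℕ × ℕ => blkRel D q.1 q.2 :=
    (Primrec.eq.comp Primrec.fst Primrec.snd).or
      ((Primrec.nat_lt.comp u1 u2).or ((Primrec.eq.comp u1 u2).and (h1.or h1')))
  exact (((primrec_blk hD).comp Primrec.fst).and
    (((primrec_blk hD).comp Primrec.snd).and h2)).computablePred

end Pool.Agent.RCD
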