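import Pool.Agent.RCD.Blk
import Pool.Agent.RCC.BlkO

/-!
RCD/BlkO (MP_920410_lc). The two-sided block order is a partial order of width at most `u`: adapt
RCC/BlkO. For `x`, `y` in one block let `z` be the one (of two or three elements) with the longest
list and `a n = (ans (ls z)).getD n 0`; then `ans (ls x) = hist a (ls x).length` etc. and
`blkRel D x y` means `x = y ∨ Lt D a (ls x).length (ls y).length`; irreflexivity of `Lt` on present
elements is `Good.down`, antisymmetry is `Good.trans` and irreflexivity.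
-/

set_option autoImplicit false

namespace Pool.Agent.RCD

open Nat.Partrec (Code)
open Pool.Agent.RCC (hist bits cd ls mk ans Hlt Anti)

private theorem hlt_unique {c : Code} {y e e' : ℕ} (h : Hlt c y e) (h' : Hlt c y e') : e = e' := by
  obtain ⟨h1, h2⟩ := h
  obtain ⟨h1', h2'⟩ := h'
  have key : ∀ t a t' : ℕ, c.evaln (t + 1) y = some a → c.evaln t' y = none → t' ≤ t := by
    intro t a t' h3 h4
    by_contra h5
    have h6 : a ∈ c.evaln t' y := Nat.Partrec.Code.evaln_mono (by omega) h3
    rw [h4] at h6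
    exact absurd h6 (by simp)
  have h3 : e.unpair.1 = e'.unpair.1 := le_antisymm (key _ _ _ h1' h2) (key _ _ _ h1 h2')
  rw [h3, h1'] at h1
  have h4 : e'.unpair.2 = e.unpair.2 := Option.some_injective _ h1
  rw [← Nat.pair_unpair e, ← Nat.pair_unpair e', h3, h4]

private theorem take_getD (L : List ℕ) {j : ℕ} (hj : j < L.length) :
    L.take (j + 1) = L.take j ++ [L.getD j 0] := by
  rw [List.take_add_one, List.getElem?_eq_getElem hj, List.getD_eq_getElem _ _ hj]
  rfl

private theorem take_eq {D : Strat} {x y : ℕ} (hx : x ∈ blkSet D) (hy : y ∈ blkSet D)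
    (h : x.unpair.1 = y.unpair.1) : ∀ j, j ≤ (ls x).length → j ≤ (ls y).length →
      (ls x).take j = (ls y).take j := by
  intro j
  induction j with
  | zero => intro _ _; simp
  | succ j ih =>
    intro h1 h2
    have h3 := ih (by omega) (by omega)
    rw [take_getD _ (by omega), take_getD _ (by omega), h3]
    have h4 := hx.2 j (by omega)
    have h5 := hy.2 j (by omega)
    have h6 : cd x = cd y := by unfold cd; rw [h]
    rw [h3, h6, h] at h4
    rw [hlt_unique h4 h5]

private theorem eq_of_len {D : Strat} {x y : ℕ} (hx : x ∈ blkSet D) (hy : y ∈ blkSet D)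
    (h : x.unpair.1 = y.unpair.1) (hl : (ls x).length = (ls y).length) : x = y := by
  have h1 := take_eq hx hy h (ls x).length le_rfl hl.le
  rw [List.take_length, hl, List.take_length] at h1
  rw [← Pool.Agent.RCC.mk_ls x, ← Pool.Agent.RCC.mk_ls y, h, h1]

private theorem range_getD (L : List ℕ) :
    ∀ j ≤ L.length, (List.range j).map (fun n => L.getD n 0) = L.take j := by
  intro j
  induction j with
  | zero => intro _; simp
  | succ j ih =>
    intro h
    rw [List.range_succ, List.map_append, ih (by omega), take_getD _ (by omega)]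
    rfl

/-- The answers of `z`. -/
private def an (z : ℕ) : ℕ → ℕ := fun n => (ans (ls z)).getD n 0

private theorem ans_length (L : List ℕ) : (ans L).length = L.length := by
  unfold ans
  rw [List.length_map]

private theorem ans_take (L : List ℕ) (j : ℕ) : ans (L.take j) = (ans L).take j := by
  unfold ans
  rw [List.map_take]

private theorem hist_eq {z j : ℕ} (h : j ≤ (ls z).length) : hist (an z) j = ans ((ls z).take j) := by
  unfold hist an
  rw [range_getD _ _ (by rw [ans_length]; exact h), ans_take]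

/-- The list of a shorter element of the block. -/
private theorem hist_len {D : Strat} {x z : ℕ} (hx : x ∈ blkSet D) (hz : z ∈ blkSet D)
    (h : x.unpair.1 = z.unpair.1) (hl : (ls x).length ≤ (ls z).length) :
    hist (an z) (ls x).length = ans (ls x) := by
  rw [hist_eq hl, ← take_eq hx hz h _ le_rfl hl, List.take_length]

private theorem pres {D : Strat} {z j : ℕ} (hz : z ∈ blkSet D) (hj : j ≤ (ls z).length) :
    Pres D (an z) j := by
  intro i hi
  rw [hist_eq (hi.trans hj)]
  exact hz.1 i (hi.trans hj)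

private theorem hist_length (a : ℕ → ℕ) (n : ℕ) : (hist a n).length = n := by
  unfold hist
  rw [List.length_map, List.length_range]

private theorem irrefl {D : Strat} {u N K : ℕ} (hD : Good D u N K) (a : ℕ → ℕ) (i : ℕ) :
    ¬ Lt D a i i := by
  rintro (⟨p, hp, hi⟩ | ⟨p, hp, hi⟩)
  · have := (hD.down _ _ hp).1 i hi
    rw [hist_length] at this
    omega
  · have := (hD.down _ _ hp).2 i hi
    rw [hist_length] at this
    omega

/-- The order inside one block. -/
private def Rin (D : Strat) (x y : ℕ) : Prop :=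
  (∃ p, D (ans (ls y)) = some p ∧ (ls x).length ∈ p.1) ∨
    ∃ p, D (ans (ls x)) = some p ∧ (ls y).length ∈ p.2

private theorem rin_iff {D : Strat} {x y z : ℕ} (hx : x ∈ blkSet D) (hy : y ∈ blkSet D)
    (hz : z ∈ blkSet D) (hxz : x.unpair.1 = z.unpair.1) (hyz : y.unpair.1 = z.unpair.1)
    (hlx : (ls x).length ≤ (ls z).length) (hly : (ls y).length ≤ (ls z).length) :
    Rin D x y ↔ Lt D (an z) (ls x).length (ls y).length := by
  unfold Rin Lt
  rw [hist_len hx hz hxz hlx, hist_len hy hz hyz hly]

theorem blk_antisymm {D : Strat} {u N K : ℕ} (hD : Good D u N K) :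
    ∀ x ∈ blkSet D, ∀ y ∈ blkSet D, blkRel D x y → blkRel D y x → x = y := by
  intro x hx y hy hxy hyx
  rcases hxy with h | h | ⟨h, hr⟩
  · exact h
  · rcases hyx with h' | h' | ⟨h', -⟩
    · exact h'.symm
    · omega
    · omega
  · rcases hyx with h' | h' | ⟨h', hr'⟩
    · exact h'.symm
    · omega
    · exfalso
      obtain ⟨z, hz, h1, h2, h3, h4⟩ : ∃ z ∈ blkSet D, x.unpair.1 = z.unpair.1 ∧
          y.unpair.1 = z.unpair.1 ∧ (ls x).length ≤ (ls z).length ∧
            (ls y).length ≤ (ls z).length := by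
        rcases le_total (ls x).length (ls y).length with hl | hl
        · exact ⟨y, hy, h, rfl, hl, le_rfl⟩
        · exact ⟨x, hx, rfl, h', le_rfl, hl⟩
      have e1 := (rin_iff hx hy hz h1 h2 h3 h4).1 hr
      have e2 := (rin_iff hy hx hz h2 h1 h4 h3).1 hr'
      exact irrefl hD _ _
        (hD.trans (an z) _ _ _ (pres hz h3) (pres hz h4) (pres hz h3) e1 e2)

theorem blk_trans {D : Strat} {u N K : ℕ} (hD : Good D u N K) :
    ∀ x ∈ blkSet D, ∀ y ∈ blkSet D, ∀ z ∈ blkSet D,
      blkRel D x y → blkRel D y z → blkRel D x z := by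
  intro x hx y hy z hz hxy hyz
  rcases hxy with rfl | h | ⟨h, hr⟩
  · exact hyz
  · rcases hyz with rfl | h' | ⟨h', -⟩
    · exact Or.inr (Or.inl h)
    · exact Or.inr (Or.inl (h.trans h'))
    · exact Or.inr (Or.inl (by omega))
  · rcases hyz with rfl | h' | ⟨h', hr'⟩
    · exact Or.inr (Or.inr ⟨h, hr⟩)
    · exact Or.inr (Or.inl (by omega))
    · right; right
      refine ⟨h.trans h', ?_⟩
      obtain ⟨w, hw, h1, h2, h3, l1, l2, l3⟩ : ∃ w ∈ blkSet D, x.unpair.1 = w.unpair.1 ∧
          y.unpair.1 = w.unpair.1 ∧ z.unpair.1 = w.unpair.1 ∧ (ls x).length ≤ (ls w).length ∧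
            (ls y).length ≤ (ls w).length ∧ (ls z).length ≤ (ls w).length := by
        rcases le_total (ls x).length (ls y).length with hl | hl
        · rcases le_total (ls y).length (ls z).length with hl' | hl'
          · exact ⟨z, hz, h.trans h', h', rfl, hl.trans hl', hl', le_rfl⟩
          · exact ⟨y, hy, h, rfl, h'.symm, hl, le_rfl, hl'⟩
        · rcases le_total (ls x).length (ls z).length with hl' | hl'
          · exact ⟨z, hz, h.trans h', h', rfl, hl', hl.trans hl', le_rfl⟩
          · exact ⟨x, hx, rfl, h.symm, (h.trans h').symm, le_rfl, hl, hl'⟩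
      have e1 := (rin_iff hx hy hw h1 h2 l1 l2).1 hr
      have e2 := (rin_iff hy hz hw h2 h3 l2 l3).1 hr'
      exact (rin_iff hx hz hw h1 h3 l1 l3).2
        (hD.trans (an w) _ _ _ (pres hw l1) (pres hw l2) (pres hw l3) e1 e2)

theorem blk_width {D : Strat} {u N K : ℕ} (hD : Good D u N K) (hu : 1 ≤ u) :
    ∀ A, Anti (blkSet D) (blkRel D) A → A.card ≤ u := by
  classical
  rintro A ⟨hA, hanti⟩
  rcases A.eq_empty_or_nonempty with rfl | hne
  · rw [Finset.card_empty]
    omega
  obtain ⟨z, hz, hmax⟩ := Finset.exists_max_image A (fun x => (ls x).length) hne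
  have hsame : ∀ x ∈ A, x.unpair.1 = z.unpair.1 := by
    intro x hx
    by_cases hxz : x = z
    · rw [hxz]
    · have h1 := hanti x hx z hz hxz
      have h2 := hanti z hz x hx (Ne.symm hxz)
      have h3 : ¬ x.unpair.1 < z.unpair.1 := fun h => h1 (Or.inr (Or.inl h))
      have h4 : ¬ z.unpair.1 < x.unpair.1 := fun h => h2 (Or.inr (Or.inl h))
      omega
  have hinj : Set.InjOn (fun x => (ls x).length) (A : Set ℕ) := by
    intro x hx y hy hxy
    exact eq_of_len (hA x hx) (hA y hy) ((hsame x hx).trans (hsame y hy).symm) hxy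
  rw [← Finset.card_image_of_injOn hinj]
  refine hD.width (an z) _ ?_ ?_
  · intro i hi
    obtain ⟨x, hx, rfl⟩ := Finset.mem_image.1 hi
    exact pres (hA z hz) (hmax x hx)
  · intro i hi j hj hij hlt
    obtain ⟨x, hx, rfl⟩ := Finset.mem_image.1 hi
    obtain ⟨y, hy, rfl⟩ := Finset.mem_image.1 hj
    have h1 := (rin_iff (hA x hx) (hA y hy) (hA z hz) (hsame x hx) (hsame y hy) (hmax x hx)
      (hmax y hy)).2 hlt
    refine hanti x hx y hy (fun h => hij (by rw [h])) ?_
    exact Or.inr (Or.inr ⟨(hsame x hx).trans (hsame y hy).symm, h1⟩)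

end Pool.Agent.RCD
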