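import Pool.Agent.RCD.Blk

/-!
RCD/BlkR (MP_920410_lc). The play in the block of a code which answers on all elements, two-sided
version (see RCC/BlkR for the one-sided one).

PROOF. Define lists `L n`: `L 0 = []`, `L (n+1) = L n ++ [e]` where `e` is `Nat.pair t a` with
`Hlt c (x n) e`, `x n = mk (encode c) (L n)`, if `x n ∈ blkSet D` (exists: `a` from the hypothesis,
`Nat.Partrec.Code.evaln_complete`, least stage, `evaln 0` is `none`), and `e = 0` otherwise; `a n` = the
answer in the last entry of `L (n + 1)`, so `ans (L n) = hist a n`. By induction on `n`: `Pres D a n`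
implies `x n ∈ blkSet D`. `x` is injective (`ls (x n) = L n` has length `n`), and for all `i`, `j`,
`blkRel D (x i) (x j)` and `i ≠ j` give `Lt D a i j`.
-/

set_option autoImplicit false

namespace Pool.Agent.RCD

open Nat.Partrec (Code)
open Pool.Agent.RCC (hist bits cd ls mk ans Hlt)

/-- The entry which the code `c` adds to the list `L`. -/
private noncomputable def ch (c : Code) (L : List ℕ) : ℕ := by
  classical
  exact if h : ∃ e, Hlt c (mk (Encodable.encode c) L) e then h.choose else 0

private theorem ch_spec {c : Code} {L : List ℕ} (h : ∃ e, Hlt c (mk (Encodable.encode c) L) e) :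
    Hlt c (mk (Encodable.encode c) L) (ch c L) := by
  classical
  have h1 : ch c L = h.choose := by
    unfold ch
    exact dif_pos h
  rw [h1]
  exact h.choose_spec

/-- The lists. -/
private noncomputable def Ls (c : Code) : ℕ → List ℕ
  | 0 => []
  | n + 1 => Ls c n ++ [ch c (Ls c n)]

private theorem length_Ls (c : Code) (n : ℕ) : (Ls c n).length = n := by
  induction n with
  | zero => rfl
  | succ n ih =>
    show (Ls c n ++ [ch c (Ls c n)]).length = n + 1
    rw [List.length_append, ih, List.length_singleton]

private theorem take_Ls (c : Code) {j n : ℕ} (h : j ≤ n) : (Ls c n).take j = Ls c j := by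
  induction n with
  | zero =>
    have : j = 0 := by omega
    subst this
    rfl
  | succ n ih =>
    rcases Nat.lt_or_ge n j with h1 | h1
    · have : j = n + 1 := by omega
      subst this
      exact List.take_of_length_le (length_Ls c (n + 1)).le
    · show (Ls c n ++ [ch c (Ls c n)]).take j = Ls c j
      rw [List.take_append_of_le_length (by rw [length_Ls]; exact h1), ih h1]

private theorem getD_Ls (c : Code) {j n : ℕ} (h : j < n) : (Ls c n).getD j 0 = ch c (Ls c j) := by
  induction n with
  | zero => omega
  | succ n ih =>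
    show (Ls c n ++ [ch c (Ls c n)]).getD j 0 = _
    rcases Nat.lt_or_ge j n with h1 | h1
    · rw [List.getD_append _ _ _ _ (by rw [length_Ls]; exact h1), ih h1]
    · have : j = n := by omega
      subst this
      rw [List.getD_append_right _ _ _ _ (by rw [length_Ls]), length_Ls, Nat.sub_self]
      rfl

private theorem ans_Ls (c : Code) (n : ℕ) :
    ans (Ls c n) = hist (fun k => (ch c (Ls c k)).unpair.2) n := by
  induction n with
  | zero => rfl
  | succ n ih =>
    have h1 : ans (Ls c (n + 1)) = ans (Ls c n) ++ [(ch c (Ls c n)).unpair.2] := by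
      show (Ls c n ++ [ch c (Ls c n)]).map _ = _
      rw [List.map_append]
      rfl
    rw [h1, ih]
    unfold hist
    rw [List.range_succ, List.map_append]
    rfl

private theorem exists_hlt {c : Code} {y a : ℕ} (h : a ∈ c.eval y) : ∃ e, Hlt c y e := by
  classical
  obtain ⟨k, hk⟩ := Nat.Partrec.Code.evaln_complete.1 h
  have hex : ∃ k, (c.evaln k y).isSome := ⟨k, by rw [Option.mem_def.1 hk]; rfl⟩
  obtain ⟨b, hb⟩ := Option.isSome_iff_exists.1 (Nat.find_spec hex)
  have h0 : Nat.find hex ≠ 0 := by
    intro h0
    rw [h0] at hb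
    simp [Nat.Partrec.Code.evaln] at hb
  obtain ⟨t, ht⟩ := Nat.exists_eq_succ_of_ne_zero h0
  refine ⟨Nat.pair t b, ?_, ?_⟩
  · rw [Nat.unpair_pair]
    show c.evaln (t + 1) y = some b
    rw [← hb, ht]
  · rw [Nat.unpair_pair]
    show c.evaln t y = none
    have := Nat.find_min hex (m := t) (by omega)
    rwa [Option.not_isSome_iff_eq_none] at this

theorem blk_run {D : Strat} {u N K : ℕ} (hD : Good D u N K) (c : Code)
    (hc : ∀ x ∈ blkSet D, ∃ a, a ∈ c.eval x ∧ a < K) :
    ∃ a x : ℕ → ℕ, (∀ n, Pres D a n → x n ∈ blkSet D ∧ a n ∈ c.eval (x n)) ∧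
      ∀ i j, i < j → Pres D a j → ¬ Lt D a i j → ¬ Lt D a j i →
        x i ≠ x j ∧ ¬ blkRel D (x i) (x j) ∧ ¬ blkRel D (x j) (x i) := by
  have hunp : ∀ L, (mk (Encodable.encode c) L).unpair.1 = Encodable.encode c := fun L =>
    Pool.Agent.RCC.unpair_mk_fst _ L
  have hls : ∀ L, ls (mk (Encodable.encode c) L) = L := fun L => Pool.Agent.RCC.ls_mk _ L
  have hcd : ∀ L, cd (mk (Encodable.encode c) L) = c := by
    intro L
    unfold Pool.Agent.RCC.cd
    rw [hunp, Denumerable.ofNat_encode]
  set a : ℕ → ℕ := fun k => (ch c (Ls c k)).unpair.2 with ha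
  have hmem : ∀ n, Pres D a n → mk (Encodable.encode c) (Ls c n) ∈ blkSet D := by
    intro n
    induction n using Nat.strong_induction_on with
    | _ n ih =>
      intro hn
      refine ⟨?_, ?_⟩
      · rw [hls, length_Ls]
        intro j hj
        rw [take_Ls c hj, ans_Ls]
        exact hn j hj
      · rw [hls, length_Ls, hcd, hunp]
        intro j hj
        rw [take_Ls c hj.le, getD_Ls c hj]
        obtain ⟨b, hb, -⟩ := hc _ (ih j hj fun i hi => hn i (hi.trans hj.le))
        exact ch_spec (exists_hlt hb)
  refine ⟨a, fun n => mk (Encodable.encode c) (Ls c n), fun n hn => ⟨hmem n hn, ?_⟩, ?_⟩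
  · obtain ⟨b, hb, -⟩ := hc _ (hmem n hn)
    have h1 := (ch_spec (exists_hlt hb)).1
    exact Nat.Partrec.Code.evaln_sound (Option.mem_def.2 h1)
  · intro i j hij hj h1 h2
    have hne : mk (Encodable.encode c) (Ls c i) ≠ mk (Encodable.encode c) (Ls c j) := by
      intro h
      have h3 := congrArg (fun x => (ls x).length) h
      simp only [hls, length_Ls] at h3
      omega
    refine ⟨hne, ?_, ?_⟩
    · rintro (h | h | ⟨-, h⟩)
      · exact hne h
      · rw [hunp, hunp] at h
        omega
      · rw [hls, hls, length_Ls, length_Ls, ans_Ls, ans_Ls] at h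
        exact h1 h
    · rintro (h | h | ⟨-, h⟩)
      · exact hne h.symm
      · rw [hunp, hunp] at h
        omega
      · rw [hls, hls, length_Ls, length_Ls, ans_Ls, ans_Ls] at h
        exact h2 h

end Pool.Agent.RCD
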