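import Pool.Agent.RCC.Defs

/-!
RCD/Defs (MP_920410_lc). Two-sided abstract plays: a new element may be put below old ones.
-/

set_option autoImplicit false

namespace Pool.Agent.RCD

open Pool.Agent.RCC (hist bits)

/-- A strategy: for a list of answers (numbers) it tells whether there is a further element and if so
which of the previous elements (numbered `0, 1, 2, ...`) are below it and which ones are above it. -/
abbrev Strat := List ℕ → Option (Finset ℕ × Finset ℕ)

/-- Element number `n` exists if the answers are `a 0, a 1, ...`. -/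
def Pres (D : Strat) (a : ℕ → ℕ) (n : ℕ) : Prop := ∀ j ≤ n, (D (hist a j)).isSome

/-- Element `i` is below element `j`. -/
def Lt (D : Strat) (a : ℕ → ℕ) (i j : ℕ) : Prop :=
  (∃ p, D (hist a j) = some p ∧ i ∈ p.1) ∨ ∃ p, D (hist a i) = some p ∧ j ∈ p.2

/-- All elements presented by the strategy `D`, for all answers, form a partial order of width at
most `u`; there are at most `N` of them and the answers are smaller than `K`. -/
structure Good (D : Strat) (u N K : ℕ) : Prop where
  len : ∀ L, (D L).isSome → L.length < N ∧ ∀ x ∈ L, x < K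
  pre : ∀ L x, (D (L ++ [x])).isSome → (D L).isSome
  down : ∀ L p, D L = some p → (∀ i ∈ p.1, i < L.length) ∧ ∀ i ∈ p.2, i < L.length
  trans : ∀ a i j l, Pres D a i → Pres D a j → Pres D a l → Lt D a i j → Lt D a j l → Lt D a i l
  width : ∀ a, ∀ A : Finset ℕ, (∀ i ∈ A, Pres D a i) →
    (∀ i ∈ A, ∀ j ∈ A, i ≠ j → ¬ Lt D a i j) → A.card ≤ u

end Pool.Agent.RCD
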