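import Pool.Agent.RCD.Pos2
import Pool.Agent.RCD.Defs

/-!
RCD/Tree2 (MP_920410_lc). From the forcing relation `Frc2` to a strategy with bounded domain. Copy
of RCC/Tree.lean. The entry number `j` of the position `run k E a n` is
`(code p.1 p.2, bits k (a j))` with `p = (E (hist a j)).getD (∅, ∅)`; `Lt E a i j` (for present
elements) is `lt (run k E a n) i j` by `mem_code_even`, `mem_code_odd` and `down`;
`Ok u s S` becomes `Slot u 1 s p.1 p.2`, `LegX` becomes `LegX2`, `ord_snoc` becomes `ord2_snoc`.
-/

set_option autoImplicit false

namespace Pool.Agent.RCD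

open Pool.Agent.RCC (Pos dn cl cols dn_append_lt cl_append_lt dn_last cl_last hist bits)

/-- The elements below and above element `j`. -/
def ent (E : Strat) (a : ℕ → ℕ) (j : ℕ) : Finset ℕ × Finset ℕ := (E (hist a j)).getD (∅, ∅)

/-- The first `n` elements presented by `E` for the answers `a`. -/
def run (k : ℕ) (E : Strat) (a : ℕ → ℕ) (n : ℕ) : Pos :=
  (List.range n).map fun j => (code (ent E a j).1 (ent E a j).2, bits k (a j))

theorem run_length (k : ℕ) (E : Strat) (a : ℕ → ℕ) (n : ℕ) : (run k E a n).length = n := by
  simp [run]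

theorem run_succ (k : ℕ) (E : Strat) (a : ℕ → ℕ) (n : ℕ) :
    run k E a (n + 1) = run k E a n ++ [(code (ent E a n).1 (ent E a n).2, bits k (a n))] := by
  simp [run, List.range_succ]

theorem run_getD (k : ℕ) (E : Strat) (a : ℕ → ℕ) {n j : ℕ} (hj : j < n) :
    (run k E a n).getD j (∅, ∅) = (code (ent E a j).1 (ent E a j).2, bits k (a j)) := by
  have h1 : j < (run k E a n).length := by rw [run_length]; exact hj
  rw [List.getD_eq_getElem _ _ h1]
  simp [run]

theorem dn_run (k : ℕ) (E : Strat) (a : ℕ → ℕ) {n j : ℕ} (hj : j < n) :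
    dn (run k E a n) j = code (ent E a j).1 (ent E a j).2 := by
  unfold dn
  rw [run_getD k E a hj]

theorem cl_run (k : ℕ) (E : Strat) (a : ℕ → ℕ) {n j : ℕ} (hj : j < n) :
    cl (run k E a n) j = bits k (a j) := by
  unfold cl
  rw [run_getD k E a hj]

private theorem hist_length (a : ℕ → ℕ) (n : ℕ) : (hist a n).length = n := by simp [hist]

private theorem hist_cons (a : ℕ → ℕ) (n : ℕ) :
    hist a (n + 1) = a 0 :: hist (fun i => a (i + 1)) n := by
  simp [hist, List.range_succ_eq_map, Function.comp_def]

private theorem hist_getD (L : List ℕ) : hist (fun i => L.getD i 0) L.length = L := by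
  apply List.ext_getElem
  · simp [hist]
  · intro i h1 h2
    simp [hist, List.getElem?_eq_getElem h2]

theorem lt_iff (D : Strat) (a : ℕ → ℕ) (i j : ℕ) :
    Lt D a i j ↔ i ∈ (ent D a j).1 ∨ j ∈ (ent D a i).2 := by
  unfold Lt ent
  refine or_congr ?_ ?_
  · cases h : D (hist a j) with
    | none => simp
    | some S => simp
  · cases h : D (hist a i) with
    | none => simp
    | some S => simp

/-- `E` is a strategy for the position `s`. -/
structure Val (u m k : ℕ) (Φ : Pos → Prop) (s : Pos) (E : Strat) (N : ℕ) : Prop where
  len : ∀ L, (E L).isSome → L.length < N ∧ ∀ x ∈ L, x < 2 ^ k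
  pre : ∀ L x, (E (L ++ [x])).isSome → (E L).isSome
  ok : ∀ a n p, E (hist a n) = some p → Slot u 1 (s ++ run k E a n) p.1 p.2
  win : ∀ a n, E (hist a n) = none →
    (∀ j < n, ∃ p, E (hist a j) = some p ∧ a j < 2 ^ k ∧
      LegX2 m k (s ++ run k E a j) p.1 p.2 (bits k (a j))) → Φ (s ++ run k E a n)

open Classical in
/-- The strategy which presents an element above `B` and below `A` first and continues with
`E (bits k a)` after the answer `a`, if this is legal. -/
noncomputable def glue (m k : ℕ) (s : Pos) (B A : Finset ℕ) (E : Finset ℕ → Strat) : Strat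
  | [] => some (B, A)
  | a :: L => if a < 2 ^ k ∧ LegX2 m k s B A (bits k a) then E (bits k a) L else none

theorem run_glue {m k : ℕ} {s : Pos} {B A : Finset ℕ} {E : Finset ℕ → Strat} {a : ℕ → ℕ}
    (ha : a 0 < 2 ^ k ∧ LegX2 m k s B A (bits k (a 0))) (n : ℕ) :
    s ++ run k (glue m k s B A E) a (n + 1) =
      (s ++ [(code B A, bits k (a 0))]) ++
        run k (E (bits k (a 0))) (fun i => a (i + 1)) n := by
  rw [List.append_assoc]
  refine congrArg (s ++ ·) ?_
  unfold run
  rw [List.range_succ_eq_map, List.map_cons, List.map_map, List.singleton_append]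
  refine congrArg₂ List.cons ?_ (List.map_congr_left fun j _ => ?_)
  · simp [hist, glue, ent]
  · simp only [Function.comp_apply, Nat.succ_eq_add_one, ent, hist_cons, glue, if_pos ha]

theorem exists_val {u m k : ℕ} {Φ : Pos → Prop} {s : Pos} (h : Frc2 u m k Φ s) :
    ∃ (E : Strat) (N : ℕ), Val u m k Φ s E N := by
  induction h with
  | done s hs =>
    refine ⟨fun _ => none, 0, ⟨by simp, by simp, by simp, ?_⟩⟩
    intro a n _ hn
    cases n with
    | zero => simpa [run] using hs
    | succ n =>
      obtain ⟨S, hS, _⟩ := hn 0 (Nat.succ_pos n)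
      exact absurd hS (by simp)
  | step s B A hok _ ih =>
    have ih' : ∀ X, ∃ (E : Strat) (N : ℕ), LegX2 m k s B A X →
        Val u m k Φ (s ++ [(code B A, X)]) E N := by
      intro X
      by_cases hX : LegX2 m k s B A X
      · obtain ⟨E, N, hE⟩ := ih X hX
        exact ⟨E, N, fun _ => hE⟩
      · exact ⟨fun _ => none, 0, fun h => absurd h hX⟩
    choose E N hV using ih'
    refine ⟨glue m k s B A E, 1 + ∑ x ∈ Finset.range (2 ^ k), N (bits k x), ⟨?_, ?_, ?_, ?_⟩⟩
    · intro L hL
      cases L with
      | nil => exact ⟨by simp, by simp⟩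
      | cons x L =>
        by_cases hx : x < 2 ^ k ∧ LegX2 m k s B A (bits k x)
        · simp only [glue, if_pos hx] at hL
          obtain ⟨h1, h2⟩ := (hV _ hx.2).len L hL
          have h3 : N (bits k x) ≤ ∑ x ∈ Finset.range (2 ^ k), N (bits k x) :=
            Finset.single_le_sum (f := fun x => N (bits k x)) (fun _ _ => Nat.zero_le _)
              (Finset.mem_range.2 hx.1)
          refine ⟨?_, ?_⟩
          · rw [List.length_cons]
            omega
          · intro y hy
            rcases List.mem_cons.1 hy with rfl | hy
            · exact hx.1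
            · exact h2 y hy
        · simp [glue, if_neg hx] at hL
    · intro L x hL
      cases L with
      | nil => simp [glue]
      | cons y L =>
        by_cases hy : y < 2 ^ k ∧ LegX2 m k s B A (bits k y)
        · simp only [List.cons_append, glue, if_pos hy] at hL ⊢
          exact (hV _ hy.2).pre L x hL
        · simp [glue, if_neg hy] at hL
    · intro a n p hp
      cases n with
      | zero =>
        have h1 : (B, A) = p := by simpa [hist, glue] using hp
        subst h1
        simpa [run] using hok
      | succ n =>
        rw [hist_cons] at hp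
        by_cases hy : a 0 < 2 ^ k ∧ LegX2 m k s B A (bits k (a 0))
        · simp only [glue, if_pos hy] at hp
          rw [run_glue hy]
          exact (hV _ hy.2).ok _ _ _ hp
        · simp [glue, if_neg hy] at hp
    · intro a n hn hall
      cases n with
      | zero => simp [hist, glue] at hn
      | succ n =>
        have hy : a 0 < 2 ^ k ∧ LegX2 m k s B A (bits k (a 0)) := by
          obtain ⟨p, h1, h2, h3⟩ := hall 0 (Nat.succ_pos n)
          have h4 : (B, A) = p := by simpa [hist, glue] using h1
          subst h4
          exact ⟨h2, by simpa [run] using h3⟩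
        rw [hist_cons] at hn
        simp only [glue, if_pos hy] at hn
        rw [run_glue hy]
        refine (hV _ hy.2).win _ _ hn fun j hj => ?_
        obtain ⟨p, h1, h2, h3⟩ := hall (j + 1) (by omega)
        rw [hist_cons] at h1
        simp only [glue, if_pos hy] at h1
        rw [run_glue hy] at h3
        exact ⟨p, h1, h2, h3⟩

theorem strat_of_frc2 (u m k : ℕ) (R : Prop) (Φ : Pos → Prop) (hΦ : ∀ s, Φ s → R)
    (h : Frc2 u m k Φ []) :
    ∃ (D : Strat) (N : ℕ), Good D u N (2 ^ k) ∧
      ∀ a : ℕ → ℕ, (∀ n, Pres D a n → a n < 2 ^ k ∧ m ≤ (bits k (a n)).card) →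
        (∀ i j, i < j → Pres D a j → ¬ Lt D a i j → ¬ Lt D a j i →
          Disjoint (bits k (a i)) (bits k (a j))) → R := by
  obtain ⟨D, N, hD⟩ := exists_val h
  have hdown : ∀ a n p, D (hist a n) = some p → (∀ i ∈ p.1, i < n) ∧ ∀ i ∈ p.2, i < n := by
    intro a n p hp
    have h1 := hD.ok a n p hp
    rw [List.nil_append] at h1
    refine ⟨fun i hi => ?_, fun i hi => ?_⟩
    · have h2 := h1.ltB i hi
      rwa [run_length] at h2
    · have h2 := h1.ltA i hi
      rwa [run_length] at h2
  have hent : ∀ a n, (∀ i ∈ (ent D a n).1, i < n) ∧ ∀ i ∈ (ent D a n).2, i < n := by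
    intro a n
    unfold ent
    cases h1 : D (hist a n) with
    | none => simp
    | some p => exact hdown a n p h1
  have hlt : ∀ a n i j, i < n → j < n → (lt (run k D a n) i j ↔ Lt D a i j) := by
    intro a n i j hi hj
    rw [lt_iff]
    unfold lt
    rw [dn_run k D a hi, dn_run k D a hj, mem_code_even, mem_code_odd]
    exact or_congr ⟨fun h => h.2, fun h => ⟨(hent a j).1 i h, h⟩⟩
      ⟨fun h => h.2, fun h => ⟨(hent a i).2 j h, h⟩⟩
  have hord : ∀ (a : ℕ → ℕ) (n : ℕ), (∀ j < n, (D (hist a j)).isSome) → Ord2 u (run k D a n) := by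
    intro a n
    induction n with
    | zero =>
      intro _
      refine ⟨by simp [run], by simp [run], fun A hA => ?_⟩
      have h1 : A = ∅ := by
        refine Finset.eq_empty_of_forall_notMem fun i hi => ?_
        have := hA.1 i hi
        simp [run] at this
      simp [h1]
    | succ n ih =>
      intro hn
      obtain ⟨p, hp⟩ := Option.isSome_iff_exists.1 (hn n (Nat.lt_succ_self n))
      have hep : ent D a n = p := by
        unfold ent
        rw [hp]
        rfl
      rw [run_succ, hep]
      have h1 := hD.ok a n p hp
      rw [List.nil_append] at h1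
      exact ord2_snoc le_rfl (ih fun j hj => hn j (by omega)) h1 _
  refine ⟨D, N, ⟨hD.len, hD.pre, ?_, ?_, ?_⟩, ?_⟩
  · intro L p hL
    exact hdown (fun i => L.getD i 0) L.length p (by rw [hist_getD]; exact hL)
  · intro a i j l hi hj hl hij hjl
    set n := max i (max j l) + 1 with hn
    have h1 := hord a n fun t ht => by
      rcases le_or_gt t i with h | h
      · exact hi t h
      rcases le_or_gt t j with h' | h'
      · exact hj t h'
      · exact hl t (by omega)
    have hi' : i < n := by omega
    have hj' : j < n := by omega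
    have hl' : l < n := by omega
    rw [← hlt a n i j hi' hj'] at hij
    rw [← hlt a n j l hj' hl'] at hjl
    rw [← hlt a n i l hi' hl']
    exact h1.trans i (by rw [run_length]; exact hi') j (by rw [run_length]; exact hj') l
      (by rw [run_length]; exact hl') hij hjl
  · intro a A hA hAA
    rcases A.eq_empty_or_nonempty with rfl | hne
    · simp
    · have hM := A.max'_mem hne
      have hle : ∀ i ∈ A, i < A.max' hne + 1 := fun i hi => by
        have := A.le_max' i hi
        omega
      set M := A.max' hne with hMdef
      have h1 := hord a (M + 1) fun t ht => hA M hM t (by omega)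
      refine h1.width A ⟨fun i hi => ?_, fun i hi j hj => ?_⟩
      · rw [run_length]
        exact hle i hi
      · by_cases hij : i = j
        · subst hij
          exact lt_irrefl _ _
        · rw [hlt a (M + 1) i j (hle i hi) (hle j hj)]
          exact hAA i hi j hj hij
  · intro a h1 h2
    have hex : ∃ n, D (hist a n) = none := by
      refine ⟨N, ?_⟩
      by_contra hcon
      have h3 := (hD.len (hist a N) (Option.isSome_iff_ne_none.2 hcon)).1
      rw [hist_length] at h3
      omega
    classical
    have hpres : ∀ j < Nat.find hex, Pres D a j := by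
      intro j hj i hi
      exact Option.isSome_iff_ne_none.2 (Nat.find_min hex (lt_of_le_of_lt hi hj))
    have h3 := hD.win a (Nat.find hex) (Nat.find_spec hex) fun j hj => by
      obtain ⟨p, hp⟩ := Option.isSome_iff_exists.1 (hpres j hj j le_rfl)
      refine ⟨p, hp, (h1 j (hpres j hj)).1, Finset.filter_subset _ _, (h1 j (hpres j hj)).2, ?_⟩
      intro i hi hiB hiA
      rw [List.nil_append, run_length] at hi
      rw [List.nil_append, cl_run k D a hi]
      have hep : ent D a j = p := by
        unfold ent
        rw [hp]
        rfl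
      refine h2 i j hi (hpres j hj) ?_ ?_
      · rw [lt_iff, hep]
        rintro (h4 | h4)
        · exact hiB h4
        · have := (hent a i).2 j h4
          omega
      · rw [lt_iff, hep]
        rintro (h4 | h4)
        · have := (hent a i).1 j h4
          omega
        · exact hiA h4
    exact hΦ _ h3

end Pool.Agent.RCD
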