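import Pool.Agent.RCC.Ext
import Pool.Agent.RCC.Final
import Pool.Agent.RCD.BlkC
import Pool.Agent.RCD.BlkO
import Pool.Agent.RCD.BlkR
import Pool.Agent.RCD.Tree2

/-!
RCD/Core (MP_920410_lc). If the first player can force `K` colours in the m-fold two-sided game of
width `u`, where `m = l + 1` and `Cov v l` fails, then `Cov (u * v) k` implies `K ≤ k`.
-/

set_option autoImplicit false

namespace Pool.Agent.RCD

open Pool.Agent.RCC (hist bits RecOrd Anti HasWidth RecChain Covered Cov CovLe covLe_of_cov lexSet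
  lexRel lex_recOrd lex_width exists_code b b_le le_b cov_mono b_mono)

theorem core2 {u v k l K : ℕ} (hu : 1 ≤ u) (hF : Frc2 u (l + 1) k (fun _ => K ≤ k) [])
    (hk : Cov (u * v) k) (hl : ¬ Cov v l) : K ≤ k := by
  classical
  unfold Cov at hl
  push Not at hl
  obtain ⟨Q, rQ, hQ, hQw, hQn⟩ := hl
  obtain ⟨D, N, hD, hcol⟩ := strat_of_frc2 u (l + 1) k (K ≤ k) _ (fun _ h => h) hF
  have hP : RecOrd (blkSet D) (blkRel D) :=
    ⟨blk_dom hD, blk_rel hD, fun x _ => Or.inl rfl, blk_antisymm hD, blk_trans hD⟩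
  obtain ⟨C, hC, hcov⟩ := covLe_of_cov hk _ _ (lex_recOrd hP hQ)
    (lex_width hP hQ (blk_width hD hu) hQw.2)
  obtain ⟨c, hc⟩ := exists_code hQ hQn C hC hcov
  obtain ⟨a, x, h1, h2⟩ := blk_run hD c fun x hx => by
    obtain ⟨a, h1, h2, _⟩ := hc x hx
    exact ⟨a, h1, h2⟩
  have h3 : ∀ n, Pres D a n → a n < 2 ^ k ∧ l + 1 ≤ (bits k (a n)).card ∧
      ∀ i ∈ bits k (a n), ∃ hi : i < k, ∃ q ∈ Q, Nat.pair (x n) q ∈ C ⟨i, hi⟩ := by
    intro n hn
    obtain ⟨h4, h5⟩ := h1 n hn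
    obtain ⟨a', h6, h7, h8, h9⟩ := hc (x n) h4
    have h10 : a n = a' := Part.mem_unique h5 h6
    rw [h10]
    exact ⟨h7, h8, h9⟩
  refine hcol a (fun n hn => ⟨(h3 n hn).1, (h3 n hn).2.1⟩) fun i j hij hj hlt hlt' => ?_
  rw [Finset.disjoint_left]
  intro t ht ht'
  have hi : Pres D a i := fun j' hj' => hj j' (hj'.trans hij.le)
  obtain ⟨hk1, q, _, hq⟩ := (h3 i hi).2.2 t ht
  obtain ⟨hk2, q', _, hq'⟩ := (h3 j hj).2.2 t ht'
  obtain ⟨h4, h5, h6⟩ := h2 i j hij hj hlt hlt'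
  rcases (hC ⟨t, hk1⟩).chain _ hq _ hq' with h | h
  · unfold lexRel at h
    simp only [Nat.unpair_pair] at h
    rcases h with h | h
    · exact h4 h.1
    · exact h5 h.2
  · unfold lexRel at h
    simp only [Nat.unpair_pair] at h
    rcases h with h | h
    · exact h4 h.1.symm
    · exact h6 h.2

end Pool.Agent.RCD
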