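import Pool.Agent.RCD.BTwoP
import Pool.Agent.RCD.BTwoS
import Pool.Agent.RCD.BTwoC
import Pool.Agent.RCD.Core

/-!
RCD/BTwo (MP_920410_lc). `b 2 ≥ 5` (known, Kierstead 1981), as an input for `b w ≥ (5/4 - o(1)) w²`.
-/

set_option autoImplicit false

namespace Pool.Agent.RCD

open Pool.Agent.RCC (Pos dn cl cols dn_append_lt cl_append_lt dn_last cl_last hist bits RecOrd Anti
  HasWidth RecChain Covered Cov b b_le le_b)

/-- In the game of width two with four colours the first player wins. -/
theorem frc_two : Frc2 2 1 4 (fun _ => False) [] := by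
  refine (spine (4 * (65536 + 1))).bind fun s hs => ?_
  obtain ⟨hlen, hsp, hcl⟩ := hs
  obtain ⟨κ, hκ, g, g1, g2, g3⟩ := cuts 65536 s hcl
  refine sound (4 * (65536 + 1)) 65536 κ g tree St.zero s (fun _ => 0) ?_ chk_tree
  exact ⟨hlen, hsp, g1, g2, g3, fun j hj => absurd hj (Nat.not_lt_zero j),
    fun i _ j hj => absurd hj (Nat.not_lt_zero j), fun i _ j hj => absurd hj (Nat.not_lt_zero j),
    fun i hi => absurd hi (Nat.not_lt_zero i), fun j hj => absurd hj (Nat.not_lt_zero j),
    Nat.zero_le 3, hκ, fun i hi => absurd hi (Nat.not_lt_zero i)⟩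

/-- Fewer colours. -/
theorem frc_fewer {u m k k' : ℕ} (hk : k' ≤ k) {s : Pos} (h : Frc2 u m k (fun _ => False) s) :
    Frc2 u m k' (fun _ => False) s := by
  induction h with
  | done s hs => exact absurd hs id
  | step s B A hS _ ih =>
    refine Frc2.step s B A hS fun X hX => ih X ⟨hX.1.trans ?_, hX.2⟩
    exact Finset.range_subset_range.2 hk

theorem not_cov_one : ¬ Cov 1 0 := by
  intro h
  have h1 : RecOrd Set.univ fun x y : ℕ => x ≤ y := by
    refine ⟨?_, ?_, fun x _ => le_rfl, fun x _ y _ h1 h2 => le_antisymm h1 h2,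
      fun x _ y _ z _ h1 h2 => le_trans h1 h2⟩
    · rw [ComputablePred.computable_iff]
      exact ⟨fun _ => true, Computable.const true, by simp⟩
    · rw [ComputablePred.computable_iff]
      obtain ⟨g, hg, hg'⟩ := ComputablePred.computable_iff.1 (Primrec.nat_le.computablePred)
      refine ⟨g, hg, ?_⟩
      rw [← hg']
      simp
  obtain ⟨C, _, hC⟩ := h Set.univ (fun x y : ℕ => x ≤ y) h1 ⟨⟨{0}, ⟨fun _ _ => trivial, by simp⟩,
    rfl⟩, fun A hA => by
      rw [Finset.card_le_one]
      intro x hx y hy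
      by_contra hxy
      rcases le_total x y with h2 | h2
      · exact hA.2 x hx y hy hxy h2
      · exact hA.2 y hy x hx (Ne.symm hxy) h2⟩
  obtain ⟨i, _⟩ := hC 0 trivial
  exact i.elim0

/-- `b 2 ≥ 5`. -/
theorem five_le_b_two : (5 : ℕ∞) ≤ b 2 := by
  refine le_b fun k hk => ?_
  by_contra hcon
  have h4 : k ≤ 4 := by
    rw [not_le] at hcon
    have : k < 5 := by exact_mod_cast hcon
    omega
  have h5 : 5 ≤ k := by
    refine core2 (u := 2) (v := 1) (l := 0) (by norm_num) ?_ hk not_cov_one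
    exact (frc_fewer h4 frc_two).bind fun s hs => absurd hs id
  omega

end Pool.Agent.RCD
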