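import Pool.Agent.RCD.Pos2

/-!
RCD/BTwoD (MP_920410_lc). A winning tree for the two-sided game of width two and a checker for
such trees. The game starts with a chain (the spine) cut into blocks, each with an element of colour
`κ`; a new element comes with two cuts `a < b`: it is incomparable to the elements between them,
above the elements before `a` and below the elements after `b`. The other colours are called `0`,
`1`, `2` in the order in which they turn up.
-/

set_option autoImplicit false

namespace Pool.Agent.RCD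

/-- Trees of moves: the cuts, the set of the new elements below, the set of the new elements above
(as binary numbers), the subtrees for the three names of colours. -/
inductive WT : Type
  | no : WT
  | win (a b D U : ℕ) : WT
  | mv (a b D U : ℕ) (t0 t1 t2 : WT) : WT

/-- All numbers below `n`. -/
def allLt (p : ℕ → Bool) : ℕ → Bool
  | 0 => true
  | n + 1 => p n && allLt p n

/-- The number of new elements, their cuts, their order, their colours, the number of colours. -/
structure St where
  n : ℕ
  a : ℕ → ℕ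
  b : ℕ → ℕ
  L : ℕ → ℕ → Bool
  c : ℕ → ℕ
  f : ℕ

/-- The first state. -/
def St.zero : St := ⟨0, fun _ => 0, fun _ => 0, fun _ _ => false, fun _ => 0, 0⟩

/-- A new element. -/
def St.add (s : St) (a b : ℕ) (d u : ℕ → Bool) (c : ℕ) : St where
  n := s.n + 1
  a := fun j => bif Nat.beq j s.n then a else s.a j
  b := fun j => bif Nat.beq j s.n then b else s.b j
  L := fun i j => bif Nat.beq j s.n then (d i && Nat.blt i s.n) else
    bif Nat.beq i s.n then u j else s.L i j
  c := fun j => bif Nat.beq j s.n then c else s.c j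
  f := bif Nat.beq c s.f then s.f + 1 else s.f

/-- The condition for one old element. -/
def okOne (s : St) (a b : ℕ) (d u : ℕ → Bool) (i : ℕ) : Bool :=
  (bif d i then (Nat.ble (s.a i) a && Nat.ble (s.b i) b) else Nat.ble a (s.b i)) &&
  (bif u i then (Nat.ble a (s.a i) && Nat.ble b (s.b i)) else Nat.ble (s.a i) b) &&
  (d i || u i || Nat.ble (s.b i) a || Nat.ble b (s.a i))

/-- The condition for two old elements. -/
def okTwo (s : St) (d u : ℕ → Bool) (i j : ℕ) : Bool :=
  (!(d i && !(d j)) || !(s.L j i)) && (!(u i && !(u j)) || !(s.L i j)) &&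
  (!(d i && u j) || s.L i j) &&
  (d i || u i || d j || u j || Nat.beq i j || s.L i j || s.L j i)

/-- The new element is put into a slot. -/
def slotOk (M : ℕ) (s : St) (a b : ℕ) (d u : ℕ → Bool) : Bool :=
  Nat.blt a b && Nat.ble b M &&
    allLt (fun i => okOne s a b d u i && allLt (fun j => okTwo s d u i j) s.n) s.n

/-- The colour `c` may not be given to the new element. -/
def blocked (s : St) (d u : ℕ → Bool) (c : ℕ) : Bool :=
  !(allLt (fun i => d i || u i || !(Nat.beq (s.c i) c)) s.n)

/-- The checker. -/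
def chk (M : ℕ) : WT → St → Bool
  | .no, _ => false
  | .win a b D U, s =>
    slotOk M s a b (Nat.testBit D) (Nat.testBit U) &&
      blocked s (Nat.testBit D) (Nat.testBit U) 0 && blocked s (Nat.testBit D) (Nat.testBit U) 1 &&
      blocked s (Nat.testBit D) (Nat.testBit U) 2
  | .mv a b D U t0 t1 t2, s =>
    slotOk M s a b (Nat.testBit D) (Nat.testBit U) &&
      (blocked s (Nat.testBit D) (Nat.testBit U) 0 ||
        chk M t0 (s.add a b (Nat.testBit D) (Nat.testBit U) 0)) &&
      (blocked s (Nat.testBit D) (Nat.testBit U) 1 || Nat.blt s.f 1 ||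
        chk M t1 (s.add a b (Nat.testBit D) (Nat.testBit U) 1)) &&
      (blocked s (Nat.testBit D) (Nat.testBit U) 2 || Nat.blt s.f 2 ||
        chk M t2 (s.add a b (Nat.testBit D) (Nat.testBit U) 2))

/-- The winning tree. -/
def tree : WT :=
  (.mv 21845 43691 0 0 (.mv 7281 14563 0 1 (.mv 2426 4853 0 3 (.mv 808 1617 0 7 (.mv 1617 4853
    0 7 .no (.mv 4853 6067 8 3 .no .no (.mv 7281 21845 62 0 .no (.win 6067 7281 28 1) (.win
    4853 7281 40 1))) .no) (.mv 2021 2426 8 3 .no (.mv 1617 2426 0 19 .no .no (.win 2426 7281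
    12 1)) (.mv 1751 1886 8 23 (.mv 1751 2426 40 19 .no (.win 2426 7281 44 1) (.win 1617 1751 0
    23)) (.mv 1617 1886 0 55 (.win 1886 2021 8 7) .no (.win 1886 2426 8 19)) (.mv 1886 2426 8
    19 .no (.win 2426 7281 44 1) .no))) .no) (.mv 6067 7281 4 1 .no (.mv 4853 7281 0 9 .no .no
    (.win 7281 21845 6 0)) (.mv 5257 5662 4 11 (.mv 5257 7281 20 9 .no (.win 7281 21845 22 0)
    (.win 4853 5257 0 11)) (.mv 4853 5662 0 27 (.win 5662 6067 4 3) .no (.win 5662 7281 4 9))
    (.mv 5662 7281 4 9 .no (.win 7281 21845 22 0) .no))) .no) (.mv 2426 4853 0 3 (.mv 808 1617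
    0 7 (.mv 1617 4853 0 7 .no (.mv 4853 14563 8 3 .no .no (.win 14563 21845 28 0)) (.win 4853
    7281 8 1)) (.mv 1886 2156 8 7 (.mv 2156 4853 8 7 .no (.mv 4853 14563 24 3 .no .no (.win
    14563 21845 60 0)) (.win 4853 7281 24 1)) (.mv 1617 2156 0 23 (.mv 2156 4853 8 7 .no .no
    (.win 4853 7281 56 1)) .no (.win 2156 2426 8 3)) (.mv 1886 4853 24 7 (.win 1617 1886 0 7)
    (.mv 4853 14563 24 3 .no .no (.win 14563 21845 60 0)) (.win 4853 7281 24 1))) (.mv 1886
    2156 8 7 (.mv 2156 4853 8 7 .no (.mv 4853 14563 24 3 .no .no (.win 14563 21845 60 0)) (.win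
    4853 7281 24 1)) (.mv 1886 4853 24 7 (.win 1617 1886 0 7) (.mv 4853 14563 24 3 .no .no
    (.win 14563 21845 60 0)) (.win 4853 7281 24 1)) (.mv 1617 2156 0 23 (.mv 4853 14563 56 3
    .no (.win 2156 4853 8 7) (.win 14563 21845 60 0)) (.win 2156 2426 8 3) .no))) (.mv 14563
    18204 4 1 (.mv 4853 14563 0 3 .no .no (.win 14563 21845 12 0)) .no (.mv 19417 20631 14 1
    (.mv 19417 21845 30 0 .no (.win 18204 19417 6 1) (.win 14563 19417 12 1)) (.mv 14563 20631
    12 17 (.win 4853 14563 0 19) .no (.win 20631 21845 14 0)) (.mv 4853 14563 0 19 (.win 14563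
    19417 12 1) .no .no))) (.mv 1212 2426 0 3 (.mv 16990 19417 14 1 (.mv 2426 7281 4 17 .no .no
    (.mv 16990 21845 62 0 .no (.win 7281 16990 14 1) (.win 14563 16990 44 1))) (.mv 7281 16990
    14 1 (.win 4853 7281 8 17) .no (.win 2426 7281 4 17)) (.mv 7281 19417 14 17 (.win 4853 7281
    8 17) (.win 19417 21845 14 0) (.win 2426 7281 4 17))) (.mv 14563 18204 12 1 (.mv 2426 14563
    4 3 .no .no (.win 14563 21845 28 0)) .no (.mv 19417 20631 30 1 (.mv 19417 21845 62 0 .no
    (.win 18204 19417 14 1) (.win 14563 19417 28 1)) (.mv 14563 20631 28 33 (.win 2426 14563 4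
    35) .no (.win 20631 21845 30 0)) (.mv 2426 14563 4 35 (.win 14563 19417 28 1) .no .no)))
    .no)) .no) .no .no)

theorem chk_tree : chk 65536 tree St.zero = true := by
  decide +kernel

end Pool.Agent.RCD
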