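import Pool.Agent.RCD.Lim

/-!
RCD/Expl (MP_920410_lc). The explicit form of the lower bound: for `v, w ≥ 1`,
`(1 - 5 √(v / w)) * (b v / v ^ 2) ≤ b w / w ^ 2`. With `u = w / v` (rounded down) `b w ≥ F u * b v`, `w / v < u + 1` and
`F u ≥ u ^ 2 - 3 u √u ≥ (1 - 5 / √(u + 1)) (u + 1) ^ 2`.
-/

set_option autoImplicit false

namespace Pool.Agent.RCD

open Filter Topology
open scoped ENNReal
open Pool.Agent.RCC (b)

theorem q_step {u v w : ℕ} (hu : 1 ≤ u) (hv : 1 ≤ v) (h3 : u * v ≤ w) (h4 : w ≤ (u + 1) * v) {d : ℝ}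
    (hd : d * ((u : ℝ) + 1) ^ 2 ≤ F u) : ENNReal.ofReal d * q v ≤ q w := by
  have hw0 : w ≠ 0 := by
    have : 1 ≤ u * v := Nat.mul_pos (by omega) hv
    omega
  have h5 : ((F u : ℕ) : ℝ≥0∞) * ENat.toENNReal (b v) ≤ ENat.toENNReal (b w) := by
    have h6 := (b_mul2 u v hu).trans (Pool.Agent.RCC.b_mono h3)
    have h7 := ENat.toENNReal_le.2 h6
    rwa [ENat.toENNReal_mul, ENat.toENNReal_coe] at h7
  have h6 : ENNReal.ofReal d * ((u : ℝ≥0∞) + 1) ^ 2 ≤ ((F u : ℕ) : ℝ≥0∞) := by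
    have h7 := ENNReal.ofReal_le_ofReal hd
    rw [ENNReal.ofReal_natCast, ENNReal.ofReal_mul' (by positivity),
      ENNReal.ofReal_pow (by positivity), ENNReal.ofReal_add (by positivity) zero_le_one,
      ENNReal.ofReal_natCast, ENNReal.ofReal_one] at h7
    exact h7
  have h7 : (w : ℝ≥0∞) ^ 2 ≤ (((u : ℝ≥0∞) + 1) * v) ^ 2 := by
    have h8 : (w : ℝ≥0∞) ≤ ((u : ℝ≥0∞) + 1) * v := by exact_mod_cast h4
    gcongr
  have hv0 : ((v : ℝ≥0∞)) ^ 2 ≠ 0 := by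
    simp only [ne_eq, OfNat.ofNat_ne_zero, not_false_eq_true, pow_eq_zero_iff, Nat.cast_eq_zero]
    omega
  have hvt : ((v : ℝ≥0∞)) ^ 2 ≠ ⊤ := ENNReal.pow_ne_top (ENNReal.natCast_ne_top v)
  have hw1 : ((w : ℝ≥0∞)) ^ 2 ≠ 0 := by
    simp only [ne_eq, OfNat.ofNat_ne_zero, not_false_eq_true, pow_eq_zero_iff, Nat.cast_eq_zero]
    exact hw0
  have hwt : ((w : ℝ≥0∞)) ^ 2 ≠ ⊤ := ENNReal.pow_ne_top (ENNReal.natCast_ne_top w)
  rw [q, q, ENNReal.le_div_iff_mul_le (Or.inl hw1) (Or.inl hwt)]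
  calc ENNReal.ofReal d * (ENat.toENNReal (b v) / (v : ℝ≥0∞) ^ 2) * (w : ℝ≥0∞) ^ 2
      ≤ ENNReal.ofReal d * (ENat.toENNReal (b v) / (v : ℝ≥0∞) ^ 2) * (((u : ℝ≥0∞) + 1) * v) ^ 2 := by
        gcongr
    _ = ENNReal.ofReal d * ((u : ℝ≥0∞) + 1) ^ 2 *
        (ENat.toENNReal (b v) / (v : ℝ≥0∞) ^ 2 * (v : ℝ≥0∞) ^ 2) := by ring
    _ = ENNReal.ofReal d * ((u : ℝ≥0∞) + 1) ^ 2 * ENat.toENNReal (b v) := by
        rw [ENNReal.div_mul_cancel hv0 hvt]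
    _ ≤ ((F u : ℕ) : ℝ≥0∞) * ENat.toENNReal (b v) := by gcongr
    _ ≤ ENat.toENNReal (b w) := h5

/-- `F u ≥ (1 - 5 / √(u + 1)) (u + 1) ^ 2`. -/
theorem F_expl (u : ℕ) : ((u : ℝ) + 1) ^ 2 - 5 * (((u : ℝ) + 1) * √((u : ℝ) + 1)) ≤ F u := by
  have h1 := F_sq u
  have hu : (0 : ℝ) ≤ u := Nat.cast_nonneg u
  have h2 : √(u : ℝ) ≤ √((u : ℝ) + 1) := Real.sqrt_le_sqrt (by linarith)
  have h3 : (1 : ℝ) ≤ √((u : ℝ) + 1) := by
    rw [Real.one_le_sqrt]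
    linarith
  have h4 : (u : ℝ) * √(u : ℝ) ≤ ((u : ℝ) + 1) * √((u : ℝ) + 1) :=
    mul_le_mul (by linarith) h2 (Real.sqrt_nonneg _) (by linarith)
  have h5 : ((u : ℝ) + 1) ≤ ((u : ℝ) + 1) * √((u : ℝ) + 1) := le_mul_of_one_le_right (by linarith) h3
  nlinarith

theorem q_expl (v w : ℕ) (hv : 1 ≤ v) (hw : 1 ≤ w) :
    ENNReal.ofReal (1 - 5 * √((v : ℝ) / w)) * q v ≤ q w := by
  have hv0 : (0 : ℝ) < v := by exact_mod_cast hv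
  have hw0 : (0 : ℝ) < w := by exact_mod_cast hw
  rcases le_or_gt (1 - 5 * √((v : ℝ) / w)) 0 with h0 | h0
  · rw [ENNReal.ofReal_of_nonpos h0, zero_mul]
    exact bot_le
  obtain ⟨u, hu⟩ : ∃ u, u = w / v := ⟨_, rfl⟩
  have hvw : v ≤ w := by
    by_contra hcon
    push Not at hcon
    have h1 : (1 : ℝ) ≤ (v : ℝ) / w := by
      rw [one_le_div hw0]
      exact_mod_cast hcon.le
    have h2 : (1 : ℝ) ≤ √((v : ℝ) / w) := by
      rw [Real.one_le_sqrt]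
      exact h1
    linarith
  have hu1 : 1 ≤ u := by
    rw [hu]
    exact Nat.div_pos hvw hv
  have h3 : u * v ≤ w := by
    rw [hu]
    exact Nat.div_mul_le_self w v
  have h4 : w ≤ (u + 1) * v := by
    rw [hu]
    have := Nat.lt_div_mul_add (a := w) (b := v) hv
    nlinarith
  refine q_step hu1 hv h3 h4 ?_
  have h5 : (w : ℝ) ≤ ((u : ℝ) + 1) * v := by exact_mod_cast h4
  have hU : (0 : ℝ) < (u : ℝ) + 1 := by positivity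
  -- `1 ≤ √(v / w) √(u + 1)`
  have h6 : 1 ≤ √((v : ℝ) / w) * √((u : ℝ) + 1) := by
    rw [← Real.sqrt_mul (by positivity), Real.one_le_sqrt, div_mul_eq_mul_div, one_le_div hw0]
    linarith
  have h7 : √((u : ℝ) + 1) * √((u : ℝ) + 1) = (u : ℝ) + 1 := Real.mul_self_sqrt hU.le
  have h8 : ((u : ℝ) + 1) * √((u : ℝ) + 1) ≤ √((v : ℝ) / w) * ((u : ℝ) + 1) ^ 2 := by
    have h9 : ((u : ℝ) + 1) * √((u : ℝ) + 1) * 1 ≤
        ((u : ℝ) + 1) * √((u : ℝ) + 1) * (√((v : ℝ) / w) * √((u : ℝ) + 1)) :=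
      mul_le_mul_of_nonneg_left h6 (by positivity)
    have h10 : ((u : ℝ) + 1) * √((u : ℝ) + 1) * (√((v : ℝ) / w) * √((u : ℝ) + 1)) =
        √((v : ℝ) / w) * ((u : ℝ) + 1) * (√((u : ℝ) + 1) * √((u : ℝ) + 1)) := by ring
    rw [h10, h7] at h9
    nlinarith
  have h11 := F_expl u
  have h12 : (1 - 5 * √((v : ℝ) / w)) * ((u : ℝ) + 1) ^ 2 =
      ((u : ℝ) + 1) ^ 2 - 5 * (√((v : ℝ) / w) * ((u : ℝ) + 1) ^ 2) := by ring
  rw [h12]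
  linarith

end Pool.Agent.RCD
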