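import Pool.Agent.RCD.BTwo
import Pool.Agent.RCD.Expl

/-!
RCD/BTwoF (MP_920410_lc). The explicit lower bound for all widths.
-/

set_option autoImplicit false

namespace Pool.Agent.RCD

open Pool.Agent.RCC (b)
open scoped ENNReal

theorem record (w : ℕ) (hw : 1 ≤ w) :
    ENNReal.ofReal (5 / 4 * (w : ℝ) ^ 2 * (1 - 5 * √(2 / w))) ≤ ENat.toENNReal (b w) := by
  have h1 := q_expl 2 w (by norm_num) hw
  have h2 : (5 : ℝ≥0∞) / 4 ≤ q 2 := by
    have h3 := ENat.toENNReal_le.2 five_le_b_two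
    rw [q]
    have h4 : ((2 : ℕ) : ℝ≥0∞) ^ 2 = 4 := by norm_num
    rw [h4]
    have h5 : ENat.toENNReal (5 : ℕ∞) = (5 : ℝ≥0∞) := by
      have := ENat.toENNReal_coe 5
      simpa using this
    rw [h5] at h3
    gcongr
  have h3 : ENNReal.ofReal (1 - 5 * √(((2 : ℕ) : ℝ) / w)) * (5 / 4) ≤ q w :=
    (mul_le_mul_right h2 _).trans h1
  have hw0 : ((w : ℝ≥0∞)) ^ 2 ≠ 0 := by
    simp only [ne_eq, OfNat.ofNat_ne_zero, not_false_eq_true, pow_eq_zero_iff, Nat.cast_eq_zero]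
    omega
  have hwt : ((w : ℝ≥0∞)) ^ 2 ≠ ⊤ := ENNReal.pow_ne_top (ENNReal.natCast_ne_top w)
  rw [q, ENNReal.le_div_iff_mul_le (Or.inl hw0) (Or.inl hwt)] at h3
  refine le_trans (le_of_eq ?_) h3
  rw [mul_comm (5 / 4 * (w : ℝ) ^ 2), ENNReal.ofReal_mul' (by positivity),
    ENNReal.ofReal_mul (by norm_num), ENNReal.ofReal_pow (by positivity), ENNReal.ofReal_natCast]
  have h5 : ENNReal.ofReal (5 / 4) = 5 / 4 := by
    rw [ENNReal.ofReal_div_of_pos (by norm_num)]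
    norm_num
  rw [h5, Nat.cast_ofNat, mul_assoc]

end Pool.Agent.RCD
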