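import Pool.Agent.RCD.BTwoD

/-!
RCD/BTwoP (MP_920410_lc). The checker of RCD/BTwoD is sound.
-/

set_option autoImplicit false

namespace Pool.Agent.RCD

open Pool.Agent.RCC (Pos dn cl cols dn_append_lt cl_append_lt dn_last cl_last)

theorem allLt_iff {p : ℕ → Bool} {n : ℕ} : allLt p n = true ↔ ∀ i < n, p i = true := by
  induction n with
  | zero => simp [allLt]
  | succ n ih =>
    rw [allLt, Bool.and_eq_true, ih]
    constructor
    · rintro ⟨h1, h2⟩ i hi
      rcases Nat.lt_succ_iff_lt_or_eq.1 hi with h | rfl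
      · exact h2 i h
      · exact h1
    · exact fun h => ⟨h n (Nat.lt_succ_self n), fun i hi => h i (Nat.lt_succ_of_lt hi)⟩

/-- The conditions checked by `slotOk`. -/
structure SOk (M : ℕ) (t : St) (a b : ℕ) (d u : ℕ → Bool) : Prop where
  ab : a < b
  bM : b ≤ M
  d1 : ∀ i < t.n, d i = true → t.a i ≤ a ∧ t.b i ≤ b
  d2 : ∀ i < t.n, d i = false → a ≤ t.b i
  u1 : ∀ i < t.n, u i = true → a ≤ t.a i ∧ b ≤ t.b i
  u2 : ∀ i < t.n, u i = false → t.a i ≤ b
  mm : ∀ i < t.n, d i = false → u i = false → t.b i ≤ a ∨ b ≤ t.a i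
  dd : ∀ i < t.n, ∀ j < t.n, d i = true → t.L j i = true → d j = true
  uu : ∀ i < t.n, ∀ j < t.n, u i = true → t.L i j = true → u j = true
  du : ∀ i < t.n, ∀ j < t.n, d i = true → u j = true → t.L i j = true
  ii : ∀ i < t.n, ∀ j < t.n, d i = false → u i = false → d j = false → u j = false → i ≠ j →
    t.L i j = true ∨ t.L j i = true

theorem sok_of {M : ℕ} {t : St} {a b : ℕ} {d u : ℕ → Bool} (h : slotOk M t a b d u = true) :
    SOk M t a b d u := by
  unfold slotOk at h
  rw [Bool.and_eq_true, Bool.and_eq_true, Nat.blt_eq, Nat.ble_eq, allLt_iff] at h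
  obtain ⟨⟨h1, h2⟩, h3⟩ := h
  have h4 : ∀ i < t.n, okOne t a b d u i = true := fun i hi =>
    (Bool.and_eq_true _ _ ▸ h3 i hi : _ ∧ _).1
  have h5 : ∀ i < t.n, ∀ j < t.n, okTwo t d u i j = true := fun i hi j hj =>
    allLt_iff.1 (Bool.and_eq_true _ _ ▸ h3 i hi : _ ∧ _).2 j hj
  refine ⟨h1, h2, ?_, ?_, ?_, ?_, ?_, ?_, ?_, ?_, ?_⟩
  · intro i hi hd
    have := h4 i hi
    unfold okOne at this
    rw [hd] at this
    simp only [cond_true, Bool.and_eq_true, Nat.ble_eq] at this
    exact this.1.1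
  · intro i hi hd
    have := h4 i hi
    unfold okOne at this
    rw [hd] at this
    simp only [cond_false, Bool.and_eq_true, Nat.ble_eq] at this
    exact this.1.1
  · intro i hi hd
    have := h4 i hi
    unfold okOne at this
    rw [hd] at this
    simp only [cond_true, Bool.and_eq_true, Nat.ble_eq] at this
    exact this.1.2
  · intro i hi hd
    have := h4 i hi
    unfold okOne at this
    rw [hd] at this
    simp only [cond_false, Bool.and_eq_true, Nat.ble_eq] at this
    exact this.1.2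
  · intro i hi hd hu
    have := h4 i hi
    unfold okOne at this
    rw [hd, hu] at this
    simp only [cond_false, Bool.and_eq_true, Bool.or_eq_true, Nat.ble_eq, Bool.false_or] at this
    exact this.2
  · intro i hi j hj hd hL
    have := h5 i hi j hj
    unfold okTwo at this
    rw [hd, hL] at this
    revert this
    cases d j <;> simp
  · intro i hi j hj hd hL
    have := h5 i hi j hj
    unfold okTwo at this
    rw [hd, hL] at this
    revert this
    cases u j <;> simp
  · intro i hi j hj hd hu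
    have := h5 i hi j hj
    unfold okTwo at this
    rw [hd, hu] at this
    revert this
    cases t.L i j <;> simp
  · intro i hi j hj h1 h2 h3 h4 hij
    have := h5 i hi j hj
    unfold okTwo at this
    rw [h1, h2, h3, h4] at this
    have h6 : Nat.beq i j = false := by
      rw [Bool.eq_false_iff]
      exact fun h => hij (Nat.eq_of_beq_eq_true h)
    rw [h6] at this
    revert this
    cases t.L i j <;> cases t.L j i <;> simp

theorem of_blocked {t : St} {d u : ℕ → Bool} {c : ℕ} (h : blocked t d u c = true) :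
    ∃ i < t.n, d i = false ∧ u i = false ∧ t.c i = c := by
  unfold blocked at h
  rw [Bool.not_eq_true', ← Bool.not_eq_true, allLt_iff] at h
  push Not at h
  obtain ⟨i, hi, h⟩ := h
  refine ⟨i, hi, ?_⟩
  rw [← Bool.eq_false_iff, Bool.or_eq_false_iff, Bool.or_eq_false_iff, Bool.not_eq_false'] at h
  exact ⟨h.1.1, h.1.2, Nat.eq_of_beq_eq_true h.2⟩

/-- The state `t` describes the position `s`. -/
structure Rep (N M κ : ℕ) (g σ : ℕ → ℕ) (t : St) (s : Pos) : Prop where
  len : s.length = N + t.n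
  sp : ∀ i < N, ∀ j < N, (lt s i j ↔ i < j)
  gm : ∀ x ≤ M, g x < N
  gs : ∀ x y, x < y → y ≤ M → g x < g y
  gk : ∀ x ≤ M, κ ∈ cl s (g x)
  ab : ∀ j < t.n, t.a j < t.b j ∧ t.b j ≤ M
  up : ∀ i < N, ∀ j < t.n, (lt s i (N + j) ↔ i < g (t.a j))
  dw : ∀ i < N, ∀ j < t.n, (lt s (N + j) i ↔ g (t.b j) ≤ i)
  nn : ∀ i < t.n, ∀ j < t.n, (lt s (N + i) (N + j) ↔ t.L i j = true)
  cc : ∀ j < t.n, t.c j < t.f ∧ σ (t.c j) ∈ cl s (N + j)
  fi : t.f ≤ 3
  kf : κ < 4
  si : ∀ i < t.f, σ i < 4 ∧ σ i ≠ κ ∧ ∀ j < i, σ j ≠ σ i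

/-- The elements below the new element. -/
def Bs (N n : ℕ) (g : ℕ → ℕ) (a : ℕ) (d : ℕ → Bool) : Finset ℕ :=
  Finset.range (g a) ∪ ((Finset.range n).filter fun i => d i = true).image fun i => N + i

/-- The elements above the new element. -/
def As (N n : ℕ) (g : ℕ → ℕ) (b : ℕ) (u : ℕ → Bool) : Finset ℕ :=
  Finset.Ico (g b) N ∪ ((Finset.range n).filter fun i => u i = true).image fun i => N + i

theorem mem_Bs1 {N n a : ℕ} {g : ℕ → ℕ} {d : ℕ → Bool} {i : ℕ} (hi : i < N) :
    i ∈ Bs N n g a d ↔ i < g a := by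
  unfold Bs
  rw [Finset.mem_union, Finset.mem_range, Finset.mem_image]
  constructor
  · rintro (h | ⟨j, _, h⟩)
    · exact h
    · omega
  · exact Or.inl

theorem mem_Bs2 {N n a : ℕ} {g : ℕ → ℕ} {d : ℕ → Bool} {i : ℕ} (ha : g a < N) (hi : i < n) :
    N + i ∈ Bs N n g a d ↔ d i = true := by
  unfold Bs
  rw [Finset.mem_union, Finset.mem_range, Finset.mem_image]
  constructor
  · rintro (h | ⟨j, hj, h⟩)
    · omega
    · obtain rfl : j = i := by omega
      exact (Finset.mem_filter.1 hj).2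
  · exact fun h => Or.inr ⟨i, Finset.mem_filter.2 ⟨Finset.mem_range.2 hi, h⟩, rfl⟩

theorem mem_As1 {N n b : ℕ} {g : ℕ → ℕ} {u : ℕ → Bool} {i : ℕ} (hi : i < N) :
    i ∈ As N n g b u ↔ g b ≤ i := by
  unfold As
  rw [Finset.mem_union, Finset.mem_Ico, Finset.mem_image]
  constructor
  · rintro (h | ⟨j, _, h⟩)
    · exact h.1
    · omega
  · exact fun h => Or.inl ⟨h, hi⟩

theorem mem_As2 {N n b : ℕ} {g : ℕ → ℕ} {u : ℕ → Bool} {i : ℕ} (hi : i < n) :
    N + i ∈ As N n g b u ↔ u i = true := by
  unfold As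
  rw [Finset.mem_union, Finset.mem_Ico, Finset.mem_image]
  constructor
  · rintro (h | ⟨j, hj, h⟩)
    · omega
    · obtain rfl : j = i := by omega
      exact (Finset.mem_filter.1 hj).2
  · exact fun h => Or.inr ⟨i, Finset.mem_filter.2 ⟨Finset.mem_range.2 hi, h⟩, rfl⟩

theorem lt_N_Bs {N n a : ℕ} {g : ℕ → ℕ} {d : ℕ → Bool} (ha : g a < N) {i : ℕ}
    (h : i ∈ Bs N n g a d) : i < N + n := by
  unfold Bs at h
  rw [Finset.mem_union, Finset.mem_range, Finset.mem_image] at h
  rcases h with h | ⟨j, hj, rfl⟩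
  · omega
  · have := Finset.mem_range.1 (Finset.mem_filter.1 hj).1
    omega

theorem lt_N_As {N n b : ℕ} {g : ℕ → ℕ} {u : ℕ → Bool} {i : ℕ}
    (h : i ∈ As N n g b u) : i < N + n := by
  unfold As at h
  rw [Finset.mem_union, Finset.mem_Ico, Finset.mem_image] at h
  rcases h with h | ⟨j, hj, rfl⟩
  · omega
  · have := Finset.mem_range.1 (Finset.mem_filter.1 hj).1
    omega

theorem two_case {N n i : ℕ} (h : i < N + n) : i < N ∨ ∃ j < n, i = N + j := by
  rcases lt_or_ge i N with h1 | h1
  · exact Or.inl h1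
  · exact Or.inr ⟨i - N, by omega, by omega⟩

theorem Rep.gle {N M κ : ℕ} {g σ : ℕ → ℕ} {t : St} {s : Pos} (h : Rep N M κ g σ t s) {x y : ℕ}
    (hxy : x ≤ y) (hy : y ≤ M) : g x ≤ g y := by
  rcases hxy.eq_or_lt with rfl | h1
  · exact le_rfl
  · exact (h.gs x y h1 hy).le

theorem rep_slot {N M κ : ℕ} {g σ : ℕ → ℕ} {t : St} {s : Pos} (h : Rep N M κ g σ t s) {a b : ℕ}
    {d u : ℕ → Bool} (hc : SOk M t a b d u) :
    Slot 2 1 s (Bs N t.n g a d) (As N t.n g b u) := by
  have haM : a ≤ M := (hc.ab.le).trans hc.bM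
  have hgab : g a < g b := h.gs a b hc.ab hc.bM
  have hga : g a < N := h.gm a haM
  have hgb : g b < N := h.gm b hc.bM
  have hl := h.len
  refine ⟨?_, ?_, ?_, ?_, ?_, ?_⟩
  · intro i hi
    rw [hl]
    exact lt_N_Bs hga hi
  · intro i hi
    rw [hl]
    exact lt_N_As hi
  · intro i hi x hx hlt
    rw [hl] at hx
    have hi' := lt_N_Bs hga hi
    rcases two_case hi' with h1 | ⟨i', h1, rfl⟩
    · rw [mem_Bs1 h1] at hi
      rcases two_case hx with h2 | ⟨x', h2, rfl⟩
      · rw [mem_Bs1 h2]
        rw [h.sp x h2 i h1] at hlt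
        omega
      · rw [mem_Bs2 hga h2]
        rw [h.dw i h1 x' h2] at hlt
        by_contra hd
        rw [Bool.not_eq_true] at hd
        have h3 := h.gle (hc.d2 x' h2 hd) (h.ab x' h2).2
        omega
    · rw [mem_Bs2 hga h1] at hi
      rcases two_case hx with h2 | ⟨x', h2, rfl⟩
      · rw [mem_Bs1 h2]
        rw [h.up x h2 i' h1] at hlt
        have h3 := h.gle (hc.d1 i' h1 hi).1 haM
        omega
      · rw [mem_Bs2 hga h2]
        rw [h.nn x' h2 i' h1] at hlt
        exact hc.dd i' h1 x' h2 hi hlt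
  · intro i hi x hx hlt
    rw [hl] at hx
    have hi' := lt_N_As hi
    rcases two_case hi' with h1 | ⟨i', h1, rfl⟩
    · rw [mem_As1 h1] at hi
      rcases two_case hx with h2 | ⟨x', h2, rfl⟩
      · rw [mem_As1 h2]
        rw [h.sp i h1 x h2] at hlt
        omega
      · rw [mem_As2 h2]
        rw [h.up i h1 x' h2] at hlt
        by_contra hd
        rw [Bool.not_eq_true] at hd
        have h3 := h.gle (hc.u2 x' h2 hd) hc.bM
        omega
    · rw [mem_As2 h1] at hi
      rcases two_case hx with h2 | ⟨x', h2, rfl⟩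
      · rw [mem_As1 h2]
        rw [h.dw x h2 i' h1] at hlt
        have h3 := h.gle (hc.u1 i' h1 hi).2 (h.ab i' h1).2
        omega
      · rw [mem_As2 h2]
        rw [h.nn i' h1 x' h2] at hlt
        exact hc.uu i' h1 x' h2 hi hlt
  · intro i hi j hj
    have hi' := lt_N_Bs hga hi
    have hj' := lt_N_As hj
    rcases two_case hi' with h1 | ⟨i', h1, rfl⟩
    · rw [mem_Bs1 h1] at hi
      rcases two_case hj' with h2 | ⟨j', h2, rfl⟩
      · rw [mem_As1 h2] at hj
        rw [h.sp i h1 j h2]
        omega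
      · rw [mem_As2 h2] at hj
        rw [h.up i h1 j' h2]
        have h3 := h.ab j' h2
        have h4 := h.gle (hc.u1 j' h2 hj).1 (h3.1.le.trans h3.2)
        omega
    · rw [mem_Bs2 hga h1] at hi
      rcases two_case hj' with h2 | ⟨j', h2, rfl⟩
      · rw [mem_As1 h2] at hj
        rw [h.dw j h2 i' h1]
        have h4 := h.gle (hc.d1 i' h1 hi).2 hc.bM
        omega
      · rw [mem_As2 h2] at hj
        rw [h.nn i' h1 j' h2]
        exact hc.du i' h1 j' h2 hi hj
  · intro X hX hXB hXA
    rw [Finset.disjoint_left] at hXB hXA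
    suffices hcard : X.card ≤ 1 by omega
    rw [Finset.card_le_one]
    intro x hx y hy
    by_contra hxy
    have hn1 := hX.2 x hx y hy
    have hn2 := hX.2 y hy x hx
    have hx' := hX.1 x hx
    have hy' := hX.1 y hy
    rw [hl] at hx' hy'
    have hxB := hXB hx
    have hxA := hXA hx
    have hyB := hXB hy
    have hyA := hXA hy
    rcases two_case hx' with h1 | ⟨x', h1, rfl⟩
    · rw [mem_Bs1 h1] at hxB
      rw [mem_As1 h1] at hxA
      rcases two_case hy' with h2 | ⟨y', h2, rfl⟩
      · rw [h.sp x h1 y h2] at hn1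
        rw [h.sp y h2 x h1] at hn2
        omega
      · rw [mem_Bs2 hga h2, Bool.not_eq_true] at hyB
        rw [mem_As2 h2, Bool.not_eq_true] at hyA
        rw [h.up x h1 y' h2] at hn1
        rw [h.dw x h1 y' h2] at hn2
        have h3 := h.ab y' h2
        rcases hc.mm y' h2 hyB hyA with h4 | h4
        · have := h.gle h4 haM
          omega
        · have := h.gle h4 (h3.1.le.trans h3.2)
          omega
    · rw [mem_Bs2 hga h1, Bool.not_eq_true] at hxB
      rw [mem_As2 h1, Bool.not_eq_true] at hxA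
      rcases two_case hy' with h2 | ⟨y', h2, rfl⟩
      · rw [mem_Bs1 h2] at hyB
        rw [mem_As1 h2] at hyA
        rw [h.dw y h2 x' h1] at hn1
        rw [h.up y h2 x' h1] at hn2
        have h3 := h.ab x' h1
        rcases hc.mm x' h1 hxB hxA with h4 | h4
        · have := h.gle h4 haM
          omega
        · have := h.gle h4 (h3.1.le.trans h3.2)
          omega
      · rw [mem_Bs2 hga h2, Bool.not_eq_true] at hyB
        rw [mem_As2 h2, Bool.not_eq_true] at hyA
        rw [h.nn x' h1 y' h2] at hn1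
        rw [h.nn y' h2 x' h1] at hn2
        rcases hc.ii x' h1 y' h2 hxB hxA hyB hyA (fun he => hxy (by rw [he])) with h4 | h4
        · exact hn1 h4
        · exact hn2 h4

theorem beq_false {i j : ℕ} (h : i ≠ j) : Nat.beq i j = false := by
  rw [Bool.eq_false_iff]
  exact fun h' => h (Nat.eq_of_beq_eq_true h')

theorem add_old {t : St} {a b c j : ℕ} {d u : ℕ → Bool} (hj : j < t.n) :
    (t.add a b d u c).a j = t.a j ∧ (t.add a b d u c).b j = t.b j ∧
      (t.add a b d u c).c j = t.c j := by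
  simp only [St.add, beq_false hj.ne, cond_false, and_self]

theorem add_new {t : St} {a b c : ℕ} {d u : ℕ → Bool} :
    (t.add a b d u c).a t.n = a ∧ (t.add a b d u c).b t.n = b ∧
      (t.add a b d u c).c t.n = c := by
  simp only [St.add, Nat.beq_refl, cond_true, and_self]

theorem add_L {t : St} {a b c i j : ℕ} {d u : ℕ → Bool} (hi : i < t.n) (hj : j < t.n) :
    (t.add a b d u c).L i j = t.L i j := by
  simp only [St.add, beq_false hi.ne, beq_false hj.ne, cond_false]

theorem add_L1 {t : St} {a b c i : ℕ} {d u : ℕ → Bool} (hi : i < t.n) :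
    (t.add a b d u c).L i t.n = d i := by
  have : Nat.blt i t.n = true := Eq.mpr Nat.blt_eq hi
  simp only [St.add, Nat.beq_refl, cond_true, this, Bool.and_true]

theorem add_L2 {t : St} {a b c j : ℕ} {d u : ℕ → Bool} (hj : j < t.n) :
    (t.add a b d u c).L t.n j = u j := by
  simp only [St.add, Nat.beq_refl, cond_true, beq_false hj.ne, cond_false]

theorem add_L3 {t : St} {a b c : ℕ} {d u : ℕ → Bool} :
    (t.add a b d u c).L t.n t.n = false := by
  have : Nat.blt t.n t.n = false := by
    rw [Bool.eq_false_iff]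
    exact fun h => absurd (Eq.mp Nat.blt_eq h) (Nat.lt_irrefl _)
  simp only [St.add, Nat.beq_refl, cond_true, this, Bool.and_false]

theorem rep_add {N M κ : ℕ} {g σ σ' : ℕ → ℕ} {t : St} {s : Pos} (h : Rep N M κ g σ t s)
    {a b c : ℕ} {d u : ℕ → Bool} (hc : SOk M t a b d u) {X : Finset ℕ} (hx : σ' c ∈ X)
    (hσ : ∀ i < t.f, σ' i = σ i)
    (hf : c < t.f ∨ (c = t.f ∧ t.f < 3 ∧ σ' c < 4 ∧ σ' c ≠ κ ∧ ∀ j < t.f, σ j ≠ σ' c)) :
    Rep N M κ g σ' (t.add a b d u c)
      (s ++ [(code (Bs N t.n g a d) (As N t.n g b u), X)]) := by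
  have haM : a ≤ M := (hc.ab.le).trans hc.bM
  have hga : g a < N := h.gm a haM
  have hl := h.len
  have hN : N ≤ s.length := by omega
  have hcase : ∀ j < (t.add a b d u c).n, j < t.n ∨ j = t.n := fun j hj =>
    Nat.lt_succ_iff_lt_or_eq.1 hj
  refine ⟨?_, ?_, h.gm, h.gs, ?_, ?_, ?_, ?_, ?_, ?_, ?_, h.kf, ?_⟩
  · rw [List.length_append, List.length_singleton, hl]
    rfl
  · intro i hi j hj
    rw [lt_append (hi.trans_le hN) (hj.trans_le hN)]
    exact h.sp i hi j hj
  · intro x hx
    rw [cl_append_lt ((h.gm x hx).trans_le hN)]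
    exact h.gk x hx
  · intro j hj
    rcases hcase j hj with h1 | rfl
    · rw [(add_old h1).1, (add_old h1).2.1]
      exact h.ab j h1
    · rw [add_new.1, add_new.2.1]
      exact ⟨hc.ab, hc.bM⟩
  · intro i hi j hj
    rcases hcase j hj with h1 | rfl
    · rw [(add_old h1).1, lt_append (hi.trans_le hN) (by omega)]
      exact h.up i hi j h1
    · rw [add_new.1, ← hl, lt_last (hi.trans_le hN)]
      exact mem_Bs1 hi
  · intro i hi j hj
    rcases hcase j hj with h1 | rfl
    · rw [(add_old h1).2.1, lt_append (by omega) (hi.trans_le hN)]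
      exact h.dw i hi j h1
    · rw [add_new.2.1, ← hl, last_lt (hi.trans_le hN)]
      exact mem_As1 hi
  · intro i hi j hj
    rcases hcase i hi with h1 | rfl
    · rcases hcase j hj with h2 | rfl
      · rw [add_L h1 h2, lt_append (by omega) (by omega)]
        exact h.nn i h1 j h2
      · rw [add_L1 h1]
        have h5 : N + i < s.length := by omega
        have h6 := lt_last (B := Bs N t.n g a d) (A := As N t.n g b u) (X := X) h5
        rw [hl] at h6
        exact h6.trans (mem_Bs2 hga h1)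
    · rcases hcase j hj with h2 | rfl
      · rw [add_L2 h2]
        have h5 : N + j < s.length := by omega
        have h6 := last_lt (B := Bs N t.n g a d) (A := As N t.n g b u) (X := X) h5
        rw [hl] at h6
        exact h6.trans (mem_As2 h2)
      · rw [add_L3]
        constructor
        · exact fun h' => absurd h' (lt_irrefl _ _)
        · exact fun h' => absurd h' (by simp)
  · have hfle : t.f ≤ (t.add a b d u c).f := by
      simp only [St.add]
      cases Nat.beq c t.f
      · exact le_rfl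
      · exact Nat.le_succ _
    intro j hj
    rcases hcase j hj with h1 | rfl
    · obtain ⟨h2, h3⟩ := h.cc j h1
      rw [(add_old h1).2.2, cl_append_lt (by omega), hσ _ h2]
      exact ⟨h2.trans_le hfle, h3⟩
    · rw [add_new.2.2, ← hl, cl_last]
      refine ⟨?_, hx⟩
      rcases hf with h1 | ⟨h1, _⟩
      · exact h1.trans_le hfle
      · subst h1
        simp only [St.add, Nat.beq_refl, cond_true]
        exact Nat.lt_succ_self _
  · rcases hf with h1 | ⟨h1, h2, _⟩
    · simp only [St.add, beq_false h1.ne, cond_false]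
      exact h.fi
    · subst h1
      simp only [St.add, Nat.beq_refl, cond_true]
      exact h2
  · rcases hf with h1 | ⟨h1, h2, h3, h4, h5⟩
    · intro i hi
      simp only [St.add, beq_false h1.ne, cond_false] at hi
      obtain ⟨h6, h7, h8⟩ := h.si i hi
      rw [hσ i hi]
      refine ⟨h6, h7, fun j hj => ?_⟩
      rw [hσ j (hj.trans hi)]
      exact h8 j hj
    · subst h1
      intro i hi
      simp only [St.add, Nat.beq_refl, cond_true] at hi
      rcases Nat.lt_succ_iff_lt_or_eq.1 hi with h9 | rfl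
      · obtain ⟨h6, h7, h8⟩ := h.si i h9
        rw [hσ i h9]
        refine ⟨h6, h7, fun j hj => ?_⟩
        rw [hσ j (hj.trans h9)]
        exact h8 j hj
      · refine ⟨h3, h4, fun j hj => ?_⟩
        rw [hσ j hj]
        exact h5 j hj

/-- The new element cannot get the colour of the spine. -/
theorem not_kappa {N M κ : ℕ} {g σ : ℕ → ℕ} {t : St} {s : Pos} (h : Rep N M κ g σ t s)
    {a b : ℕ} {d u : ℕ → Bool} (hc : SOk M t a b d u) {X : Finset ℕ}
    (hX : LegX2 1 4 s (Bs N t.n g a d) (As N t.n g b u) X) : κ ∉ X := by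
  have haM : a ≤ M := (hc.ab.le).trans hc.bM
  have hga : g a < N := h.gm a haM
  have hgab : g a < g b := h.gs a b hc.ab hc.bM
  have hl := h.len
  refine Finset.disjoint_left.1 (hX.2.2 (g a) (by omega) ?_ ?_) (h.gk a haM)
  · rw [mem_Bs1 hga]
    omega
  · rw [mem_As1 hga]
    omega

/-- It cannot get the colours of the new elements incomparable to it. -/
theorem not_blocked {N M κ : ℕ} {g σ : ℕ → ℕ} {t : St} {s : Pos} (h : Rep N M κ g σ t s)
    {a b c : ℕ} {d u : ℕ → Bool} (hc : SOk M t a b d u) {X : Finset ℕ}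
    (hX : LegX2 1 4 s (Bs N t.n g a d) (As N t.n g b u) X) (hb : blocked t d u c = true) :
    c < t.f ∧ σ c ∉ X := by
  have haM : a ≤ M := (hc.ab.le).trans hc.bM
  have hga : g a < N := h.gm a haM
  have hl := h.len
  obtain ⟨i, hi, h1, h2, rfl⟩ := of_blocked hb
  obtain ⟨h3, h4⟩ := h.cc i hi
  refine ⟨h3, Finset.disjoint_left.1 (hX.2.2 (N + i) (by omega) ?_ ?_) h4⟩
  · rw [mem_Bs2 hga hi, h1]
    simp
  · rw [mem_As2 hi, h2]
    simp

/-- The checker is sound. -/
theorem sound (N M κ : ℕ) (g : ℕ → ℕ) : ∀ (w : WT) (t : St) (s : Pos) (σ : ℕ → ℕ),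
    Rep N M κ g σ t s → chk M w t = true → Frc2 2 1 4 (fun _ => False) s := by
  intro w
  induction w with
  | no =>
    intro t s σ _ h
    simp [chk] at h
  | win a b D U =>
    intro t s σ hR h
    rw [chk, Bool.and_eq_true, Bool.and_eq_true, Bool.and_eq_true] at h
    obtain ⟨⟨⟨h1, h2⟩, h3⟩, h4⟩ := h
    have hc := sok_of h1
    refine Frc2.step s _ _ (rep_slot hR hc) fun X hX => ?_
    exfalso
    have hk := not_kappa hR hc hX
    obtain ⟨g0, n0⟩ := not_blocked hR hc hX h2
    obtain ⟨g1, n1⟩ := not_blocked hR hc hX h3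
    obtain ⟨g2, n2⟩ := not_blocked hR hc hX h4
    obtain ⟨x, hx⟩ := Finset.card_pos.1 hX.2.1
    have hx4 := Finset.mem_range.1 (hX.1 hx)
    obtain ⟨a0, b0, _⟩ := hR.si 0 g0
    obtain ⟨a1, b1, c1⟩ := hR.si 1 g1
    obtain ⟨a2, b2, c2⟩ := hR.si 2 g2
    have e1 := c1 0 (by omega)
    have e2 := c2 0 (by omega)
    have e3 := c2 1 (by omega)
    have f0 : x ≠ κ := fun he => hk (he ▸ hx)
    have f1 : x ≠ σ 0 := fun he => n0 (he ▸ hx)
    have f2 : x ≠ σ 1 := fun he => n1 (he ▸ hx)
    have f3 : x ≠ σ 2 := fun he => n2 (he ▸ hx)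
    have hk4 := hR.kf
    omega
  | mv a b D U t0 t1 t2 ih0 ih1 ih2 =>
    intro t s σ hR h
    rw [chk, Bool.and_eq_true, Bool.and_eq_true, Bool.and_eq_true] at h
    obtain ⟨⟨⟨h1, h2⟩, h3⟩, h4⟩ := h
    have hc := sok_of h1
    refine Frc2.step s _ _ (rep_slot hR hc) fun X hX => ?_
    have hk := not_kappa hR hc hX
    obtain ⟨x, hx⟩ := Finset.card_pos.1 hX.2.1
    have hx4 := Finset.mem_range.1 (hX.1 hx)
    have hxk : x ≠ κ := fun he => hk (he ▸ hx)
    have key : ∀ (σ' : ℕ → ℕ) (c : ℕ), σ' c ∈ X → (∀ i < t.f, σ' i = σ i) → c < 3 →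
        (c < t.f ∨ (c = t.f ∧ t.f < 3 ∧ σ' c < 4 ∧ σ' c ≠ κ ∧ ∀ j < t.f, σ j ≠ σ' c)) →
        Frc2 2 1 4 (fun _ => False)
          (s ++ [(code (Bs N t.n g a (Nat.testBit D)) (As N t.n g b (Nat.testBit U)), X)]) := by
      intro σ' c hcX hσ hc3 hf
      have hR' := rep_add hR hc hcX hσ hf
      have hnb : blocked t (Nat.testBit D) (Nat.testBit U) c = false := by
        rw [Bool.eq_false_iff]
        intro hb
        obtain ⟨h5, h6⟩ := not_blocked hR hc hX hb
        rw [← hσ c h5] at h6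
        exact h6 hcX
      have hfc : c ≤ t.f := by
        rcases hf with h | ⟨h, _⟩
        · exact h.le
        · exact h.le
      obtain rfl | rfl | rfl : c = 0 ∨ c = 1 ∨ c = 2 := by omega
      · rw [hnb, Bool.false_or] at h2
        exact ih0 _ _ _ hR' h2
      · have h7 : Nat.blt t.f 1 = false := by
          rw [Bool.eq_false_iff]
          intro h8
          have := Eq.mp Nat.blt_eq h8
          omega
        rw [hnb, h7, Bool.false_or, Bool.false_or] at h3
        exact ih1 _ _ _ hR' h3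
      · have h7 : Nat.blt t.f 2 = false := by
          rw [Bool.eq_false_iff]
          intro h8
          have := Eq.mp Nat.blt_eq h8
          omega
        rw [hnb, h7, Bool.false_or, Bool.false_or] at h4
        exact ih2 _ _ _ hR' h4
    by_cases hold : ∃ c < t.f, σ c = x
    · obtain ⟨c, hcf, rfl⟩ := hold
      have := hR.fi
      exact key σ c hx (fun _ _ => rfl) (by omega) (Or.inl hcf)
    · push Not at hold
      have hf3 : t.f < 3 := by
        by_contra hcon
        have hfi := hR.fi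
        have hf3 : t.f = 3 := by omega
        rw [hf3] at hold
        have hsi := hR.si
        rw [hf3] at hsi
        obtain ⟨a0, b0, _⟩ := hsi 0 (by omega)
        obtain ⟨a1, b1, c1⟩ := hsi 1 (by omega)
        obtain ⟨a2, b2, c2⟩ := hsi 2 (by omega)
        have e1 := c1 0 (by omega)
        have e2 := c2 0 (by omega)
        have e3 := c2 1 (by omega)
        have f1 := hold 0 (by omega)
        have f2 := hold 1 (by omega)
        have f3 := hold 2 (by omega)
        have hk4 := hR.kf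
        omega
      obtain ⟨σ', hne, heq⟩ : ∃ σ' : ℕ → ℕ, (∀ i < t.f, σ' i = σ i) ∧ σ' t.f = x := by
        refine ⟨fun i => if i = t.f then x else σ i, fun i hi => ?_, ?_⟩
        · simp only [if_neg hi.ne]
        · simp
      refine key σ' t.f ?_ hne hf3 (Or.inr ⟨rfl, hf3, ?_, ?_, fun j hj => ?_⟩)
      · rw [heq]
        exact hx
      · rw [heq]
        exact hx4
      · rw [heq]
        exact hxk
      · rw [heq]
        exact hold j hj

end Pool.Agent.RCD
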