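import Pool.Agent.RCC.Blk
import Pool.Agent.RCD.Defs

/-!
RCD/Blk (MP_920410_lc). Two-sided version of RCC/Blk: the recursive ordered set built from a
two-sided strategy `D`. The codes `cd`, `ls`, `mk`, `ans`, `Hlt` are those of RCC/Blk.
-/

set_option autoImplicit false

namespace Pool.Agent.RCD

open Nat.Partrec (Code)
open Pool.Agent.RCC (hist bits cd ls mk ans Hlt)

/-- The set of all elements. -/
def blkSet (D : Strat) : Set ℕ :=
  {x | (∀ j ≤ (ls x).length, (D (ans ((ls x).take j))).isSome) ∧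
    ∀ j < (ls x).length, Hlt (cd x) (mk x.unpair.1 ((ls x).take j)) ((ls x).getD j 0)}

/-- The order. -/
def blkRel (D : Strat) (x y : ℕ) : Prop :=
  x = y ∨ x.unpair.1 < y.unpair.1 ∨
    (x.unpair.1 = y.unpair.1 ∧
      ((∃ p, D (ans (ls y)) = some p ∧ (ls x).length ∈ p.1) ∨
        ∃ p, D (ans (ls x)) = some p ∧ (ls y).length ∈ p.2))

end Pool.Agent.RCD
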