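import Pool.Agent.RCD.Pos2

/-!
RCD/Cap (MP_920410_lc). The spine and the caps. `t` is a position reached in the slot `(B, A)` of `s₀`
(width `w`); all elements presented after `t` are above all elements of `t` which are not in `s₀`. They
are the spine `Y` (a chain) and the caps `Z` (an antichain), no cap is below a spine element. A new
element `p` is put above the spine and incomparable to the caps; if its colours are not all on the
spine it is appended to the spine, otherwise it becomes a cap. The number of the steps is at most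
`k + (w - 1)`. At the end there are `w - 1` caps, their colours are on the spine.
-/

set_option autoImplicit false

namespace Pool.Agent.RCD

open Pool.Agent.RCC (Pos dn cl cols dn_append_lt cl_append_lt dn_last cl_last)

/-- The state: spine `Y`, caps `Z`. -/
structure Cap (u m k : ℕ) (s₀ : Pos) (B A : Finset ℕ) (t : Pos) (n : ℕ) (s : Pos)
    (Y Z : Finset ℕ) : Prop where
  base : Base2 u m k s₀ B A s
  pre : t <+: s
  split : ∀ i, (t.length ≤ i ∧ i < s.length) ↔ (i ∈ Y ∨ i ∈ Z)
  disj : Disjoint Y Z
  top : ∀ i, s₀.length ≤ i → i < t.length → ∀ j, t.length ≤ j → j < s.length → lt s i j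
  chain : ∀ i ∈ Y, ∀ j ∈ Y, i ≠ j → lt s i j ∨ lt s j i
  anti : ∀ i ∈ Z, ∀ j ∈ Z, ¬ lt s i j
  free : ∀ i ∈ Z, ∀ j ∈ Y, ¬ lt s i j
  card : Z.card = n
  col : cols s Z ⊆ cols s Y

theorem cols_le {m k : ℕ} {s : Pos} (hs : Leg2 m k s) {C : Finset ℕ} (hC : ∀ i ∈ C, i < s.length) :
    cols s C ⊆ Finset.range k := by
  intro x hx
  unfold cols at hx
  obtain ⟨i, hi, hx⟩ := Finset.mem_biUnion.1 hx
  exact hs.sub i (hC i hi) hx

theorem cols_insert_last {s : Pos} {S X R : Finset ℕ} (hR : ∀ i ∈ R, i < s.length) :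
    cols (s ++ [(S, X)]) (insert s.length R) = X ∪ cols s R := by
  have h1 : cols (s ++ [(S, X)]) (insert s.length R) =
      cl (s ++ [(S, X)]) s.length ∪ cols (s ++ [(S, X)]) R := by
    unfold cols
    rw [Finset.biUnion_insert]
  rw [h1, cl_last, cols_pre2 (List.prefix_append s [(S, X)]) hR]

theorem cap_step {u m k w : ℕ} {s₀ : Pos} {B A : Finset ℕ} (hS : Slot u w s₀ B A) {t : Pos}
    {n : ℕ} (hn : n < w) {s : Pos} {Y Z : Finset ℕ} (h : Cap u m k s₀ B A t n s Y Z)
    (ht0 : s₀.length ≤ t.length) {Φ : Pos → Prop}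
    (hnext : ∀ X, X ⊆ Finset.range k → m ≤ X.card →
      (X ⊆ cols s Y → ∀ s', s'.length = s.length + 1 → cols s' (insert s.length Z) = X ∪ cols s Z →
        cols s' Y = cols s Y → Cap u m k s₀ B A t (n + 1) s' Y (insert s.length Z) →
        Frc2 u m k Φ s') ∧
      (¬ X ⊆ cols s Y → ∀ s', s'.length = s.length + 1 →
        cols s' (insert s.length Y) = X ∪ cols s Y →
        Cap u m k s₀ B A t n s' (insert s.length Y) Z → Frc2 u m k Φ s')) :
    Frc2 u m k Φ s := by
  have hlt : t.length ≤ s.length := h.pre.length_le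
  have hYm : ∀ i ∈ Y, t.length ≤ i ∧ i < s.length := fun i hi => (h.split i).2 (Or.inl hi)
  have hZm : ∀ i ∈ Z, t.length ≤ i ∧ i < s.length := fun i hi => (h.split i).2 (Or.inr hi)
  obtain ⟨B₁, hB₁⟩ : ∃ B₁, B₁ = Finset.Ico s₀.length t.length ∪ Y := ⟨_, rfl⟩
  have hB₁m : ∀ i ∈ B₁, s₀.length ≤ i ∧ i < s.length := by
    intro i hi
    rw [hB₁, Finset.mem_union, Finset.mem_Ico] at hi
    rcases hi with hi | hi
    · omega
    · have := hYm i hi
      omega
  have hslot : Slot u 1 s (B ∪ B₁) (A ∪ ∅) := by
    refine slot_of hS h.base hB₁m (fun i hi => absurd hi (Finset.notMem_empty i)) ?_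
      (fun i hi => absurd hi (Finset.notMem_empty i))
      (fun i _ j hj => absurd hj (Finset.notMem_empty j)) ?_
    · intro i hi g hg1 hg2 hgi
      rw [hB₁, Finset.mem_union, Finset.mem_Ico] at hi ⊢
      by_cases hg3 : g < t.length
      · exact Or.inl ⟨hg1, hg3⟩
      · rcases (h.split g).1 ⟨not_lt.1 hg3, hg2⟩ with hgY | hgZ
        · exact Or.inr hgY
        · exfalso
          rcases hi with hi | hi
          · exact ord2_asymm h.base.ord hg2 (by omega) hgi
              (h.top i hi.1 hi.2 g (not_lt.1 hg3) hg2)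
          · exact h.free g hgZ i hi hgi
    · intro X hX hX1 hX2 _
      have hXZ : X ⊆ Z := by
        intro i hi
        have h1 := hX.1 i hi
        have h2 := hX1 i hi
        have h3 := Finset.disjoint_left.1 hX2 hi
        rw [hB₁, Finset.mem_union, Finset.mem_Ico, not_or] at h3
        have h4 : t.length ≤ i := by
          by_contra h5
          exact h3.1 ⟨h2, not_le.1 h5⟩
        rcases (h.split i).1 ⟨h4, h1⟩ with h5 | h5
        · exact absurd h5 h3.2
        · exact h5
      have := Finset.card_le_card hXZ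
      rw [h.card] at this
      omega
  refine Frc2.step s (B ∪ B₁) (A ∪ ∅) hslot fun X hX => ?_
  have hbase : Base2 u m k s₀ B A (s ++ [(code (B ∪ B₁) (A ∪ ∅), X)]) :=
    base_snoc h.base (fun i hi => (hB₁m i hi).1) (fun i hi => absurd hi (Finset.notMem_empty i))
      hslot hX
  have hlen : (s ++ [(code (B ∪ B₁) (A ∪ ∅), X)]).length = s.length + 1 := by simp
  have hpre : t <+: s ++ [(code (B ∪ B₁) (A ∪ ∅), X)] := h.pre.trans (List.prefix_append s _)
  have hs0 : s₀.length ≤ s.length := ht0.trans hlt
  have hnB : ∀ i ∈ B, i < s₀.length := hS.ltB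
  have hnA : ∀ i ∈ A, i < s₀.length := hS.ltA
  have hbel : ∀ i, s₀.length ≤ i → i < s.length →
      (lt (s ++ [(code (B ∪ B₁) (A ∪ ∅), X)]) i s.length ↔ i ∈ B₁) := by
    intro i h1 h2
    rw [lt_last h2, Finset.mem_union]
    constructor
    · rintro (h3 | h3)
      · exact absurd (hnB i h3) (not_lt.2 h1)
      · exact h3
    · exact Or.inr
  have habo : ∀ i, s₀.length ≤ i → i < s.length →
      ¬ lt (s ++ [(code (B ∪ B₁) (A ∪ ∅), X)]) s.length i := by
    intro i h1 h2 h3
    rw [last_lt h2, Finset.mem_union] at h3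
    rcases h3 with h3 | h3
    · exact absurd (hnA i h3) (not_lt.2 h1)
    · exact absurd h3 (Finset.notMem_empty i)
  have htop : ∀ i, s₀.length ≤ i → i < t.length → ∀ j, t.length ≤ j → j < s.length + 1 →
      lt (s ++ [(code (B ∪ B₁) (A ∪ ∅), X)]) i j := by
    intro i h1 h2 j h3 h4
    rcases Nat.lt_succ_iff_lt_or_eq.1 h4 with h5 | rfl
    · rw [lt_append (h2.trans_le hlt) h5]
      exact h.top i h1 h2 j h3 h5
    · rw [hbel i h1 (h2.trans_le hlt), hB₁, Finset.mem_union, Finset.mem_Ico]
      exact Or.inl ⟨h1, h2⟩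
  have hchain : ∀ i ∈ Y, ∀ j ∈ Y, i ≠ j → lt (s ++ [(code (B ∪ B₁) (A ∪ ∅), X)]) i j ∨
      lt (s ++ [(code (B ∪ B₁) (A ∪ ∅), X)]) j i := by
    intro i hi j hj hij
    rw [lt_append (hYm i hi).2 (hYm j hj).2, lt_append (hYm j hj).2 (hYm i hi).2]
    exact h.chain i hi j hj hij
  have hanti : ∀ i ∈ Z, ∀ j ∈ Z, ¬ lt (s ++ [(code (B ∪ B₁) (A ∪ ∅), X)]) i j := by
    intro i hi j hj
    rw [lt_append (hZm i hi).2 (hZm j hj).2]
    exact h.anti i hi j hj
  have hfree : ∀ i ∈ Z, ∀ j ∈ Y, ¬ lt (s ++ [(code (B ∪ B₁) (A ∪ ∅), X)]) i j := by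
    intro i hi j hj
    rw [lt_append (hZm i hi).2 (hYm j hj).2]
    exact h.free i hi j hj
  have hYb : ∀ i ∈ Y, i ∈ B₁ := fun i hi => by
    rw [hB₁]
    exact Finset.mem_union_right _ hi
  have hZb : ∀ i ∈ Z, i ∉ B₁ := fun i hi hi' => by
    rw [hB₁, Finset.mem_union, Finset.mem_Ico] at hi'
    rcases hi' with h1 | h1
    · exact absurd h1.2 (not_lt.2 (hZm i hi).1)
    · exact Finset.disjoint_left.1 h.disj h1 hi
  have hsn : t.length ≤ s.length := hlt
  have hlenY : s.length ∉ Y := fun h1 => absurd (hYm _ h1).2 (Nat.lt_irrefl _)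
  have hlenZ : s.length ∉ Z := fun h1 => absurd (hZm _ h1).2 (Nat.lt_irrefl _)
  obtain ⟨c1, c2⟩ := hnext X hX.1 hX.2.1
  by_cases hXY : X ⊆ cols s Y
  · refine c1 hXY _ hlen (cols_insert_last fun i hi => (hZm i hi).2)
      (cols_pre2 (List.prefix_append s _) fun i hi => (hYm i hi).2) ?_
    refine ⟨hbase, hpre, ?_, ?_, ?_, hchain, ?_, ?_, ?_, ?_⟩
    · intro i
      rw [hlen, Finset.mem_insert]
      constructor
      · rintro ⟨h1, h2⟩
        rcases Nat.lt_succ_iff_lt_or_eq.1 h2 with h3 | h3
        · rcases (h.split i).1 ⟨h1, h3⟩ with h4 | h4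
          · exact Or.inl h4
          · exact Or.inr (Or.inr h4)
        · exact Or.inr (Or.inl h3)
      · rintro (h1 | h1 | h1)
        · have := hYm i h1
          omega
        · omega
        · have := hZm i h1
          omega
    · rw [Finset.disjoint_left]
      intro i hi hi'
      rcases Finset.mem_insert.1 hi' with h1 | h1
      · exact hlenY (h1 ▸ hi)
      · exact Finset.disjoint_left.1 h.disj hi h1
    · intro i h1 h2 j h3 h4
      rw [hlen] at h4
      exact htop i h1 h2 j h3 h4
    · intro i hi j hj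
      rcases Finset.mem_insert.1 hi with rfl | h1
      · rcases Finset.mem_insert.1 hj with rfl | h2
        · exact RCD.lt_irrefl _ _
        · have := hZm j h2
          exact habo j (by omega) this.2
      · have h3 := hZm i h1
        rcases Finset.mem_insert.1 hj with rfl | h2
        · rw [hbel i (by omega) h3.2]
          exact hZb i h1
        · exact hanti i h1 j h2
    · intro i hi j hj
      rcases Finset.mem_insert.1 hi with rfl | h1
      · have := hYm j hj
        exact habo j (by omega) this.2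
      · exact hfree i h1 j hj
    · rw [Finset.card_insert_of_notMem hlenZ, h.card]
    · rw [cols_insert_last fun i hi => (hZm i hi).2,
        cols_pre2 (List.prefix_append s _) fun i hi => (hYm i hi).2]
      exact Finset.union_subset hXY h.col
  · refine c2 hXY _ hlen (cols_insert_last fun i hi => (hYm i hi).2) ?_
    refine ⟨hbase, hpre, ?_, ?_, ?_, ?_, hanti, ?_, h.card, ?_⟩
    · intro i
      rw [hlen, Finset.mem_insert]
      constructor
      · rintro ⟨h1, h2⟩
        rcases Nat.lt_succ_iff_lt_or_eq.1 h2 with h3 | h3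
        · rcases (h.split i).1 ⟨h1, h3⟩ with h4 | h4
          · exact Or.inl (Or.inr h4)
          · exact Or.inr h4
        · exact Or.inl (Or.inl h3)
      · rintro ((h1 | h1) | h1)
        · omega
        · have := hYm i h1
          omega
        · have := hZm i h1
          omega
    · rw [Finset.disjoint_left]
      intro i hi hi'
      rcases Finset.mem_insert.1 hi with h1 | h1
      · exact hlenZ (h1 ▸ hi')
      · exact Finset.disjoint_left.1 h.disj h1 hi'
    · intro i h1 h2 j h3 h4
      rw [hlen] at h4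
      exact htop i h1 h2 j h3 h4
    · intro i hi j hj hij
      rcases Finset.mem_insert.1 hi with rfl | h1
      · rcases Finset.mem_insert.1 hj with rfl | h2
        · exact absurd rfl hij
        · have := hYm j h2
          exact Or.inr ((hbel j (by omega) this.2).2 (hYb j h2))
      · have h3 := hYm i h1
        rcases Finset.mem_insert.1 hj with rfl | h2
        · exact Or.inl ((hbel i (by omega) h3.2).2 (hYb i h1))
        · exact hchain i h1 j h2 hij
    · intro i hi j hj
      have h3 := hZm i hi
      rcases Finset.mem_insert.1 hj with rfl | h2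
      · rw [hbel i (by omega) h3.2]
        exact hZb i hi
      · exact hfree i hi j h2
    · rw [cols_insert_last fun i hi => (hYm i hi).2,
        cols_pre2 (List.prefix_append s _) fun i hi => (hZm i hi).2]
      exact h.col.trans Finset.subset_union_right

/-- The first player can reach `w - 1` caps. -/
theorem cap_loop {u m k w : ℕ} (hw : 1 ≤ w) {s₀ : Pos} {B A : Finset ℕ} (hS : Slot u w s₀ B A)
    {t : Pos} (ht0 : s₀.length ≤ t.length) (N : ℕ) : ∀ (n : ℕ) (s : Pos) (Y Z : Finset ℕ),
      n < w → (k - (cols s Y).card) + (w - 1 - n) ≤ N → Cap u m k s₀ B A t n s Y Z →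
      Frc2 u m k (fun s' => ∃ Y' Z', Cap u m k s₀ B A t (w - 1) s' Y' Z') s := by
  induction N with
  | zero =>
    intro n s Y Z hn hN h
    refine Frc2.done s ⟨Y, Z, ?_⟩
    have : n = w - 1 := by omega
    rw [← this]
    exact h
  | succ N ih =>
    intro n s Y Z hn hN h
    by_cases hn1 : n = w - 1
    · refine Frc2.done s ⟨Y, Z, ?_⟩
      rw [← hn1]
      exact h
    refine cap_step hS hn h ht0 fun X hX1 hX2 => ⟨?_, ?_⟩
    · intro hXY s' hl hc1 hc2 hcap
      refine ih (n + 1) s' Y (insert s.length Z) (by omega) ?_ hcap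
      rw [hc2]
      omega
    · intro hXY s' hl hc hcap
      refine ih n s' (insert s.length Y) Z hn ?_ hcap
      have h1 : (cols s Y).card + 1 ≤ (cols s' (insert s.length Y)).card := by
        rw [hc]
        refine Finset.card_lt_card ⟨Finset.subset_union_right, fun h2 => hXY ?_⟩
        exact Finset.subset_union_left.trans h2
      have h2 : (cols s' (insert s.length Y)).card ≤ k := by
        have h3 := cols_le (m := m) (k := k) hcap.base.leg (C := insert s.length Y) fun i hi =>
          ((hcap.split i).2 (Or.inl hi)).2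
        have := Finset.card_le_card h3
        rwa [Finset.card_range] at this
      omega

end Pool.Agent.RCD
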