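import Pool.Agent.RCD.Avg

/-!
RCD/Low (MP_920410_lc). Lower bounds for `F`. Induction on `u`: `rho v ≥ v` and
`rho v ≥ 2 v - 2 √v - 2` (`Nat.sqrt v ≤ √v`), and `3 (u + 1) √(u + 1) - 3 u √u ≥ 3 √(u + 1) ≥ 1 + 2 √(u + 1)`.
-/

set_option autoImplicit false

namespace Pool.Agent.RCD

theorem F_tri (u : ℕ) : u * (u + 1) / 2 ≤ F u := by
  induction u with
  | zero => simp [F]
  | succ u ih =>
    have h1 : u + 1 ≤ rho (u + 1) := le_max_left _ _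
    have h2 : (u + 1) * (u + 1 + 1) = u * (u + 1) + 2 * (u + 1) := by ring
    rw [F, h2]
    omega

theorem rho_real (v : ℕ) : 2 * (v : ℝ) - 2 * √v - 2 ≤ rho v := by
  have h1 : 2 * v - (2 * Nat.sqrt v + 2) ≤ rho v := le_max_right _ _
  have h2 : 2 * v ≤ rho v + (2 * Nat.sqrt v + 2) := by omega
  have h3 : 2 * (v : ℝ) ≤ rho v + (2 * (Nat.sqrt v : ℝ) + 2) := by exact_mod_cast h2
  have h4 : ((Nat.sqrt v : ℕ) : ℝ) ≤ √v := Real.nat_sqrt_le_real_sqrt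
  linarith

theorem F_sq (u : ℕ) : (u : ℝ) ^ 2 - 3 * u * √u ≤ F u := by
  induction u with
  | zero => simp [F]
  | succ u ih =>
    have h1 := rho_real (u + 1)
    have h2 : √(u : ℝ) ≤ √((u + 1 : ℕ) : ℝ) := Real.sqrt_le_sqrt (by push_cast; linarith)
    have h3 : (1 : ℝ) ≤ √((u + 1 : ℕ) : ℝ) := by
      rw [Real.one_le_sqrt]
      push_cast
      have : (0 : ℝ) ≤ u := Nat.cast_nonneg u
      linarith
    have h4 : (u : ℝ) * √(u : ℝ) ≤ u * √((u + 1 : ℕ) : ℝ) :=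
      mul_le_mul_of_nonneg_left h2 (Nat.cast_nonneg u)
    rw [F]
    push_cast at h1 h2 h3 h4 ⊢
    nlinarith

/-- `F u / (u + 1) ^ 2` is eventually above every number below `1`. -/
theorem F_lim (c : ℝ) (hc : c < 1) : ∃ u₀ : ℕ, ∀ u : ℕ, u₀ ≤ u → c * ((u : ℝ) + 1) ^ 2 ≤ F u := by
  obtain ⟨n, hn⟩ := exists_nat_ge ((6 / (1 - c)) ^ 2)
  refine ⟨n + 1, fun u hu => ?_⟩
  have hd : 0 < 1 - c := by linarith
  have hu1 : (1 : ℝ) ≤ u := by exact_mod_cast (by omega : 1 ≤ u)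
  have hnu : (n : ℝ) ≤ u := by exact_mod_cast (by omega : n ≤ u)
  have h1 : 6 / (1 - c) ≤ √(u : ℝ) := Real.le_sqrt_of_sq_le (hn.trans hnu)
  have h2 : 6 ≤ (1 - c) * √(u : ℝ) := by
    rw [div_le_iff₀ hd] at h1
    linarith
  have h3 : √(u : ℝ) * √(u : ℝ) = u := Real.mul_self_sqrt (Nat.cast_nonneg u)
  have h4 : (1 : ℝ) ≤ √(u : ℝ) := by
    rw [Real.one_le_sqrt]
    exact hu1
  have h5 := F_sq u
  -- `6 u √u ≤ (1 - c) u ^ 2`
  have h6 : 6 * ((u : ℝ) * √(u : ℝ)) ≤ (1 - c) * (u : ℝ) ^ 2 := by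
    have : (6 : ℝ) * (u * √(u : ℝ)) ≤ (1 - c) * √(u : ℝ) * (u * √(u : ℝ)) :=
      mul_le_mul_of_nonneg_right h2 (by positivity)
    have e : (1 - c) * √(u : ℝ) * (u * √(u : ℝ)) = (1 - c) * (u : ℝ) ^ 2 := by
      rw [show (1 - c) * √(u : ℝ) * (u * √(u : ℝ)) = (1 - c) * u * (√(u : ℝ) * √(u : ℝ)) by ring, h3]
      ring
    linarith
  have h7 : (u : ℝ) ≤ u * √(u : ℝ) := le_mul_of_one_le_right (by linarith) h4
  rcases le_or_gt c 0 with h0 | h0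
  · have h8 : (0 : ℝ) ≤ F u := Nat.cast_nonneg _
    have h9 : c * ((u : ℝ) + 1) ^ 2 ≤ 0 := mul_nonpos_of_nonpos_of_nonneg h0 (by positivity)
    linarith
  · have h8 : c * (2 * (u : ℝ) + 1) ≤ 2 * u + 1 := by
      have : (0 : ℝ) ≤ 2 * u + 1 := by linarith
      nlinarith
    nlinarith

end Pool.Agent.RCD
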