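import Pool.Agent.RCD.Term
import Pool.Agent.RCD.Low
import Pool.Agent.RCD.Core

/-!
RCD/Fin2 (MP_920410_lc). `b (u * v) ≥ F u * b v`.
-/

set_option autoImplicit false

namespace Pool.Agent.RCD

open Pool.Agent.RCC (b b_le le_b Cov)

/-- The product inequality. -/
theorem b_mul2 (u v : ℕ) (hu : 1 ≤ u) : ((F u : ℕ) : ℕ∞) * b v ≤ b (u * v) := by
  classical
  obtain ⟨T, hT⟩ : ∃ T, T = F u := ⟨_, rfl⟩
  rw [← hT]
  rcases Nat.eq_zero_or_pos T with h0 | hT1
  · rw [h0]
    simp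
  refine le_b fun k hk => ?_
  have h1 : Cov v (k / T) := by
    by_contra h
    have h2 : T * (k / T + 1) ≤ k := by
      refine core2 hu ?_ hk h
      refine (frc_term u (k / T + 1) k (Nat.le_add_left 1 _)).bind fun s hs => Frc2.done s ?_
      have h3 := count2 hs
      rwa [← hT] at h3
    have h3 : k < (k / T + 1) * T := by
      have := Nat.lt_div_mul_add (a := k) (b := T) hT1
      nlinarith
    nlinarith
  calc ((T : ℕ) : ℕ∞) * b v ≤ (T : ℕ∞) * ((k / T : ℕ) : ℕ∞) := by gcongr; exact b_le h1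
    _ = ((T * (k / T) : ℕ) : ℕ∞) := by push_cast; rfl
    _ ≤ (k : ℕ∞) := by exact_mod_cast Nat.mul_div_le k T

end Pool.Agent.RCD
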