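import Pool.Agent.RCD.Pos2

/-!
RCD/Force2 (MP_920410_lc). The m-fold version of Szemeredi's strategy in a slot. Copy of
RCC/Force.lean; `Hyp` becomes `Slot`, `Base` becomes `Base2`, the slots are made with `slot_of`
(`A₁ = ∅`; `B₁` = all new elements for the new top element, `B₁` = all new elements except `R` for
`reforce`), the positions with `base_snoc` and `base_trans`.
-/

set_option autoImplicit false

namespace Pool.Agent.RCD

open Pool.Agent.RCC (Pos dn cl cols dn_append_lt cl_append_lt dn_last cl_last)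

/-- The goal: in the slot `(B, A)` of the position `s₀` there are `w` disjoint chains, up-closed
among the new elements, the `i`-th one with at least `i * m` colours. -/
def Phi2 (u m k w : ℕ) (s₀ : Pos) (B A : Finset ℕ) (s : Pos) : Prop :=
  Base2 u m k s₀ B A s ∧
    ∃ C : ℕ → Finset ℕ,
      (∀ i, 1 ≤ i → i ≤ w → UC2 s₀.length s (C i) ∧ i * m ≤ (cols s (C i)).card) ∧
      ∀ i j, 1 ≤ i → i < j → j ≤ w → Disjoint (C i) (C j)

theorem disj_cols2 {m k n₀ : ℕ} {s : Pos} (hs : Leg2 m k s) {C C' : Finset ℕ}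
    (hC : UC2 n₀ s C) (hC' : UC2 n₀ s C') (hd : Disjoint C C') :
    Disjoint (cols s C) (cols s C') := by
  rw [Finset.disjoint_left]
  intro c hc hc'
  unfold cols at hc hc'
  rw [Finset.mem_biUnion] at hc hc'
  obtain ⟨i, hi, hci⟩ := hc
  obtain ⟨j, hj, hcj⟩ := hc'
  rw [Finset.disjoint_left] at hd
  obtain ⟨hi0, hi1⟩ := hC.mem i hi
  obtain ⟨hj0, hj1⟩ := hC'.mem j hj
  have hij : i ≠ j := fun h => hd hi (h ▸ hj)
  have h1 : ¬ lt s i j := fun h => hd (hC.up i hi j hj0 hj1 h) hj
  have h2 : ¬ lt s j i := fun h => hd hi (hC'.up j hj i hi0 hi1 h)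
  exact Finset.disjoint_left.1 (hs.disj i hi1 j hj1 hij h1 h2) hci hcj

/-- The state of the loop. -/
private def Loop2 (u m k w : ℕ) (s₀ : Pos) (B A : Finset ℕ) (U : ℕ) (s : Pos) : Prop :=
  Base2 u m k s₀ B A s ∧ ∃ R : Finset ℕ, UC2 s₀.length s R ∧ U ≤ (cols s R).card ∧
    ∃ C : ℕ → Finset ℕ,
      (∀ i, 1 ≤ i → i ≤ w → UC2 s₀.length s (C i) ∧ i * m ≤ (cols s (C i)).card) ∧
      (∀ i j, 1 ≤ i → i < j → j ≤ w → Disjoint (C i) (C j)) ∧
      ∀ i, 1 ≤ i → i ≤ w → Disjoint (C i) R

private theorem reforce2 {u m k w : ℕ} (IH : ∀ (s : Pos) (B A : Finset ℕ), Ord2 u s →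
      Leg2 m k s → Slot u w s B A → Frc2 u m k (Phi2 u m k w s B A) s)
    {s₀ : Pos} {B A : Finset ℕ} (hS : Slot u (w + 1) s₀ B A) {t : Pos}
    (ht : Base2 u m k s₀ B A t) {R : Finset ℕ} (hR : UC2 s₀.length t R) {U : ℕ}
    (hU : U ≤ (cols t R).card) : Frc2 u m k (Loop2 u m k w s₀ B A U) t := by
  have hlen := ht.pre.length_le
  set B₁ : Finset ℕ := Finset.Ico s₀.length t.length \ R with hB₁
  have hmem : ∀ i, i ∈ B₁ ↔ (s₀.length ≤ i ∧ i < t.length) ∧ i ∉ R := by
    intro i
    simp [hB₁]
  have hsl : Slot u w t (B ∪ B₁) (A ∪ ∅) := by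
    refine slot_of hS ht (fun i hi => ((hmem i).1 hi).1) (by simp) ?_ (by simp) (by simp) ?_
    · intro i hi h hh1 hh2 hlt
      obtain ⟨h3, h4⟩ := (hmem i).1 hi
      exact (hmem h).2 ⟨⟨hh1, hh2⟩, fun h5 => h4 (hR.up h h5 i h3.1 h3.2 hlt)⟩
    · intro X hX hXn hd _
      rw [Finset.disjoint_left] at hd
      have h6 : ∀ i ∈ X, i ∈ R := by
        intro i hi
        by_contra h9
        exact hd hi ((hmem i).2 ⟨⟨hXn i hi, hX.1 i hi⟩, h9⟩)
      have h5 : X.card ≤ 1 := by
        rw [Finset.card_le_one]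
        intro i hi j hj
        by_contra hij
        rcases hR.chain i (h6 i hi) j (h6 j hj) hij with h | h
        · exact hX.2 i hi j hj h
        · exact hX.2 j hj i hi h
      omega
  refine (IH t _ _ ht.ord ht.leg hsl).bind ?_
  rintro t' ⟨hb, C, hC, hCd⟩
  have hlen' := hb.pre.length_le
  have hbt : Base2 u m k s₀ B A t' :=
    base_trans ht (fun i hi => ((hmem i).1 hi).1.1) (by simp) hb
  refine Frc2.done _ ⟨hbt, R, ?_, ?_, C, ?_, hCd, ?_⟩
  · refine ⟨fun i hi => ⟨(hR.mem i hi).1, (hR.mem i hi).2.trans_le hlen'⟩, ?_, ?_⟩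
    · intro i hi j hj1 hj2 hlt
      obtain ⟨h3, h4⟩ := hR.mem i hi
      rcases lt_or_ge j t.length with h | h
      · rw [lt_pre hb.pre h4 h] at hlt
        exact hR.up i hi j hj1 h hlt
      · rw [hb.below j h hj2 i h4, Finset.mem_union] at hlt
        rcases hlt with h5 | h5
        · exact absurd (hS.ltB i h5) (not_lt.2 h3)
        · exact absurd hi ((hmem i).1 h5).2
    · intro i hi j hj hij
      rw [lt_pre hb.pre (hR.mem i hi).2 (hR.mem j hj).2, lt_pre hb.pre (hR.mem j hj).2
        (hR.mem i hi).2]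
      exact hR.chain i hi j hj hij
  · rw [cols_pre2 hb.pre fun i hi => (hR.mem i hi).2]
    exact hU
  · intro i hi1 hi2
    obtain ⟨h4, h5⟩ := hC i hi1 hi2
    refine ⟨⟨fun x hx => ⟨hlen.trans (h4.mem x hx).1, (h4.mem x hx).2⟩, ?_, h4.chain⟩, h5⟩
    intro x hx j hj1 hj2 hlt
    rcases lt_or_ge j t.length with h | h
    · rw [hb.above x (h4.mem x hx).1 (h4.mem x hx).2 j h, Finset.mem_union] at hlt
      rcases hlt with h6 | h6
      · exact absurd (hS.ltA j h6) (not_lt.2 hj1)
      · exact absurd h6 (Finset.notMem_empty _)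
    · exact h4.up x hx j h hj2 hlt
  · intro i hi1 hi2
    obtain ⟨h4, h5⟩ := hC i hi1 hi2
    rw [Finset.disjoint_left]
    exact fun x hx hxR => absurd (hR.mem x hxR).2 (not_lt.2 (h4.mem x hx).1)

private theorem done_loop2 {u m k w : ℕ} {s₀ : Pos} {B A : Finset ℕ} {t : Pos}
    (ht : Loop2 u m k w s₀ B A ((w + 1) * m) t) : Phi2 u m k (w + 1) s₀ B A t := by
  obtain ⟨hb, R, hR, hU, C, hC, hCd, hCR⟩ := ht
  refine ⟨hb, fun i => if i = w + 1 then R else C i, ?_, ?_⟩
  · intro i h1 h2
    by_cases h : i = w + 1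
    · subst h
      simp only [if_true]
      exact ⟨hR, hU⟩
    · simp only [if_neg h]
      exact hC i h1 (by omega)
  · intro i j h1 h2 h3
    have hi : i ≠ w + 1 := by omega
    simp only [if_neg hi]
    by_cases h : j = w + 1
    · simp only [if_pos h]
      exact hCR i h1 (by omega)
    · simp only [if_neg h]
      exact hCd i j h1 h2 (by omega)

private theorem top_uc2 {u w : ℕ} {s₀ : Pos} {B A : Finset ℕ} (hS : Slot u w s₀ B A)
    {t : Pos} {X R : Finset ℕ} (hlen : s₀.length ≤ t.length) (hR : UC2 s₀.length t R) :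
    UC2 s₀.length (t ++ [(code (B ∪ Finset.Ico s₀.length t.length) (A ∪ ∅), X)])
      (insert t.length R) := by
  have hl : (t ++ [(code (B ∪ Finset.Ico s₀.length t.length) (A ∪ ∅), X)]).length =
      t.length + 1 := by simp
  have htop : ∀ i ∈ R, lt (t ++ [(code (B ∪ Finset.Ico s₀.length t.length) (A ∪ ∅), X)])
      i t.length := by
    intro i hi
    rw [lt_last (hR.mem i hi).2]
    exact Finset.mem_union_right _ (Finset.mem_Ico.2 (hR.mem i hi))
  refine ⟨?_, ?_, ?_⟩
  · intro i hi
    rw [hl]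
    rcases Finset.mem_insert.1 hi with rfl | h
    · omega
    · have := hR.mem i h
      omega
  · intro i hi j hj1 hj2 hlt
    rw [hl] at hj2
    rcases Nat.lt_succ_iff_lt_or_eq.1 hj2 with h | h
    · rcases Finset.mem_insert.1 hi with rfl | h1
      · rw [last_lt h, Finset.mem_union] at hlt
        rcases hlt with h6 | h6
        · exact absurd (hS.ltA j h6) (not_lt.2 hj1)
        · exact absurd h6 (Finset.notMem_empty _)
      · rw [lt_append (hR.mem i h1).2 h] at hlt
        exact Finset.mem_insert_of_mem (hR.up i h1 j hj1 h hlt)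
    · rw [h]
      exact Finset.mem_insert_self _ _
  · intro i hi j hj hij
    rcases Finset.mem_insert.1 hj with rfl | h1
    · rcases Finset.mem_insert.1 hi with rfl | h2
      · exact absurd rfl hij
      · exact Or.inl (htop i h2)
    · rcases Finset.mem_insert.1 hi with rfl | h2
      · exact Or.inr (htop j h1)
      · rw [lt_append (hR.mem i h2).2 (hR.mem j h1).2, lt_append (hR.mem j h1).2 (hR.mem i h2).2]
        exact hR.chain i h2 j h1 hij

private theorem cols_top2 {t : Pos} {S X R : Finset ℕ} (hR : ∀ i ∈ R, i < t.length) :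
    cols (t ++ [(S, X)]) (insert t.length R) = X ∪ cols t R := by
  have h1 : cols (t ++ [(S, X)]) (insert t.length R) =
      cl (t ++ [(S, X)]) t.length ∪ cols (t ++ [(S, X)]) R := by
    unfold cols
    rw [Finset.biUnion_insert]
  rw [h1, cl_last, cols_pre2 (List.prefix_append t [(S, X)]) hR]

private theorem loop2 {u m k w : ℕ} (_hm : 1 ≤ m) (IH : ∀ (s : Pos) (B A : Finset ℕ), Ord2 u s →
      Leg2 m k s → Slot u w s B A → Frc2 u m k (Phi2 u m k w s B A) s)
    {s₀ : Pos} {B A : Finset ℕ} (hS : Slot u (w + 1) s₀ B A) (n : ℕ) :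
    ∀ U, U + n = (w + 1) * m → ∀ t, Loop2 u m k w s₀ B A U t →
      Frc2 u m k (Phi2 u m k (w + 1) s₀ B A) t := by
  induction n with
  | zero =>
    intro U hU t ht
    rw [Nat.add_zero] at hU
    subst hU
    exact Frc2.done _ (done_loop2 ht)
  | succ n ih =>
    intro U hU t ht
    by_cases hdone : Loop2 u m k w s₀ B A ((w + 1) * m) t
    · exact Frc2.done _ (done_loop2 hdone)
    have ht' := ht
    obtain ⟨hb, R, hR, hUR, C, hC, hCd, hCR⟩ := ht'
    have hsmall : (cols t R).card < (w + 1) * m := by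
      by_contra h
      exact hdone ⟨hb, R, hR, not_lt.1 h, C, hC, hCd, hCR⟩
    have hlen := hb.pre.length_le
    have hsl : Slot u 1 t (B ∪ Finset.Ico s₀.length t.length) (A ∪ ∅) := by
      refine slot_of hS hb (fun i hi => Finset.mem_Ico.1 hi) (by simp) ?_ (by simp) (by simp) ?_
      · intro i _ h hh1 hh2 _
        exact Finset.mem_Ico.2 ⟨hh1, hh2⟩
      · intro Y hY hYn hd _
        rw [Finset.disjoint_left] at hd
        have h6 : Y = ∅ := by
          rw [Finset.eq_empty_iff_forall_notMem]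
          exact fun i hi => hd hi (Finset.mem_Ico.2 ⟨hYn i hi, hY.1 i hi⟩)
        rw [h6, Finset.card_empty]
        omega
    refine Frc2.step t _ _ hsl fun X hX => ?_
    have hb' : Base2 u m k s₀ B A
        (t ++ [(code (B ∪ Finset.Ico s₀.length t.length) (A ∪ ∅), X)]) :=
      base_snoc hb (fun i hi => (Finset.mem_Ico.1 hi).1) (by simp) hsl hX
    by_cases hX' : X ⊆ cols t R
    · -- a colour set inside that of `R`
      have hw : 1 ≤ w := by
        by_contra h
        have h0 : w = 0 := by omega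
        have h1 := hX.2.1.trans (Finset.card_le_card hX')
        rw [h0] at hsmall
        omega
      obtain ⟨h1, h3⟩ := hC w hw le_rfl
      have h4 : Disjoint X (cols t (C w)) :=
        (disj_cols2 hb.leg hR h1 (hCR w hw le_rfl).symm).mono_left hX'
      have h5 : (w + 1) * m ≤
          (cols (t ++ [(code (B ∪ Finset.Ico s₀.length t.length) (A ∪ ∅), X)])
            (insert t.length (C w))).card := by
        rw [cols_top2 fun i hi => (h1.mem i hi).2, Finset.card_union_of_disjoint h4]
        have := hX.2.1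
        nlinarith
      exact (reforce2 IH hS hb' (top_uc2 hS hlen h1) h5).bind fun t' h =>
        Frc2.done _ (done_loop2 h)
    · have h5 : U + 1 ≤
          (cols (t ++ [(code (B ∪ Finset.Ico s₀.length t.length) (A ∪ ∅), X)])
            (insert t.length R)).card := by
        rw [cols_top2 fun i hi => (hR.mem i hi).2]
        have h6 : cols t R ⊂ X ∪ cols t R := by
          rw [Finset.ssubset_iff_subset_ne]
          refine ⟨Finset.subset_union_right, fun h => hX' ?_⟩
          rw [h]
          exact Finset.subset_union_left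
        have := Finset.card_lt_card h6
        omega
      exact (reforce2 IH hS hb' (top_uc2 hS hlen hR) h5).bind fun t' h =>
        ih (U + 1) (by omega) t' h

theorem force2 (u m k : ℕ) (hm : 1 ≤ m) (w : ℕ) : ∀ (s : Pos) (B A : Finset ℕ), Ord2 u s →
    Leg2 m k s → Slot u w s B A → Frc2 u m k (Phi2 u m k w s B A) s := by
  induction w with
  | zero =>
    intro s B A ho hl _
    exact Frc2.done _ ⟨base_refl ho hl B A, fun _ => ∅, fun i h1 h2 => absurd h1 (by omega),
      fun i j h1 h2 h3 => absurd h3 (by omega)⟩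
  | succ w ih =>
    intro s B A ho hl hS
    have hR : UC2 s.length s ∅ := ⟨by simp, by simp, by simp⟩
    exact (reforce2 ih hS (base_refl ho hl B A) hR (Nat.zero_le _)).bind
      fun t ht => loop2 hm ih hS ((w + 1) * m) 0 (Nat.zero_add _) t ht

end Pool.Agent.RCD
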