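import Pool.Agent.RCD.Fin2

/-!
RCD/Lim (MP_920410_lc). The limit. For `v ≥ 1`, `u ≥ 1` and `u v ≤ w < (u + 1) v`:
`b w ≥ b (u v) ≥ F u * b v` (`RCC.b_mono`), so `b w / w ^ 2 ≥ (F u / (u + 1) ^ 2) * (b v / v ^ 2)` in `ℝ≥0∞`, and
`F u / (u + 1) ^ 2` is eventually above every `c < 1` (`F_lim`), `u = w / v`. So the liminf is at
least `b v / v ^ 2` for every `v` (for `v = 0` this is `0`: `b 0 = 0`, see `dichotomy` in RCC/Final); the limsup is at
most the supremum. `tendsto_of_le_liminf_of_limsup_le`.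
-/

set_option autoImplicit false

namespace Pool.Agent.RCD

open Filter Topology
open scoped ENNReal
open Pool.Agent.RCC (b)

/-- The quotient `b w / w ^ 2`. -/
noncomputable def q (w : ℕ) : ℝ≥0∞ := ENat.toENNReal (b w) / (w : ℝ≥0∞) ^ 2

private theorem q_zero : q 0 = 0 := by
  have h3 : Pool.Agent.RCC.Cov 0 0 := by
    intro P r hP hw
    refine ⟨fun i => i.elim0, fun i => i.elim0, fun x hx => ?_⟩
    have := hw.2 {x} ⟨by simpa using hx, by simp⟩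
    simp at this
  have h4 : b 0 = 0 := by
    refine le_antisymm ?_ bot_le
    have := Pool.Agent.RCC.b_le h3
    rwa [Nat.cast_zero] at this
  rw [q, h4, ENat.toENNReal_zero, ENNReal.zero_div]

theorem q_liminf (v : ℕ) (c : ℝ≥0∞) (hc : c < q v) : ∀ᶠ w in atTop, c ≤ q w := by
  rcases Nat.eq_zero_or_pos v with rfl | hv
  · rw [q_zero] at hc
    exact absurd hc not_lt_bot
  have h1 : Tendsto (fun d : ℝ => ENNReal.ofReal d * q v) (𝓝[<] 1) (𝓝 (ENNReal.ofReal 1 * q v)) :=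
    ENNReal.Tendsto.mul_const ((ENNReal.continuous_ofReal.tendsto 1).mono_left nhdsWithin_le_nhds)
      (Or.inl (by simp))
  rw [ENNReal.ofReal_one, one_mul] at h1
  obtain ⟨d, hd1, hd2⟩ := ((h1.eventually (lt_mem_nhds hc)).and self_mem_nhdsWithin).exists
  obtain ⟨u₀, hu₀⟩ := F_lim d hd2
  filter_upwards [eventually_ge_atTop ((u₀ + 1) * v)] with w hw
  obtain ⟨u, hu⟩ : ∃ u, u = w / v := ⟨_, rfl⟩
  have h2 : u₀ + 1 ≤ u := by
    rw [hu, Nat.le_div_iff_mul_le hv]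
    exact hw
  have h3 : u * v ≤ w := by
    rw [hu]
    exact Nat.div_mul_le_self w v
  have h4 : w ≤ (u + 1) * v := by
    rw [hu]
    have := Nat.lt_div_mul_add (a := w) (b := v) hv
    nlinarith
  have hw0 : w ≠ 0 := by
    have : 1 ≤ u * v := Nat.mul_pos (by omega) hv
    omega
  have h5 : ((F u : ℕ) : ℝ≥0∞) * ENat.toENNReal (b v) ≤ ENat.toENNReal (b w) := by
    have h6 := (b_mul2 u v (by omega)).trans (Pool.Agent.RCC.b_mono h3)
    have h7 := ENat.toENNReal_le.2 h6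
    rwa [ENat.toENNReal_mul, ENat.toENNReal_coe] at h7
  have h6 : ENNReal.ofReal d * ((u : ℝ≥0∞) + 1) ^ 2 ≤ ((F u : ℕ) : ℝ≥0∞) := by
    have h7 := ENNReal.ofReal_le_ofReal (hu₀ u (by omega))
    rw [ENNReal.ofReal_natCast, ENNReal.ofReal_mul' (by positivity),
      ENNReal.ofReal_pow (by positivity), ENNReal.ofReal_add (by positivity) zero_le_one,
      ENNReal.ofReal_natCast, ENNReal.ofReal_one] at h7
    exact h7
  have h7 : (w : ℝ≥0∞) ^ 2 ≤ (((u : ℝ≥0∞) + 1) * v) ^ 2 := by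
    have h8 : (w : ℝ≥0∞) ≤ ((u : ℝ≥0∞) + 1) * v := by exact_mod_cast h4
    gcongr
  have hv0 : ((v : ℝ≥0∞)) ^ 2 ≠ 0 := by
    simp only [ne_eq, OfNat.ofNat_ne_zero, not_false_eq_true, pow_eq_zero_iff, Nat.cast_eq_zero]
    omega
  have hvt : ((v : ℝ≥0∞)) ^ 2 ≠ ⊤ := ENNReal.pow_ne_top (ENNReal.natCast_ne_top v)
  refine hd1.le.trans ?_
  have hw1 : ((w : ℝ≥0∞)) ^ 2 ≠ 0 := by
    simp only [ne_eq, OfNat.ofNat_ne_zero, not_false_eq_true, pow_eq_zero_iff, Nat.cast_eq_zero]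
    exact hw0
  have hwt : ((w : ℝ≥0∞)) ^ 2 ≠ ⊤ := ENNReal.pow_ne_top (ENNReal.natCast_ne_top w)
  rw [q, q, ENNReal.le_div_iff_mul_le (Or.inl hw1) (Or.inl hwt)]
  calc ENNReal.ofReal d * (ENat.toENNReal (b v) / (v : ℝ≥0∞) ^ 2) * (w : ℝ≥0∞) ^ 2
      ≤ ENNReal.ofReal d * (ENat.toENNReal (b v) / (v : ℝ≥0∞) ^ 2) * (((u : ℝ≥0∞) + 1) * v) ^ 2 := by
        gcongr
    _ = ENNReal.ofReal d * ((u : ℝ≥0∞) + 1) ^ 2 *
        (ENat.toENNReal (b v) / (v : ℝ≥0∞) ^ 2 * (v : ℝ≥0∞) ^ 2) := by ring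
    _ = ENNReal.ofReal d * ((u : ℝ≥0∞) + 1) ^ 2 * ENat.toENNReal (b v) := by
        rw [ENNReal.div_mul_cancel hv0 hvt]
    _ ≤ ((F u : ℕ) : ℝ≥0∞) * ENat.toENNReal (b v) := by gcongr
    _ ≤ ENat.toENNReal (b w) := h5

theorem tendsto_q : Tendsto q atTop (𝓝 (⨆ v, q v)) := by
  rw [tendsto_order]
  constructor
  · intro a ha
    obtain ⟨v, hv⟩ := lt_iSup_iff.1 ha
    obtain ⟨c, h1, h2⟩ := exists_between hv
    filter_upwards [q_liminf v c h2] with w hw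
    exact h1.trans_le hw
  · intro a ha
    exact Eventually.of_forall fun w => (le_iSup q w).trans_lt ha

end Pool.Agent.RCD
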