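import Pool.Agent.RCC.Pos

/-!
RCD/Pos2 (MP_920410_lc). Positions of the two-sided game: element number `j` of the list `s` comes
with the code `dn s j` of the elements below (`2 * i`) and above (`2 * i + 1`) it among the previous
ones, and the set `cl s j` of its colours.
-/

set_option autoImplicit false

namespace Pool.Agent.RCD

open Pool.Agent.RCC (Pos dn cl cols dn_append_lt cl_append_lt dn_last cl_last)

/-- Element `i` is below element `j`. -/
def lt (s : Pos) (i j : ℕ) : Prop :=
  (i < j ∧ 2 * i ∈ dn s j) ∨ (j < i ∧ 2 * j + 1 ∈ dn s i)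

/-- The code of the set `B` of the elements below and the set `A` of the elements above. -/
def code (B A : Finset ℕ) : Finset ℕ :=
  B.image (fun i => 2 * i) ∪ A.image (fun i => 2 * i + 1)

/-- Antichains. -/
def PAnti2 (s : Pos) (X : Finset ℕ) : Prop :=
  (∀ i ∈ X, i < s.length) ∧ ∀ i ∈ X, ∀ j ∈ X, ¬ lt s i j

/-- A partial order of width at most `u`. -/
structure Ord2 (u : ℕ) (s : Pos) : Prop where
  bd : ∀ j < s.length, ∀ i ∈ dn s j, i < 2 * j
  trans : ∀ i < s.length, ∀ j < s.length, ∀ l < s.length, lt s i j → lt s j l → lt s i l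
  width : ∀ X, PAnti2 s X → X.card ≤ u

/-- The colours are legal. -/
structure Leg2 (m k : ℕ) (s : Pos) : Prop where
  sub : ∀ j < s.length, cl s j ⊆ Finset.range k
  card : ∀ j < s.length, m ≤ (cl s j).card
  disj : ∀ i < s.length, ∀ j < s.length, i ≠ j → ¬ lt s i j → ¬ lt s j i →
    Disjoint (cl s i) (cl s j)

/-- `(B, A)` is a slot of width `w`: new elements may be put above `B`, below `A` and incomparable to
the rest. -/
structure Slot (u w : ℕ) (s : Pos) (B A : Finset ℕ) : Prop where
  ltB : ∀ i ∈ B, i < s.length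
  ltA : ∀ i ∈ A, i < s.length
  dnB : ∀ i ∈ B, ∀ h < s.length, lt s h i → h ∈ B
  upA : ∀ i ∈ A, ∀ h < s.length, lt s i h → h ∈ A
  mid : ∀ i ∈ B, ∀ j ∈ A, lt s i j
  anti : ∀ X, PAnti2 s X → Disjoint X B → Disjoint X A → X.card + w ≤ u

/-- The set of colours `X` may be given to it. -/
def LegX2 (m k : ℕ) (s : Pos) (B A X : Finset ℕ) : Prop :=
  X ⊆ Finset.range k ∧ m ≤ X.card ∧ ∀ i < s.length, i ∉ B → i ∉ A → Disjoint (cl s i) X

/-- The first player can force a position with `Φ`. -/
inductive Frc2 (u m k : ℕ) (Φ : Pos → Prop) : Pos → Prop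
  | done (s : Pos) : Φ s → Frc2 u m k Φ s
  | step (s : Pos) (B A : Finset ℕ) : Slot u 1 s B A →
      (∀ X, LegX2 m k s B A X → Frc2 u m k Φ (s ++ [(code B A, X)])) → Frc2 u m k Φ s

theorem Frc2.bind {u m k : ℕ} {Φ Ψ : Pos → Prop} {s : Pos} (h : Frc2 u m k Φ s)
    (h' : ∀ t, Φ t → Frc2 u m k Ψ t) : Frc2 u m k Ψ s := by
  induction h with
  | done s hs => exact h' s hs
  | step s B A hok _ ih => exact Frc2.step s B A hok ih

theorem mem_code_even {B A : Finset ℕ} {i : ℕ} : 2 * i ∈ code B A ↔ i ∈ B := by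
  unfold code
  rw [Finset.mem_union, Finset.mem_image, Finset.mem_image]
  constructor
  · rintro (⟨j, hj, h⟩ | ⟨j, hj, h⟩)
    · obtain rfl : j = i := by omega
      exact hj
    · omega
  · exact fun h => Or.inl ⟨i, h, rfl⟩

theorem mem_code_odd {B A : Finset ℕ} {i : ℕ} : 2 * i + 1 ∈ code B A ↔ i ∈ A := by
  unfold code
  rw [Finset.mem_union, Finset.mem_image, Finset.mem_image]
  constructor
  · rintro (⟨j, hj, h⟩ | ⟨j, hj, h⟩)
    · omega
    · obtain rfl : j = i := by omega
      exact hj
  · exact fun h => Or.inr ⟨i, h, rfl⟩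

theorem lt_irrefl (s : Pos) (i : ℕ) : ¬ lt s i i := by
  rintro (⟨h, _⟩ | ⟨h, _⟩)
  · exact absurd h (Nat.lt_irrefl i)
  · exact absurd h (Nat.lt_irrefl i)

theorem lt_append {s t : Pos} {i j : ℕ} (hi : i < s.length) (hj : j < s.length) :
    lt (s ++ t) i j ↔ lt s i j := by
  unfold lt
  rw [dn_append_lt hi, dn_append_lt hj]

theorem lt_last {s : Pos} {B A X : Finset ℕ} {i : ℕ} (hi : i < s.length) :
    lt (s ++ [(code B A, X)]) i s.length ↔ i ∈ B := by
  unfold lt
  rw [dn_last, mem_code_even]
  constructor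
  · rintro (⟨_, h⟩ | ⟨h, _⟩)
    · exact h
    · omega
  · exact fun h => Or.inl ⟨hi, h⟩

theorem last_lt {s : Pos} {B A X : Finset ℕ} {i : ℕ} (hi : i < s.length) :
    lt (s ++ [(code B A, X)]) s.length i ↔ i ∈ A := by
  unfold lt
  rw [dn_last, mem_code_odd]
  constructor
  · rintro (⟨h, _⟩ | ⟨_, h⟩)
    · omega
    · exact h
  · exact fun h => Or.inr ⟨hi, h⟩

theorem ord2_asymm {u : ℕ} {s : Pos} (hs : Ord2 u s) {i j : ℕ} (hi : i < s.length)
    (hj : j < s.length) (h : lt s i j) : ¬ lt s j i := fun h' =>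
  lt_irrefl s i (hs.trans i hi j hj i hi h h')

theorem slot_disj {u w : ℕ} {s : Pos} {B A : Finset ℕ} (h : Slot u w s B A) : Disjoint B A := by
  rw [Finset.disjoint_left]
  exact fun i hi hi' => lt_irrefl s i (h.mid i hi i hi')

theorem ord2_snoc {u w : ℕ} (hw : 1 ≤ w) {s : Pos} (hs : Ord2 u s) {B A : Finset ℕ}
    (hS : Slot u w s B A) (X : Finset ℕ) : Ord2 u (s ++ [(code B A, X)]) := by
  have hlen : (s ++ [(code B A, X)]).length = s.length + 1 := by simp
  have hcase : ∀ i < (s ++ [(code B A, X)]).length, i < s.length ∨ i = s.length := by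
    intro i hi
    rw [hlen] at hi
    omega
  refine ⟨?_, ?_, ?_⟩
  · intro j hj i hi
    rcases hcase j hj with h | rfl
    · rw [dn_append_lt h] at hi
      exact hs.bd j h i hi
    · rw [dn_last] at hi
      unfold code at hi
      rw [Finset.mem_union, Finset.mem_image, Finset.mem_image] at hi
      rcases hi with ⟨l, hl, rfl⟩ | ⟨l, hl, rfl⟩
      · have := hS.ltB l hl
        omega
      · have := hS.ltA l hl
        omega
  · intro i hi j hj l hl hij hjl
    rcases hcase i hi with h1 | rfl
    · rcases hcase j hj with h2 | rfl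
      · rcases hcase l hl with h3 | rfl
        · rw [lt_append h1 h2] at hij
          rw [lt_append h2 h3] at hjl
          rw [lt_append h1 h3]
          exact hs.trans i h1 j h2 l h3 hij hjl
        · rw [lt_append h1 h2] at hij
          rw [lt_last h2] at hjl
          rw [lt_last h1]
          exact hS.dnB j hjl i h1 hij
      · rcases hcase l hl with h3 | rfl
        · rw [lt_last h1] at hij
          rw [last_lt h3] at hjl
          rw [lt_append h1 h3]
          exact hS.mid i hij l hjl
        · exact absurd hjl (lt_irrefl _ _)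
    · rcases hcase j hj with h2 | rfl
      · rcases hcase l hl with h3 | rfl
        · rw [last_lt h2] at hij
          rw [lt_append h2 h3] at hjl
          rw [last_lt h3]
          exact hS.upA j hij l h3 hjl
        · rw [last_lt h2] at hij
          rw [lt_last h2] at hjl
          exact absurd hij (Finset.disjoint_left.1 (slot_disj hS) hjl)
      · exact absurd hij (lt_irrefl _ _)
  · intro Y hY
    by_cases hn : s.length ∈ Y
    · have hlt : ∀ i ∈ Y.erase s.length, i < s.length := by
        intro i hi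
        rcases hcase i (hY.1 i (Finset.mem_of_mem_erase hi)) with h | h
        · exact h
        · exact absurd h (Finset.ne_of_mem_erase hi)
      have h1 : PAnti2 s (Y.erase s.length) := by
        refine ⟨hlt, fun i hi j hj => ?_⟩
        have h2 := hY.2 i (Finset.mem_of_mem_erase hi) j (Finset.mem_of_mem_erase hj)
        rwa [lt_append (hlt i hi) (hlt j hj)] at h2
      have h2 : Disjoint (Y.erase s.length) B := by
        rw [Finset.disjoint_left]
        intro i hi hiB
        exact hY.2 i (Finset.mem_of_mem_erase hi) _ hn ((lt_last (hlt i hi)).2 hiB)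
      have h3 : Disjoint (Y.erase s.length) A := by
        rw [Finset.disjoint_left]
        intro i hi hiA
        exact hY.2 _ hn i (Finset.mem_of_mem_erase hi) ((last_lt (hlt i hi)).2 hiA)
      have h4 := hS.anti _ h1 h2 h3
      rw [Finset.card_erase_of_mem hn] at h4
      have h5 := Finset.card_pos.2 ⟨_, hn⟩
      omega
    · have hlt : ∀ i ∈ Y, i < s.length := by
        intro i hi
        rcases hcase i (hY.1 i hi) with h | h
        · exact h
        · exact absurd (h ▸ hi) hn
      refine hs.width Y ⟨hlt, fun i hi j hj => ?_⟩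
      have h2 := hY.2 i hi j hj
      rwa [lt_append (hlt i hi) (hlt j hj)] at h2

theorem leg2_snoc {m k : ℕ} {s : Pos} (hs : Leg2 m k s) {B A X : Finset ℕ}
    (hX : LegX2 m k s B A X) : Leg2 m k (s ++ [(code B A, X)]) := by
  have hlen : (s ++ [(code B A, X)]).length = s.length + 1 := by simp
  have hcase : ∀ i < (s ++ [(code B A, X)]).length, i < s.length ∨ i = s.length := by
    intro i hi
    rw [hlen] at hi
    omega
  refine ⟨?_, ?_, ?_⟩
  · intro j hj
    rcases hcase j hj with h | rfl
    · rw [cl_append_lt h]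
      exact hs.sub j h
    · rw [cl_last]
      exact hX.1
  · intro j hj
    rcases hcase j hj with h | rfl
    · rw [cl_append_lt h]
      exact hs.card j h
    · rw [cl_last]
      exact hX.2.1
  · intro i hi j hj hij h1 h2
    rcases hcase i hi with h3 | rfl
    · rcases hcase j hj with h4 | rfl
      · rw [lt_append h3 h4] at h1
        rw [lt_append h4 h3] at h2
        rw [cl_append_lt h3, cl_append_lt h4]
        exact hs.disj i h3 j h4 hij h1 h2
      · rw [lt_last h3] at h1
        rw [last_lt h3] at h2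
        rw [cl_last, cl_append_lt h3]
        exact hX.2.2 i h3 h1 h2
    · rcases hcase j hj with h4 | rfl
      · rw [last_lt h4] at h1
        rw [lt_last h4] at h2
        rw [cl_last, cl_append_lt h4]
        exact (hX.2.2 j h4 h2 h1).symm
      · exact absurd rfl hij

/-- The positions reached by playing in the slot `(B, A)` of `s₀`. -/
structure Base2 (u m k : ℕ) (s₀ : Pos) (B A : Finset ℕ) (s : Pos) : Prop where
  ord : Ord2 u s
  leg : Leg2 m k s
  pre : s₀ <+: s
  below : ∀ j, s₀.length ≤ j → j < s.length → ∀ i < s₀.length, (lt s i j ↔ i ∈ B)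
  above : ∀ j, s₀.length ≤ j → j < s.length → ∀ i < s₀.length, (lt s j i ↔ i ∈ A)

theorem base_refl {u m k : ℕ} {s : Pos} (ho : Ord2 u s) (hl : Leg2 m k s) (B A : Finset ℕ) :
    Base2 u m k s B A s :=
  ⟨ho, hl, List.prefix_rfl, fun _ h1 h2 => absurd h2 (not_lt.2 h1),
    fun _ h1 h2 => absurd h2 (not_lt.2 h1)⟩

theorem lt_pre {s t : Pos} (h : s <+: t) {i j : ℕ} (hi : i < s.length) (hj : j < s.length) :
    lt t i j ↔ lt s i j := by
  obtain ⟨r, rfl⟩ := h
  exact lt_append hi hj

theorem cl_pre2 {s t : Pos} (h : s <+: t) {i : ℕ} (hi : i < s.length) : cl t i = cl s i := by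
  obtain ⟨r, rfl⟩ := h
  exact cl_append_lt hi

theorem cols_pre2 {s t : Pos} (h : s <+: t) {C : Finset ℕ} (hC : ∀ i ∈ C, i < s.length) :
    cols t C = cols s C := by
  unfold cols
  exact Finset.biUnion_congr rfl fun i hi => cl_pre2 h (hC i hi)

theorem panti_pre2 {s t : Pos} (h : s <+: t) {X : Finset ℕ} (hX : PAnti2 t X)
    (hlt : ∀ i ∈ X, i < s.length) : PAnti2 s X := by
  refine ⟨hlt, fun i hi j hj => ?_⟩
  have := hX.2 i hi j hj
  rwa [lt_pre h (hlt i hi) (hlt j hj)] at this

/-- Slots between the new elements. -/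
theorem slot_of {u m k w w' : ℕ} {s₀ s : Pos} {B A B₁ A₁ : Finset ℕ} (hS : Slot u w' s₀ B A)
    (hb : Base2 u m k s₀ B A s) (hB : ∀ i ∈ B₁, s₀.length ≤ i ∧ i < s.length)
    (hA : ∀ i ∈ A₁, s₀.length ≤ i ∧ i < s.length)
    (hBd : ∀ i ∈ B₁, ∀ h, s₀.length ≤ h → h < s.length → lt s h i → h ∈ B₁)
    (hAu : ∀ i ∈ A₁, ∀ h, s₀.length ≤ h → h < s.length → lt s i h → h ∈ A₁)
    (hmid : ∀ i ∈ B₁, ∀ j ∈ A₁, lt s i j)
    (hw : ∀ X, PAnti2 s X → (∀ i ∈ X, s₀.length ≤ i) → Disjoint X B₁ → Disjoint X A₁ →
      X.card + w ≤ w') : Slot u w s (B ∪ B₁) (A ∪ A₁) := by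
  have hlen := hb.pre.length_le
  refine ⟨?_, ?_, ?_, ?_, ?_, ?_⟩
  · intro i hi
    rcases Finset.mem_union.1 hi with h | h
    · exact (hS.ltB i h).trans_le hlen
    · exact (hB i h).2
  · intro i hi
    rcases Finset.mem_union.1 hi with h | h
    · exact (hS.ltA i h).trans_le hlen
    · exact (hA i h).2
  · intro i hi h hh hlt
    rcases Finset.mem_union.1 hi with h1 | h1
    · have h2 := hS.ltB i h1
      rcases lt_or_ge h s₀.length with h3 | h3
      · rw [lt_pre hb.pre h3 h2] at hlt
        exact Finset.mem_union_left _ (hS.dnB i h1 h h3 hlt)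
      · rw [hb.above h h3 hh i h2] at hlt
        exact absurd hlt (Finset.disjoint_left.1 (slot_disj hS) h1)
    · obtain ⟨h2, h2'⟩ := hB i h1
      rcases lt_or_ge h s₀.length with h3 | h3
      · rw [hb.below i h2 h2' h h3] at hlt
        exact Finset.mem_union_left _ hlt
      · exact Finset.mem_union_right _ (hBd i h1 h h3 hh hlt)
  · intro i hi h hh hlt
    rcases Finset.mem_union.1 hi with h1 | h1
    · have h2 := hS.ltA i h1
      rcases lt_or_ge h s₀.length with h3 | h3
      · rw [lt_pre hb.pre h2 h3] at hlt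
        exact Finset.mem_union_left _ (hS.upA i h1 h h3 hlt)
      · rw [hb.below h h3 hh i h2] at hlt
        exact absurd h1 (Finset.disjoint_left.1 (slot_disj hS) hlt)
    · obtain ⟨h2, h2'⟩ := hA i h1
      rcases lt_or_ge h s₀.length with h3 | h3
      · rw [hb.above i h2 h2' h h3] at hlt
        exact Finset.mem_union_left _ hlt
      · exact Finset.mem_union_right _ (hAu i h1 h h3 hh hlt)
  · intro i hi j hj
    rcases Finset.mem_union.1 hi with h1 | h1
    · have h2 := hS.ltB i h1
      rcases Finset.mem_union.1 hj with h3 | h3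
      · rw [lt_pre hb.pre h2 (hS.ltA j h3)]
        exact hS.mid i h1 j h3
      · exact (hb.below j (hA j h3).1 (hA j h3).2 i h2).2 h1
    · rcases Finset.mem_union.1 hj with h3 | h3
      · exact (hb.above i (hB i h1).1 (hB i h1).2 j (hS.ltA j h3)).2 h3
      · exact hmid i h1 j h3
  · intro X hX h1 h2
    rw [Finset.disjoint_left] at h1 h2
    have h3 : (X.filter fun i => i < s₀.length).card + w' ≤ u := by
      refine hS.anti _ (panti_pre2 hb.pre ⟨fun i hi => hX.1 i (Finset.mem_filter.1 hi).1,
        fun i hi j hj => hX.2 i (Finset.mem_filter.1 hi).1 j (Finset.mem_filter.1 hj).1⟩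
        fun i hi => (Finset.mem_filter.1 hi).2) ?_ ?_
      · rw [Finset.disjoint_left]
        exact fun i hi hiB => h1 (Finset.mem_filter.1 hi).1 (Finset.mem_union_left _ hiB)
      · rw [Finset.disjoint_left]
        exact fun i hi hiA => h2 (Finset.mem_filter.1 hi).1 (Finset.mem_union_left _ hiA)
    have h4 : (X.filter fun i => ¬ i < s₀.length).card + w ≤ w' := by
      refine hw _ ⟨fun i hi => hX.1 i (Finset.mem_filter.1 hi).1,
        fun i hi j hj => hX.2 i (Finset.mem_filter.1 hi).1 j (Finset.mem_filter.1 hj).1⟩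
        (fun i hi => not_lt.1 (Finset.mem_filter.1 hi).2) ?_ ?_
      · rw [Finset.disjoint_left]
        exact fun i hi hiB => h1 (Finset.mem_filter.1 hi).1 (Finset.mem_union_right _ hiB)
      · rw [Finset.disjoint_left]
        exact fun i hi hiA => h2 (Finset.mem_filter.1 hi).1 (Finset.mem_union_right _ hiA)
    have h5 := Finset.card_filter_add_card_filter_not (s := X) (fun i => i < s₀.length)
    omega

/-- A new element in a slot between the new elements. -/
theorem base_snoc {u m k : ℕ} {s₀ s : Pos} {B A B₁ A₁ X : Finset ℕ}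
    (hb : Base2 u m k s₀ B A s) (hB : ∀ i ∈ B₁, s₀.length ≤ i) (hA : ∀ i ∈ A₁, s₀.length ≤ i)
    (hs : Slot u 1 s (B ∪ B₁) (A ∪ A₁)) (hX : LegX2 m k s (B ∪ B₁) (A ∪ A₁) X) :
    Base2 u m k s₀ B A (s ++ [(code (B ∪ B₁) (A ∪ A₁), X)]) := by
  have hlen := hb.pre.length_le
  have hl : (s ++ [(code (B ∪ B₁) (A ∪ A₁), X)]).length = s.length + 1 := by simp
  refine ⟨ord2_snoc le_rfl hb.ord hs X, leg2_snoc hb.leg hX,
    hb.pre.trans (List.prefix_append s _), ?_, ?_⟩
  · intro j hj1 hj2 i hi
    rw [hl] at hj2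
    rcases Nat.lt_succ_iff_lt_or_eq.1 hj2 with h | rfl
    · rw [lt_append (hi.trans_le hlen) h]
      exact hb.below j hj1 h i hi
    · rw [lt_last (hi.trans_le hlen), Finset.mem_union]
      constructor
      · rintro (h | h)
        · exact h
        · exact absurd hi (not_lt.2 (hB i h))
      · exact Or.inl
  · intro j hj1 hj2 i hi
    rw [hl] at hj2
    rcases Nat.lt_succ_iff_lt_or_eq.1 hj2 with h | rfl
    · rw [lt_append h (hi.trans_le hlen)]
      exact hb.above j hj1 h i hi
    · rw [last_lt (hi.trans_le hlen), Finset.mem_union]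
      constructor
      · rintro (h | h)
        · exact h
        · exact absurd hi (not_lt.2 (hA i h))
      · exact Or.inl

/-- Playing in a slot between the new elements. -/
theorem base_trans {u m k : ℕ} {s₀ s t : Pos} {B A B₁ A₁ : Finset ℕ}
    (hb : Base2 u m k s₀ B A s) (hB : ∀ i ∈ B₁, s₀.length ≤ i) (hA : ∀ i ∈ A₁, s₀.length ≤ i)
    (ht : Base2 u m k s (B ∪ B₁) (A ∪ A₁) t) : Base2 u m k s₀ B A t := by
  have hlen := hb.pre.length_le
  refine ⟨ht.ord, ht.leg, hb.pre.trans ht.pre, ?_, ?_⟩
  · intro j hj1 hj2 i hi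
    rcases lt_or_ge j s.length with h | h
    · rw [lt_pre ht.pre (hi.trans_le hlen) h]
      exact hb.below j hj1 h i hi
    · rw [ht.below j h hj2 i (hi.trans_le hlen), Finset.mem_union]
      constructor
      · rintro (h | h)
        · exact h
        · exact absurd hi (not_lt.2 (hB i h))
      · exact Or.inl
  · intro j hj1 hj2 i hi
    rcases lt_or_ge j s.length with h | h
    · rw [lt_pre ht.pre h (hi.trans_le hlen)]
      exact hb.above j hj1 h i hi
    · rw [ht.above j h hj2 i (hi.trans_le hlen), Finset.mem_union]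
      constructor
      · rintro (h | h)
        · exact h
        · exact absurd hi (not_lt.2 (hA i h))
      · exact Or.inl

/-- A chain of new elements, up-closed among the new elements. -/
structure UC2 (n₀ : ℕ) (s : Pos) (C : Finset ℕ) : Prop where
  mem : ∀ i ∈ C, n₀ ≤ i ∧ i < s.length
  up : ∀ i ∈ C, ∀ j, n₀ ≤ j → j < s.length → lt s i j → j ∈ C
  chain : ∀ i ∈ C, ∀ j ∈ C, i ≠ j → lt s i j ∨ lt s j i

end Pool.Agent.RCD
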