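import Pool.Agent.RCD.Avg
import Pool.Agent.RCD.Cap
import Pool.Agent.RCD.Force2

/-!
RCD/Term (MP_920410_lc). The terminal strategy: in a slot of width `w` the first player forces
`F w * m` colours on the new elements. First `force2` gives the chains `C 1, ..., C w`; then
`cap_loop` the spine `Y` and the caps `Z`; `exists_rho` a chain `R = C i ∪ Y` with at least
`rho w * m` colours; the play goes on in the slot above everything but `R` and the caps and below the
caps, where all new elements are incomparable to `R`.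
-/

set_option autoImplicit false

namespace Pool.Agent.RCD

open Pool.Agent.RCC (Pos dn cl cols dn_append_lt cl_append_lt dn_last cl_last)

/-- The goal. -/
def Psi (u m k w : ℕ) (s₀ : Pos) (B A : Finset ℕ) (s : Pos) : Prop :=
  Base2 u m k s₀ B A s ∧ F w * m ≤ (cols s (Finset.Ico s₀.length s.length)).card

theorem cols_union (s : Pos) (C D : Finset ℕ) : cols s (C ∪ D) = cols s C ∪ cols s D := by
  unfold cols
  exact Finset.union_biUnion

theorem cols_mono (s : Pos) {C D : Finset ℕ} (h : C ⊆ D) : cols s C ⊆ cols s D :=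
  Finset.biUnion_subset_biUnion_of_subset_left _ h

/-- The colours of an antichain. -/
theorem anti_cols {m k : ℕ} {s : Pos} (hs : Leg2 m k s) {Z : Finset ℕ}
    (hZ : ∀ i ∈ Z, i < s.length) (ha : ∀ i ∈ Z, ∀ j ∈ Z, ¬ lt s i j) :
    Z.card * m ≤ (cols s Z).card := by
  unfold cols
  rw [Finset.card_biUnion]
  · have h1 : ∑ _i ∈ Z, m ≤ ∑ i ∈ Z, (cl s i).card :=
      Finset.sum_le_sum fun i hi => hs.card i (hZ i hi)
    rwa [Finset.sum_const, smul_eq_mul] at h1
  · intro i hi j hj hij
    exact hs.disj i (hZ i hi) j (hZ j hj) hij (ha i hi j hj) (ha j hj i hi)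

/-- Incomparable sets have disjoint colours. -/
theorem sep_cols {m k : ℕ} {s : Pos} (hs : Leg2 m k s) {C D : Finset ℕ}
    (hC : ∀ i ∈ C, i < s.length) (hD : ∀ i ∈ D, i < s.length)
    (h : ∀ i ∈ C, ∀ j ∈ D, i ≠ j ∧ ¬ lt s i j ∧ ¬ lt s j i) :
    Disjoint (cols s C) (cols s D) := by
  rw [Finset.disjoint_left]
  intro x hx hx'
  unfold cols at hx hx'
  obtain ⟨i, hi, hxi⟩ := Finset.mem_biUnion.1 hx
  obtain ⟨j, hj, hxj⟩ := Finset.mem_biUnion.1 hx'
  obtain ⟨h1, h2, h3⟩ := h i hi j hj
  exact Finset.disjoint_left.1 (hs.disj i (hC i hi) j (hD j hj) h1 h2 h3) hxi hxj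

theorem term (u m k : ℕ) (hm : 1 ≤ m) (w : ℕ) : ∀ (s : Pos) (B A : Finset ℕ), Ord2 u s →
    Leg2 m k s → Slot u w s B A → Frc2 u m k (Psi u m k w s B A) s := by
  induction w with
  | zero =>
    intro s B A ho hl _
    refine Frc2.done s ⟨base_refl ho hl B A, ?_⟩
    rw [F, zero_mul]
    exact Nat.zero_le _
  | succ w ih =>
    intro s₀ B A ho hl hS
    refine (force2 u m k hm (w + 1) s₀ B A ho hl hS).bind ?_
    rintro t ⟨hbt, C, hC, hCd⟩
    have ht0 : s₀.length ≤ t.length := hbt.pre.length_le
    -- the initial state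
    have h0 : Cap u m k s₀ B A t 0 t ∅ ∅ := by
      refine ⟨hbt, List.prefix_rfl, ?_, Finset.disjoint_empty_left _, ?_, ?_, ?_, ?_, rfl, ?_⟩
      · intro i
        constructor
        · rintro ⟨h1, h2⟩
          omega
        · rintro (h1 | h1)
          · exact absurd h1 (Finset.notMem_empty i)
          · exact absurd h1 (Finset.notMem_empty i)
      · intro i _ _ j h1 h2
        omega
      · exact fun i hi => absurd hi (Finset.notMem_empty i)
      · exact fun i hi => absurd hi (Finset.notMem_empty i)
      · exact fun i hi => absurd hi (Finset.notMem_empty i)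
      · exact Finset.Subset.refl _
    refine (cap_loop (w := w + 1) (by omega) hS ht0 _ 0 t ∅ ∅ (by omega) le_rfl h0).bind ?_
    rintro s ⟨Y, Z, h⟩
    have hws : w + 1 - 1 = w := by omega
    rw [hws] at h
    have hts : t.length ≤ s.length := h.pre.length_le
    have hYm : ∀ i ∈ Y, t.length ≤ i ∧ i < s.length := fun i hi => (h.split i).2 (Or.inl hi)
    have hZm : ∀ i ∈ Z, t.length ≤ i ∧ i < s.length := fun i hi => (h.split i).2 (Or.inr hi)
    have hy : (w + 1 - 1) * m ≤ (cols s Y).card := by
      rw [hws, ← h.card]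
      exact (anti_cols h.base.leg (fun i hi => (hZm i hi).2) h.anti).trans
        (Finset.card_le_card h.col)
    -- the chain
    have hCc : ∀ i, 1 ≤ i → i ≤ w + 1 → cols s (C i) = cols t (C i) := fun i h1 h2 =>
      cols_pre2 h.pre fun j hj => ((hC i h1 h2).1.mem j hj).2
    obtain ⟨i, hi1, hi2, hi⟩ := exists_rho (fun i => cols s (C i)) (cols s Y) (w := w + 1) (m := m)
      (fun i h1 h2 => by
        show i * m ≤ (cols s (C i)).card
        rw [hCc i h1 h2]
        exact (hC i h1 h2).2)
      (fun i j h1 h2 h3 => by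
        show Disjoint (cols s (C i)) (cols s (C j))
        rw [hCc i h1 (by omega), hCc j (by omega) h3]
        exact disj_cols2 hbt.leg (hC i h1 (by omega)).1 (hC j (by omega) h3).1
          (hCd i j h1 h2 h3)) (by omega) hy
    obtain ⟨hCi, -⟩ := hC i hi1 hi2
    have hi' : rho (w + 1) * m ≤ (cols s (C i ∪ Y)).card := by
      rw [cols_union]
      exact hi
    have hRm : ∀ j ∈ C i ∪ Y, s₀.length ≤ j ∧ j < s.length := by
      intro j hj
      rcases Finset.mem_union.1 hj with h1 | h1
      · have := hCi.mem j h1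
        omega
      · have := hYm j h1
        omega
    -- the slot
    obtain ⟨B₁, hB₁⟩ : ∃ B₁, B₁ = Finset.Ico s₀.length t.length \ C i := ⟨_, rfl⟩
    have hB₁' : ∀ j, j ∈ B₁ ↔ (s₀.length ≤ j ∧ j < t.length) ∧ j ∉ C i := by
      intro j
      rw [hB₁, Finset.mem_sdiff, Finset.mem_Ico]
    have hB₁m : ∀ j ∈ B₁, s₀.length ≤ j ∧ j < s.length := by
      intro j hj
      have := ((hB₁' j).1 hj).1
      omega
    have hZ₁m : ∀ j ∈ Z, s₀.length ≤ j ∧ j < s.length := by
      intro j hj
      have := hZm j hj
      omega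
    have hslot : Slot u w s (B ∪ B₁) (A ∪ Z) := by
      refine slot_of hS h.base hB₁m hZ₁m ?_ ?_ ?_ ?_
      · intro j hj g hg1 hg2 hgj
        obtain ⟨h1, h2⟩ := (hB₁' j).1 hj
        rcases lt_or_ge g t.length with h3 | h3
        · refine (hB₁' g).2 ⟨⟨hg1, h3⟩, fun h4 => h2 ?_⟩
          rw [lt_pre h.pre h3 h1.2] at hgj
          exact hCi.up g h4 j h1.1 h1.2 hgj
        · exact absurd hgj (ord2_asymm h.base.ord (by omega) hg2 (h.top j h1.1 h1.2 g h3 hg2))
      · intro j hj g hg1 hg2 hjg
        have h1 := hZm j hj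
        rcases lt_or_ge g t.length with h3 | h3
        · exact absurd hjg (ord2_asymm h.base.ord hg2 h1.2 (h.top g hg1 h3 j h1.1 h1.2))
        · rcases (h.split g).1 ⟨h3, hg2⟩ with h4 | h4
          · exact absurd hjg (h.free j hj g h4)
          · exact h4
      · intro j hj g hg
        obtain ⟨h1, -⟩ := (hB₁' j).1 hj
        exact h.top j h1.1 h1.2 g (hZm g hg).1 (hZm g hg).2
      · intro X hX hX1 hX2 hX3
        have hXR : ∀ j ∈ X, j ∈ C i ∪ Y := by
          intro j hj
          have h1 := hX.1 j hj
          have h2 := hX1 j hj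
          have h3 := Finset.disjoint_left.1 hX2 hj
          rw [hB₁'] at h3
          rw [Finset.mem_union]
          rcases lt_or_ge j t.length with h4 | h4
          · left
            by_contra h5
            exact h3 ⟨⟨h2, h4⟩, h5⟩
          · rcases (h.split j).1 ⟨h4, h1⟩ with h5 | h5
            · exact Or.inr h5
            · exact absurd h5 (Finset.disjoint_left.1 hX3 hj)
        have hX1' : X.card ≤ 1 := by
          rw [Finset.card_le_one]
          intro a ha b hb
          by_contra hab
          have h1 := hXR a ha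
          have h2 := hXR b hb
          rw [Finset.mem_union] at h1 h2
          rcases h1 with h1 | h1
          · rcases h2 with h2 | h2
            · rcases hCi.chain a h1 b h2 hab with h3 | h3
              · exact hX.2 a ha b hb ((lt_pre h.pre (hCi.mem a h1).2 (hCi.mem b h2).2).2 h3)
              · exact hX.2 b hb a ha ((lt_pre h.pre (hCi.mem b h2).2 (hCi.mem a h1).2).2 h3)
            · exact hX.2 a ha b hb (h.top a (hCi.mem a h1).1 (hCi.mem a h1).2 b (hYm b h2).1
                (hYm b h2).2)
          · rcases h2 with h2 | h2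
            · exact hX.2 b hb a ha (h.top b (hCi.mem b h2).1 (hCi.mem b h2).2 a (hYm a h1).1
                (hYm a h1).2)
            · rcases h.chain a h1 b h2 hab with h3 | h3
              · exact hX.2 a ha b hb h3
              · exact hX.2 b hb a ha h3
        omega
    -- the inner play
    refine (ih s (B ∪ B₁) (A ∪ Z) h.base.ord h.base.leg hslot).bind ?_
    rintro s' ⟨hb', hF⟩
    have hss' : s.length ≤ s'.length := hb'.pre.length_le
    refine Frc2.done s' ⟨base_trans h.base (fun j hj => (hB₁m j hj).1) (fun j hj => (hZ₁m j hj).1)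
      hb', ?_⟩
    have hsub : cols s' (C i ∪ Y) ∪ cols s' (Finset.Ico s.length s'.length) ⊆
        cols s' (Finset.Ico s₀.length s'.length) := by
      refine Finset.union_subset (cols_mono _ ?_) (cols_mono _ ?_)
      · intro j hj
        rw [Finset.mem_Ico]
        have := hRm j hj
        omega
      · intro j hj
        rw [Finset.mem_Ico] at hj ⊢
        omega
    have hdis : Disjoint (cols s' (C i ∪ Y)) (cols s' (Finset.Ico s.length s'.length)) := by
      refine sep_cols hb'.leg (fun j hj => by have := hRm j hj; omega)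
        (fun j hj => (Finset.mem_Ico.1 hj).2) ?_
      intro a ha b hb
      have h1 := hRm a ha
      rw [Finset.mem_Ico] at hb
      have haB : a ∉ B ∪ B₁ := by
        rw [Finset.mem_union, not_or]
        refine ⟨fun h2 => absurd (hS.ltB a h2) (not_lt.2 h1.1), fun h2 => ?_⟩
        rw [hB₁'] at h2
        rcases Finset.mem_union.1 ha with h3 | h3
        · exact h2.2 h3
        · exact absurd h2.1.2 (not_lt.2 (hYm a h3).1)
      have haA : a ∉ A ∪ Z := by
        rw [Finset.mem_union, not_or]
        refine ⟨fun h2 => absurd (hS.ltA a h2) (not_lt.2 h1.1), fun h2 => ?_⟩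
        rcases Finset.mem_union.1 ha with h3 | h3
        · exact absurd (hCi.mem a h3).2 (not_lt.2 (hZm a h2).1)
        · exact Finset.disjoint_left.1 h.disj h3 h2
      refine ⟨by omega, fun h2 => haB ((hb'.below b hb.1 hb.2 a h1.2).1 h2),
        fun h2 => haA ((hb'.above b hb.1 hb.2 a h1.2).1 h2)⟩
    have hcR : cols s' (C i ∪ Y) = cols s (C i ∪ Y) :=
      cols_pre2 hb'.pre fun j hj => (hRm j hj).2
    calc F (w + 1) * m = rho (w + 1) * m + F w * m := by rw [F, add_mul]
      _ ≤ (cols s' (C i ∪ Y)).card + (cols s' (Finset.Ico s.length s'.length)).card := by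
          rw [hcR]
          exact Nat.add_le_add hi' hF
      _ = (cols s' (C i ∪ Y) ∪ cols s' (Finset.Ico s.length s'.length)).card :=
          (Finset.card_union_of_disjoint hdis).symm
      _ ≤ _ := Finset.card_le_card hsub

/-- The number of the colours. -/
theorem count2 {u m k w : ℕ} {s₀ s : Pos} {B A : Finset ℕ} (h : Psi u m k w s₀ B A s) :
    F w * m ≤ k := by
  have h1 := cols_le h.1.leg (C := Finset.Ico s₀.length s.length) fun i hi =>
    (Finset.mem_Ico.1 hi).2
  have h2 := Finset.card_le_card h1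
  rw [Finset.card_range] at h2
  exact h.2.trans h2

theorem frc_term (u m k : ℕ) (hm : 1 ≤ m) : Frc2 u m k (Psi u m k u [] ∅ ∅) [] := by
  have h0 : ∀ X, PAnti2 [] X → X = ∅ := fun X hX => by
    rw [Finset.eq_empty_iff_forall_notMem]
    intro i hi
    exact absurd (hX.1 i hi) (by simp)
  refine term u m k hm u [] ∅ ∅ ⟨?_, ?_, ?_⟩ ⟨?_, ?_, ?_⟩ ⟨?_, ?_, ?_, ?_, ?_, ?_⟩
  · intro j hj; simp at hj
  · intro j hj; simp at hj
  · intro X hX
    rw [h0 X hX]
    simp
  · intro j hj; simp at hj
  · intro j hj; simp at hj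
  · intro j hj; simp at hj
  · intro i hi; simp at hi
  · intro i hi; simp at hi
  · intro i hi; simp at hi
  · intro i hi; simp at hi
  · intro i hi; simp at hi
  · intro X hX _ _
    rw [h0 X hX]
    simp

end Pool.Agent.RCD
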